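import Pool.Agent.Lib.H8PA.Cx

/-!
# H8PA, A1: two vertex classes of a cluster joined outside the cluster
-/

namespace Pool.Agent.Lib.H8PA

open Pool.Agent.Lib.Helper67.BA

universe u

variable {k : ℕ} {Ω : Type}

/-- the character of the free group which counts the generator `a` -/
noncomputable def chi {A : Type} (a : A) : FreeGroup A →* Multiplicative ℤ := by
  classical
  exact FreeGroup.lift fun b => if b = a then Multiplicative.ofAdd 1 else 1

theorem chi_self {A : Type} (a : A) : chi a (FreeGroup.of a) = Multiplicative.ofAdd 1 := by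
  simp [chi]

theorem chi_ne {A : Type} {a b : A} (h : b ≠ a) : chi a (FreeGroup.of b) = 1 := by
  simp [chi, h]

theorem ofAdd_neg_one_ne : (Multiplicative.ofAdd (1 : ℤ))⁻¹ ≠ 1 := by
  intro h
  have h1 := congrArg Multiplicative.toAdd h
  simp at h1

/-- **A1.** -/
theorem A1_fin {E : Type u} [Group E] {R : Set (FreeGroup (Fin k))}
    {φ : FreeGroup (Fin k) →* E}
    (hφ : Function.Surjective φ) (hR : Subgroup.normalClosure R = φ.ker)
    (ρ : FreeGroup (Fin k) →* Equiv.Perm Ω) (hρ : ∀ r ∈ R, ρ r = 1)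
    {A : Type} [Group A] [Finite A] (c : Ω × Fin k → A) (hc : Coc R ρ c)
    (C : Set (Ω × Fin k)) (hC : ∀ e ∈ Nb R ρ C, c e = 1) (q1 q2 : Ω)
    (hfin : (Set.range fun g => ρ g q1).Finite) (gK gZ : FreeGroup (Fin k))
    (hK : Pth ρ (C ∪ Nb R ρ C) gK q1) (hK2 : ρ gK q1 = q2)
    (hZ : Pth ρ Cᶜ gZ q2) (hZ2 : ρ gZ q2 = q1)
    (hn : ¬ ∃ g, Pth ρ (Nb R ρ C) g q1 ∧ ρ g q1 = q2)
    (g h : FreeGroup (Fin k)) (hg : ρ g q1 = q1) (hh : ρ h q1 = q1)
    (hne : val ρ c g q1 * val ρ c h q1 ≠ val ρ c h q1 * val ρ c g q1) : Large E := by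
  classical
  set l : FreeGroup (Fin k) := gZ * gK with hl
  have hlq : ρ l q1 = q1 := by rw [hl, map_mul, Equiv.Perm.mul_apply, hK2, hZ2]
  set t : A := val ρ c l q1 with ht
  -- an element whose value is not a power of `t`
  obtain ⟨g0, hg0, hb⟩ : ∃ g0, ρ g0 q1 = q1 ∧ val ρ c g0 q1 ∉ Subgroup.zpowers t := by
    by_contra hcon
    push Not at hcon
    obtain ⟨m, hm⟩ := Subgroup.mem_zpowers_iff.1 (hcon g hg)
    obtain ⟨n, hn⟩ := Subgroup.mem_zpowers_iff.1 (hcon h hh)
    apply hne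
    rw [← hm, ← hn]
    exact (Commute.refl t).zpow_zpow m n
  set b : A := val ρ c g0 q1 with hbdef
  let ρ' := ext ρ c
  have hρ' : ∀ r ∈ R, ρ' r = 1 := ext_rel hρ hc
  have hf : ∀ g (w : Ω × A), (ρ' g w).1 = ρ g w.1 := fun g w => rfl
  let D : Set ((Ω × A) × Fin k) := {e | (e.1.1, e.2) ∈ C}
  let Rch : Ω → Prop := fun w => ∃ g, Pth ρ (Nb R ρ C) g q1 ∧ ρ g q1 = w
  let x : Ω × A → FreeGroup A := fun p => if Rch p.1 then FreeGroup.of p.2 else 1
  have hRch : ∀ e ∈ Nb R ρ C, Rch (tgt ρ e) ↔ Rch e.1 := by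
    intro e he
    constructor
    · rintro ⟨g, hg, hg2⟩
      refine ⟨(FreeGroup.of e.2)⁻¹ * g, hg.trans ?_, ?_⟩
      · rw [hg2]
        exact Pth.bwd he
      · rw [map_mul, Equiv.Perm.mul_apply, hg2, tgt, map_inv]
        simp
    · rintro ⟨g, hg, hg2⟩
      refine ⟨FreeGroup.of e.2 * g, hg.trans ?_, ?_⟩
      · rw [hg2]
        exact Pth.fwd he
      · rw [map_mul, Equiv.Perm.mul_apply, hg2]; rfl
  have hx0 : ∀ e : (Ω × A) × Fin k, (e.1.1, e.2) ∈ Nb R ρ C → x (tgt ρ' e) = x e.1 := by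
    intro e he
    have h1 : tgt ρ' e = (tgt ρ (e.1.1, e.2), e.1.2) := by
      rw [show ρ' = ext ρ c from rfl, tgt_ext, hC _ he, one_mul]
    rw [h1]
    show (if Rch (tgt ρ (e.1.1, e.2)) then _ else _) = if Rch e.1.1 then _ else _
    rw [hRch _ he]
  have hcx : Coc R ρ' (cx ρ' D x) := Coc_cx hρ' D x fun e he =>
    hx0 e (Nb_map (ρ := ρ) (ρ' := ρ') Prod.fst hf C e he)
  set c' := cx ρ' D x with hc'
  -- the value of the loop
  have hloop : ∀ a : A, val ρ' c' l (q1, a) = (FreeGroup.of a)⁻¹ := by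
    intro a
    have h1 : val ρ' c' gK (q1, a) = (FreeGroup.of a)⁻¹ := by
      have h2 := hK.lift (ρ' := ρ') Prod.fst hf (q1, a) rfl
      have h3 := h2.gauge (c := fun _ => (1 : FreeGroup A)) (c' := c') (x := x) (by
        intro e he
        rcases he with he | he
        · have : e ∈ D := he
          simp [hc', cx, this]
        · have h4 : e ∉ D := he.1
          simp [hc', cx, h4, hx0 e he])
      rw [h3, val_trivial]
      have h5 : x (q1, a) = FreeGroup.of a := if_pos ⟨1, Pth.one q1, by simp⟩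
      have h6 : x (ρ' gK (q1, a)) = 1 := by
        apply if_neg
        rw [hf]
        show ¬ Rch (ρ gK q1)
        rw [hK2]
        exact hn
      rw [h5, h6]
      simp
    have h7 : val ρ' c' gZ (ρ' gK (q1, a)) = 1 := by
      have h8 : Pth ρ Cᶜ gZ (ρ' gK (q1, a)).1 := by
        rw [hf]
        show Pth ρ Cᶜ gZ (ρ gK q1)
        rw [hK2]
        exact hZ
      have h9 := h8.lift (ρ' := ρ') Prod.fst hf _ rfl
      apply h9.val_one
      intro e he
      have h4 : e ∉ D := he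
      simp [hc', cx, h4]
    rw [hl, val_mul, h1, h7, one_mul]
  have hact : ∀ a : A, ρ' l (q1, a) = (q1, t * a) := by
    intro a
    show (ρ l q1, val ρ c l q1 * a) = (q1, t * a)
    rw [hlq]
  have hpow : ∀ (n : ℕ) (a : A), ρ' (l ^ n) (q1, a) = (q1, t ^ n * a) := by
    intro n
    induction n with
    | zero => intro a; simp
    | succ n ih =>
      intro a
      rw [pow_succ, map_mul, Equiv.Perm.mul_apply, hact, ih, pow_succ, mul_assoc]
  have hchi0 : ∀ (a0 : A) (n : ℕ) (a : A), (∀ i < n, t ^ i * a ≠ a0) →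
      chi a0 (val ρ' c' (l ^ n) (q1, a)) = 1 := by
    intro a0 n
    induction n with
    | zero => intro a _; simp
    | succ n ih =>
      intro a ha
      rw [pow_succ, val_mul, hact, hloop, map_mul, map_inv, ih (t * a), chi_ne]
      · simp
      · have := ha 0 (by omega)
        simpa using this
      · intro i hi
        have := ha (i + 1) (by omega)
        rwa [pow_succ, mul_assoc] at this
  have hN : 0 < orderOf t := orderOf_pos t
  obtain ⟨N, hN2⟩ : ∃ N, orderOf t = N + 1 := ⟨orderOf t - 1, by omega⟩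
  have hchi1 : ∀ a : A, chi a (val ρ' c' (l ^ (N + 1)) (q1, a)) ≠ 1 := by
    intro a
    rw [pow_succ, val_mul, hact, hloop, map_mul, map_inv, hchi0 a N (t * a), chi_self, one_mul]
    · exact ofAdd_neg_one_ne
    · intro i hi h1
      rw [← mul_assoc, ← pow_succ] at h1
      have h2 : t ^ (i + 1) = 1 := by
        have := mul_right_cancel (h1.trans (one_mul a).symm)
        exact this
      exact pow_ne_one_of_lt_orderOf (by omega) (by omega) h2
  have htN : t ^ (N + 1) = 1 := by rw [← hN2]; exact pow_orderOf_eq_one t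
  have hfixN : ∀ a : A, ρ' (l ^ (N + 1)) (q1, a) = (q1, a) := by
    intro a
    rw [hpow, htN, one_mul]
  have hg0act : ρ' g0 (q1, 1) = (q1, b) := by
    show (ρ g0 q1, val ρ c g0 q1 * 1) = _
    rw [hg0, mul_one]
  have hvalh : val ρ' c' (g0⁻¹ * (l ^ (N + 1) * g0)) (q1, 1) =
      (val ρ' c' g0 (q1, 1))⁻¹ * (val ρ' c' (l ^ (N + 1)) (q1, b) * val ρ' c' g0 (q1, 1)) := by
    rw [val_mul, val_mul, map_mul, Equiv.Perm.mul_apply, hg0act, hfixN, ← hg0act, val_inv']
  have hacth : ρ' (g0⁻¹ * (l ^ (N + 1) * g0)) (q1, 1) = (q1, 1) := by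
    rw [map_mul, map_mul, Equiv.Perm.mul_apply, Equiv.Perm.mul_apply, hg0act, hfixN, ← hg0act,
      map_inv]
    simp
  have hchih : ∀ a : A, chi a (val ρ' c' (g0⁻¹ * (l ^ (N + 1) * g0)) (q1, 1)) =
      chi a (val ρ' c' (l ^ (N + 1)) (q1, b)) := by
    intro a
    rw [hvalh, map_mul, map_mul, map_inv, mul_comm, mul_assoc, mul_inv_cancel, mul_one]
  refine large_of_cocycle hφ hR ρ' hρ' c' hcx (q1, 1) (ext_orbit_finite c _ hfin)
    (l ^ (N + 1)) (g0⁻¹ * (l ^ (N + 1) * g0)) (hfixN 1) hacth ?_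
  apply not_comm_of_chars _ _ (chi 1) (chi b) (hchi1 1)
  · rw [hchih]
    apply hchi0
    intro i _ h1
    apply hb
    have h2 : b = (t ^ i)⁻¹ := (inv_eq_of_mul_eq_one_right h1).symm
    rw [h2]
    exact inv_mem (Subgroup.pow_mem _ (Subgroup.mem_zpowers t) i)
  · rw [hchih]
    exact hchi1 b

end Pool.Agent.Lib.H8PA
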