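import Pool.Agent.Lib.H8PA.A1

/-!
# H8PA, A2: loops on both sides of a vertex class
-/

namespace Pool.Agent.Lib.H8PA

open Pool.Agent.Lib.Helper67.BA

universe u

variable {k : ℕ} {Ω : Type}

theorem val_map {G H : Type} [Group G] [Group H] (f : G →* H)
    (ρ : FreeGroup (Fin k) →* Equiv.Perm Ω) (c : Ω × Fin k → G)
    (g : FreeGroup (Fin k)) (w : Ω) :
    val ρ (fun e => f (c e)) g w = f (val ρ c g w) := by
  have key : ∀ l : List (Fin k × Bool), val ρ (fun e => f (c e)) (FreeGroup.mk l) w =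
      f (val ρ c (FreeGroup.mk l) w) := by
    intro l
    induction l with
    | nil =>
      have h1 : (FreeGroup.mk ([] : List (Fin k × Bool))) = 1 := rfl
      rw [h1, val_one, val_one, map_one]
    | cons a l ih =>
      rw [mk_cons, val_mul, val_mul, ih, map_mul, val_letter, val_letter]
      cases a.2 <;> simp
  have h := key g.toWord
  rwa [FreeGroup.mk_toWord] at h

theorem val_prod {G H : Type} [Group G] [Group H]
    (ρ : FreeGroup (Fin k) →* Equiv.Perm Ω) (c : Ω × Fin k → G) (c' : Ω × Fin k → H)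
    (g : FreeGroup (Fin k)) (w : Ω) :
    val ρ (fun e => (c e, c' e)) g w = (val ρ c g w, val ρ c' g w) := by
  have h1 := val_map (MonoidHom.fst G H) ρ (fun e => (c e, c' e)) g w
  have h2 := val_map (MonoidHom.snd G H) ρ (fun e => (c e, c' e)) g w
  exact Prod.ext h1.symm h2.symm

/-- vertices joined to `p` off `C` -/
def Zc (ρ : FreeGroup (Fin k) →* Equiv.Perm Ω) (C : Set (Ω × Fin k)) (p : Ω) : Set Ω :=
  {w | ∃ g, Pth ρ Cᶜ g p ∧ ρ g p = w}

/-- the edges off `C` in the component of `p` -/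
def D1 (ρ : FreeGroup (Fin k) →* Equiv.Perm Ω) (C : Set (Ω × Fin k)) (p : Ω) :
    Set (Ω × Fin k) := {e | e ∉ C ∧ e.1 ∈ Zc ρ C p}

/-- the edges of side 2 -/
def S2 (R : Set (FreeGroup (Fin k))) (ρ : FreeGroup (Fin k) →* Equiv.Perm Ω)
    (C : Set (Ω × Fin k)) (p : Ω) : Set (Ω × Fin k) :=
  {e | e ∈ C ∨ e ∈ Nb R ρ C ∨ (e ∉ C ∧ e.1 ∉ Zc ρ C p)}

variable {R : Set (FreeGroup (Fin k))} {ρ : FreeGroup (Fin k) →* Equiv.Perm Ω}
  {C : Set (Ω × Fin k)} {p : Ω}

/-- the end points of an edge off `C` are in the same component -/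
theorem Zc_edge {e : Ω × Fin k} (he : e ∉ C) : tgt ρ e ∈ Zc ρ C p ↔ e.1 ∈ Zc ρ C p := by
  constructor
  · rintro ⟨g, hg, hg2⟩
    refine ⟨(FreeGroup.of e.2)⁻¹ * g, hg.trans ?_, ?_⟩
    · rw [hg2]
      exact Pth.bwd he
    · rw [map_mul, Equiv.Perm.mul_apply, hg2, tgt, map_inv]
      simp
  · rintro ⟨g, hg, hg2⟩
    refine ⟨FreeGroup.of e.2 * g, hg.trans ?_, ?_⟩
    · rw [hg2]
      exact Pth.fwd he
    · rw [map_mul, Equiv.Perm.mul_apply, hg2]; rfl

/-- paths off `C` from `p` use edges of `D1` -/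
theorem Pth_D1 {g : FreeGroup (Fin k)} (h : Pth ρ Cᶜ g p) : Pth ρ (D1 ρ C p) g p := by
  induction h with
  | one w => exact Pth.one _
  | @step g w a h ha ih =>
    refine Pth.step a ih ⟨ha, ?_⟩
    cases ha2 : a.2
    · exact ⟨FreeGroup.mk [a] * g, Pth.step a h ha, by
        rw [map_mul, Equiv.Perm.mul_apply, (edge_false ρ ha2 _).1]⟩
    · exact ⟨g, h, ((edge_true ρ ha2 _).1).symm⟩

theorem Nb_subset_compl : Nb R ρ C ⊆ Cᶜ := fun _ he => he.1

/-- `p`-class vertices are in the component of `p` -/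
theorem Rch_Zc {w : Ω} (h : ∃ g, Pth ρ (Nb R ρ C) g p ∧ ρ g p = w) : w ∈ Zc ρ C p := by
  obtain ⟨g, hg, hg2⟩ := h
  exact ⟨g, hg.mono Nb_subset_compl, hg2⟩

theorem Rch_edge {e : Ω × Fin k} (he : e ∈ Nb R ρ C) :
    (∃ g, Pth ρ (Nb R ρ C) g p ∧ ρ g p = tgt ρ e) ↔
      ∃ g, Pth ρ (Nb R ρ C) g p ∧ ρ g p = e.1 := by
  constructor
  · rintro ⟨g, hg, hg2⟩
    refine ⟨(FreeGroup.of e.2)⁻¹ * g, hg.trans ?_, ?_⟩
    · rw [hg2]
      exact Pth.bwd he
    · rw [map_mul, Equiv.Perm.mul_apply, hg2, tgt, map_inv]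
      simp
  · rintro ⟨g, hg, hg2⟩
    refine ⟨FreeGroup.of e.2 * g, hg.trans ?_, ?_⟩
    · rw [hg2]
      exact Pth.fwd he
    · rw [map_mul, Equiv.Perm.mul_apply, hg2]; rfl

section Cocycles

variable {A : Type} [Group A] {c : Ω × Fin k → A}

theorem Coc_c1 (hc : Coc R ρ c) (hC : ∀ e ∈ Nb R ρ C, c e = 1) (p : Ω) :
    Coc R ρ (cutc (D1 ρ C p) c) := by
  apply Coc_cut hc
  intro r hr w
  by_cases h : ∃ e' ∈ Ed ρ r.toWord w, e' ∈ C
  · right
    intro e he he1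
    exact hC e ⟨he1.1, r, hr, w, he, h⟩
  · push Not at h
    have h1 : ∀ e ∈ Ed ρ r.toWord w, (e.1 ∈ Zc ρ C p ↔ w ∈ Zc ρ C p) := by
      intro e he
      obtain ⟨g, hg, hg2⟩ := Ed_src (S := Cᶜ) r.toWord w h e he
      constructor
      · rintro ⟨g', h1, h2⟩
        refine ⟨g⁻¹ * g', h1.trans ?_, ?_⟩
        · rw [h2, ← hg2]
          exact hg.inv
        · rw [map_mul, Equiv.Perm.mul_apply, h2, ← hg2, map_inv]
          simp
      · rintro ⟨g', h1, h2⟩
        refine ⟨g * g', h1.trans ?_, ?_⟩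
        · rw [h2]
          exact hg
        · rw [map_mul, Equiv.Perm.mul_apply, h2, hg2]
    by_cases hw : w ∈ Zc ρ C p
    · left
      intro e he he1
      exact absurd ⟨h e he, (h1 e he).2 hw⟩ he1
    · right
      intro e he he1
      exact absurd ((h1 e he).1 he1.2) hw

theorem Coc_c2 (hc : Coc R ρ c) (hC : ∀ e ∈ Nb R ρ C, c e = 1) (p : Ω) :
    Coc R ρ (cutc (D1 ρ C p)ᶜ c) := by
  apply Coc_cut hc
  intro r hr w
  by_cases h : ∃ e' ∈ Ed ρ r.toWord w, e' ∈ C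
  · left
    intro e he he1
    have he2 : e ∈ D1 ρ C p := not_not.1 he1
    exact hC e ⟨he2.1, r, hr, w, he, h⟩
  · push Not at h
    have h1 : ∀ e ∈ Ed ρ r.toWord w, (e.1 ∈ Zc ρ C p ↔ w ∈ Zc ρ C p) := by
      intro e he
      obtain ⟨g, hg, hg2⟩ := Ed_src (S := Cᶜ) r.toWord w h e he
      constructor
      · rintro ⟨g', h1, h2⟩
        refine ⟨g⁻¹ * g', h1.trans ?_, ?_⟩
        · rw [h2, ← hg2]
          exact hg.inv
        · rw [map_mul, Equiv.Perm.mul_apply, h2, ← hg2, map_inv]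
          simp
      · rintro ⟨g', h1, h2⟩
        refine ⟨g * g', h1.trans ?_, ?_⟩
        · rw [h2]
          exact hg
        · rw [map_mul, Equiv.Perm.mul_apply, h2, hg2]
    by_cases hw : w ∈ Zc ρ C p
    · right
      intro e he he1
      exact absurd ⟨h e he, (h1 e he).2 hw⟩ he1
    · left
      intro e he he1
      exact absurd ((h1 e he).1 (not_not.1 he1).2) hw

end Cocycles

/-- **A2, finite coefficients.** -/
theorem A2_fin {E : Type u} [Group E] {φ : FreeGroup (Fin k) →* E}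
    (hφ : Function.Surjective φ) (hR : Subgroup.normalClosure R = φ.ker)
    (hρ : ∀ r ∈ R, ρ r = 1)
    {A : Type} [Group A] [Finite A] (c : Ω × Fin k → A) (hc : Coc R ρ c)
    (hC : ∀ e ∈ Nb R ρ C, c e = 1)
    (hfin : (Set.range fun g => ρ g p).Finite) (μ₁ μ₂ l₁ l₂ : FreeGroup (Fin k))
    (hμ₁ : Pth ρ Cᶜ μ₁ p) (hμ₁' : ρ μ₁ p = p) (hμ₂ : Pth ρ Cᶜ μ₂ p) (hμ₂' : ρ μ₂ p = p)
    (hl₁ : Pth ρ (S2 R ρ C p) l₁ p) (hl₁' : ρ l₁ p = p)
    (hl₂ : Pth ρ (S2 R ρ C p) l₂ p) (hl₂' : ρ l₂ p = p)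
    (h1 : val ρ c μ₁ p ≠ 1) (h2 : val ρ c μ₂ p ≠ 1) (h3 : val ρ c l₁ p ≠ 1)
    (h4 : val ρ c l₂ p ≠ 1)
    (hne : (val ρ c μ₁ p, val ρ c l₁ p) ≠ (val ρ c μ₂ p, val ρ c l₂ p)) : Large E := by
  classical
  set c1 := cutc (D1 ρ C p) c with hc1
  set c2 := cutc (D1 ρ C p)ᶜ c with hc2
  let c12 : Ω × Fin k → A × A := fun e => (c1 e, c2 e)
  have hc12 : Coc R ρ c12 := by
    intro r hr w
    rw [val_prod, Coc_c1 hc hC p r hr w, Coc_c2 hc hC p r hr w]
    rfl
  let ρ' := ext ρ c12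
  have hρ' : ∀ r ∈ R, ρ' r = 1 := ext_rel hρ hc12
  have hf : ∀ g (w : Ω × (A × A)), (ρ' g w).1 = ρ g w.1 := fun g w => rfl
  let D : Set ((Ω × (A × A)) × Fin k) := {e | (e.1.1, e.2) ∈ C}
  let Rch : Ω → Prop := fun w => ∃ g, Pth ρ (Nb R ρ C) g p ∧ ρ g p = w
  let x : Ω × (A × A) → FreeGroup (A × A) := fun q => if Rch q.1 then FreeGroup.of q.2 else 1
  have hNb1 : ∀ e ∈ Nb R ρ C, c12 e = 1 := by
    intro e he
    have h := hC e he
    refine Prod.ext ?_ ?_
    · show c1 e = 1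
      rw [hc1]
      unfold cutc
      split_ifs <;> simp [h]
    · show c2 e = 1
      rw [hc2]
      unfold cutc
      split_ifs <;> simp [h]
  have hx0 : ∀ e : (Ω × (A × A)) × Fin k, (e.1.1, e.2) ∈ Nb R ρ C →
      x (tgt ρ' e) = x e.1 := by
    intro e he
    have h1 : tgt ρ' e = (tgt ρ (e.1.1, e.2), e.1.2) := by
      rw [show ρ' = ext ρ c12 from rfl, tgt_ext, hNb1 _ he, one_mul]
    rw [h1]
    show (if Rch (tgt ρ (e.1.1, e.2)) then _ else _) = if Rch e.1.1 then _ else _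
    rw [show Rch (tgt ρ (e.1.1, e.2)) ↔ Rch e.1.1 from Rch_edge he]
  have hcx : Coc R ρ' (cx ρ' D x) := Coc_cx hρ' D x fun e he =>
    hx0 e (Nb_map (ρ := ρ) (ρ' := ρ') Prod.fst hf C e he)
  set c' := cx ρ' D x with hc'
  -- loops on side 1
  have side1 : ∀ m : FreeGroup (Fin k), Pth ρ Cᶜ m p → ρ m p = p → ∀ q : A × A,
      ρ' m (p, q) = (p, (val ρ c m p * q.1, q.2)) ∧ val ρ' c' m (p, q) = 1 := by
    intro m hm hm' q
    constructor
    · have e1 : val ρ c1 m p = val ρ c m p := (Pth_D1 hm).congr (by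
        intro e he
        simp [hc1, cutc, he])
      have e2 : val ρ c2 m p = 1 := (Pth_D1 hm).val_one (by
        intro e he
        simp [hc2, cutc, he])
      show (ρ m p, val ρ c12 m p * q) = _
      rw [hm', val_prod, e1, e2]
      exact Prod.ext rfl (Prod.ext rfl (one_mul _))
    · apply (hm.lift (ρ' := ρ') Prod.fst hf (p, q) rfl).val_one
      intro e he
      have h4 : e ∉ D := he
      simp [hc', cx, h4]
  -- loops on side 2
  have side2 : ∀ l : FreeGroup (Fin k), Pth ρ (S2 R ρ C p) l p → ρ l p = p → ∀ q : A × A,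
      ρ' l (p, q) = (p, (q.1, val ρ c l p * q.2)) ∧
      val ρ' c' l (p, q) = FreeGroup.of (q.1, val ρ c l p * q.2) * (FreeGroup.of q)⁻¹ := by
    intro l hl hl' q
    have h0 : ρ' l (p, q) = (p, (q.1, val ρ c l p * q.2)) := by
      have e1 : val ρ c1 l p = 1 := hl.val_one (by
        rintro e (he | he | he)
        · have : e ∉ D1 ρ C p := fun h => h.1 he
          simp [hc1, cutc, this]
        · have := hC e he
          simp [hc1, cutc, this]
        · have : e ∉ D1 ρ C p := fun h => he.2 h.2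
          simp [hc1, cutc, this])
      have e2 : val ρ c2 l p = val ρ c l p := hl.congr (by
        rintro e (he | he | he)
        · have : e ∉ D1 ρ C p := fun h => h.1 he
          simp [hc2, cutc, this]
        · have := hC e he
          simp [hc2, cutc, this]
        · have : e ∉ D1 ρ C p := fun h => he.2 h.2
          simp [hc2, cutc, this])
      show (ρ l p, val ρ c12 l p * q) = _
      rw [hl', val_prod, e1, e2]
      exact Prod.ext rfl (Prod.ext (one_mul _) rfl)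
    refine ⟨h0, ?_⟩
    have h5 := (hl.lift (ρ' := ρ') Prod.fst hf (p, q) rfl).gauge
      (c := fun _ => (1 : FreeGroup (A × A))) (c' := c') (x := x) (by
      intro e he
      rcases he with he | he | he
      · have : e ∈ D := he
        simp [hc', cx, this]
      · have h4 : e ∉ D := he.1
        simp [hc', cx, h4, hx0 e he]
      · have h4 : e ∉ D := he.1
        have h5 : x e.1 = 1 := if_neg fun h => he.2 (Rch_Zc h)
        have h6 : x (tgt ρ' e) = 1 := by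
          apply if_neg
          intro h
          apply he.2
          have h7 : (tgt ρ' e).1 = tgt ρ (e.1.1, e.2) := rfl
          rw [h7] at h
          exact (Zc_edge he.1).1 (Rch_Zc h)
        simp [hc', cx, h4, h5, h6])
    rw [h5, val_trivial, h0, mul_one]
    have hp : Rch p := ⟨1, Pth.one p, by simp⟩
    have h8 : x (p, q) = FreeGroup.of q := if_pos hp
    have h9 : x (p, (q.1, val ρ c l p * q.2)) = FreeGroup.of (q.1, val ρ c l p * q.2) := if_pos hp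
    rw [h8, h9]
  -- the commutators
  have comm : ∀ m l : FreeGroup (Fin k), Pth ρ Cᶜ m p → ρ m p = p →
      Pth ρ (S2 R ρ C p) l p → ρ l p = p →
      ρ' (m⁻¹ * (l⁻¹ * (m * l))) (p, 1) = (p, 1) ∧
      val ρ' c' (m⁻¹ * (l⁻¹ * (m * l))) (p, 1) =
        FreeGroup.of (val ρ c m p, 1) * (FreeGroup.of (val ρ c m p, val ρ c l p))⁻¹ *
        (FreeGroup.of (1, val ρ c l p) * (FreeGroup.of (1, 1))⁻¹) := by
    intro m l hm hm' hl hl'
    set b := val ρ c m p
    set a := val ρ c l p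
    have s1 : ρ' l (p, 1) = (p, (1, a)) := by
      rw [(side2 l hl hl' 1).1]
      show (p, ((1 : A), a * 1)) = _
      rw [mul_one]
    have s2 : ρ' m (p, (1, a)) = (p, (b, a)) := by
      rw [(side1 m hm hm' (1, a)).1]
      show (p, (b * 1, a)) = _
      rw [mul_one]
    have s3 : ρ' l (p, (b, 1)) = (p, (b, a)) := by
      rw [(side2 l hl hl' (b, 1)).1]
      show (p, (b, a * 1)) = _
      rw [mul_one]
    have s3' : ρ' l⁻¹ (p, (b, a)) = (p, (b, 1)) := by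
      rw [map_inv, Equiv.Perm.inv_eq_iff_eq, s3]
    have s4 : ρ' m (p, 1) = (p, (b, 1)) := by
      rw [(side1 m hm hm' 1).1]
      show (p, (b * 1, (1 : A))) = _
      rw [mul_one]
    have s4' : ρ' m⁻¹ (p, (b, 1)) = (p, 1) := by
      rw [map_inv, Equiv.Perm.inv_eq_iff_eq, s4]
    have v1 : val ρ' c' l (p, 1) = FreeGroup.of (1, a) * (FreeGroup.of (1, 1))⁻¹ := by
      rw [(side2 l hl hl' 1).2]
      show FreeGroup.of ((1 : A), a * 1) * _ = _
      rw [mul_one]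
      rfl
    have v3 : val ρ' c' l⁻¹ (p, (b, a)) =
        FreeGroup.of (b, 1) * (FreeGroup.of (b, a))⁻¹ := by
      rw [← s3, val_inv', (side2 l hl hl' (b, 1)).2]
      show (FreeGroup.of (b, a * 1) * _)⁻¹ = _
      rw [mul_one, mul_inv_rev, inv_inv]
    have v4 : val ρ' c' m⁻¹ (p, (b, 1)) = 1 := by
      rw [← s4, val_inv', (side1 m hm hm' 1).2, inv_one]
    constructor
    · rw [map_mul, map_mul, map_mul, Equiv.Perm.mul_apply, Equiv.Perm.mul_apply,
        Equiv.Perm.mul_apply, s1, s2, s3', s4']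
    · rw [val_mul, val_mul, val_mul, map_mul, map_mul, Equiv.Perm.mul_apply,
        Equiv.Perm.mul_apply, s1, s2, s3', v4, v3, (side1 m hm hm' (1, a)).2, v1, one_mul,
        one_mul]
  have hchi : ∀ m l : FreeGroup (Fin k), Pth ρ Cᶜ m p → ρ m p = p →
      Pth ρ (S2 R ρ C p) l p → ρ l p = p → ∀ b0 a0 : A, b0 ≠ 1 → a0 ≠ 1 →
      chi (b0, a0) (val ρ' c' (m⁻¹ * (l⁻¹ * (m * l))) (p, 1)) =
        (chi (b0, a0) (FreeGroup.of (val ρ c m p, val ρ c l p)))⁻¹ := by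
    intro m l hm hm' hl hl' b0 a0 hb0 ha0
    rw [(comm m l hm hm' hl hl').2]
    have e1 : chi (b0, a0) (FreeGroup.of (val ρ c m p, (1 : A))) = 1 :=
      chi_ne fun h => ha0 (congrArg Prod.snd h).symm
    have e2 : chi (b0, a0) (FreeGroup.of ((1 : A), val ρ c l p)) = 1 :=
      chi_ne fun h => hb0 (congrArg Prod.fst h).symm
    have e3 : chi (b0, a0) (FreeGroup.of ((1 : A), (1 : A))) = 1 :=
      chi_ne fun h => hb0 (congrArg Prod.fst h).symm
    rw [map_mul, map_mul, map_mul, map_inv, map_inv, e1, e2, e3]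
    simp
  refine large_of_cocycle hφ hR ρ' hρ' c' hcx (p, 1) (ext_orbit_finite c12 _ hfin)
    (μ₁⁻¹ * (l₁⁻¹ * (μ₁ * l₁))) (μ₂⁻¹ * (l₂⁻¹ * (μ₂ * l₂)))
    (comm μ₁ l₁ hμ₁ hμ₁' hl₁ hl₁').1 (comm μ₂ l₂ hμ₂ hμ₂' hl₂ hl₂').1 ?_
  apply not_comm_of_chars _ _ (chi (val ρ c μ₁ p, val ρ c l₁ p))
    (chi (val ρ c μ₂ p, val ρ c l₂ p))
  · rw [hchi _ _ hμ₁ hμ₁' hl₁ hl₁' _ _ h1 h3, chi_self]
    exact ofAdd_neg_one_ne
  · rw [hchi _ _ hμ₂ hμ₂' hl₂ hl₂' _ _ h1 h3, chi_ne (fun h => hne h.symm), inv_one]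
  · rw [hchi _ _ hμ₂ hμ₂' hl₂ hl₂' _ _ h2 h4, chi_self]
    exact ofAdd_neg_one_ne

end Pool.Agent.Lib.H8PA
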