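import Pool.Agent.Lib.H8PA.Defs

/-!
# H8PA: sets with an action of a free group, edges, cochains, paths

`ρ : FreeGroup (Fin k) →* Equiv.Perm Ω` is an action of the free group on `Ω`. An edge is a pair
`(w, i)`; it goes from `w` to `ρ (of i) w`. A cochain is a function `c : Ω × Fin k → G`.
-/

namespace Pool.Agent.Lib.H8PA

open Pool.Agent.Lib.Helper67.BA (Wr)

variable {k : ℕ} {Ω G : Type} [Group G]

/-- target of an edge -/
def tgt (ρ : FreeGroup (Fin k) →* Equiv.Perm Ω) (e : Ω × Fin k) : Ω := ρ (FreeGroup.of e.2) e.1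

/-- the edge traversed by the letter `a` starting at `w` -/
def edgeOf (ρ : FreeGroup (Fin k) →* Equiv.Perm Ω) (a : Fin k × Bool) (w : Ω) : Ω × Fin k :=
  (if a.2 then w else (ρ (FreeGroup.of a.1))⁻¹ w, a.1)

/-- the edges traversed by the word `l` starting at `w` (the last letter acts first) -/
def Ed (ρ : FreeGroup (Fin k) →* Equiv.Perm Ω) : List (Fin k × Bool) → Ω → Set (Ω × Fin k)
  | [], _ => ∅
  | a :: l, w => insert (edgeOf ρ a (ρ (FreeGroup.mk l) w)) (Ed ρ l w)

/-- the homomorphism to the wreath product given by a cochain -/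
def Ph (ρ : FreeGroup (Fin k) →* Equiv.Perm Ω) (c : Ω × Fin k → G) :
    FreeGroup (Fin k) →* Wr G Ω :=
  FreeGroup.lift fun i => ⟨fun w => c (w, i), ρ (FreeGroup.of i)⟩

theorem Ph_p (ρ : FreeGroup (Fin k) →* Equiv.Perm Ω) (c : Ω × Fin k → G)
    (g : FreeGroup (Fin k)) : (Ph ρ c g).p = ρ g := by
  have h : (Wr.perm (T := G)).comp (Ph ρ c) = ρ := by
    apply FreeGroup.ext_hom
    intro i
    simp [Ph]
  exact DFunLike.congr_fun h g

/-- the value of the cochain along `g`, starting at `w` -/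
def val (ρ : FreeGroup (Fin k) →* Equiv.Perm Ω) (c : Ω × Fin k → G) (g : FreeGroup (Fin k))
    (w : Ω) : G := (Ph ρ c g).f w

variable (ρ : FreeGroup (Fin k) →* Equiv.Perm Ω) (c : Ω × Fin k → G)

@[simp] theorem val_one (w : Ω) : val ρ c 1 w = 1 := by rw [val, map_one]; rfl

theorem val_mul (g h : FreeGroup (Fin k)) (w : Ω) :
    val ρ c (g * h) w = val ρ c g (ρ h w) * val ρ c h w := by
  rw [val, map_mul, Wr.mul_f, Ph_p]; rfl

theorem val_of (i : Fin k) (w : Ω) : val ρ c (FreeGroup.of i) w = c (w, i) := by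
  simp [val, Ph]

theorem val_inv (g : FreeGroup (Fin k)) (w : Ω) :
    val ρ c g⁻¹ w = (val ρ c g (ρ g⁻¹ w))⁻¹ := by
  have h := val_mul ρ c g g⁻¹ w
  rw [mul_inv_cancel, val_one] at h
  exact (inv_eq_of_mul_eq_one_right h.symm).symm

theorem val_inv' (g : FreeGroup (Fin k)) (w : Ω) :
    val ρ c g⁻¹ (ρ g w) = (val ρ c g w)⁻¹ := by
  rw [val_inv, ← Equiv.Perm.mul_apply, ← map_mul, inv_mul_cancel, map_one, Equiv.Perm.one_apply]

theorem mk_cons (a : Fin k × Bool) (l : List (Fin k × Bool)) :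
    FreeGroup.mk (a :: l) = FreeGroup.mk [a] * FreeGroup.mk l := by
  rw [FreeGroup.mul_mk]; rfl

theorem mk_true (i : Fin k) : FreeGroup.mk [(i, true)] = FreeGroup.of i := rfl

theorem mk_false (i : Fin k) : FreeGroup.mk [(i, false)] = (FreeGroup.of i)⁻¹ := by
  rw [FreeGroup.of, FreeGroup.inv_mk]; rfl

/-- The value along a letter in terms of the traversed edge. -/
theorem val_letter (a : Fin k × Bool) (w : Ω) : val ρ c (FreeGroup.mk [a]) w =
    if a.2 then c (edgeOf ρ a w) else (c (edgeOf ρ a w))⁻¹ := by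
  obtain ⟨i, b⟩ := a
  cases b
  · rw [mk_false, val_inv, val_of]
    simp [edgeOf]
  · rw [mk_true, val_of]
    simp [edgeOf]

theorem edge_true {a : Fin k × Bool} (h : a.2 = true) (w : Ω) :
    (edgeOf ρ a w).1 = w ∧ tgt ρ (edgeOf ρ a w) = ρ (FreeGroup.mk [a]) w := by
  obtain ⟨i, b⟩ := a
  subst h
  exact ⟨rfl, rfl⟩

theorem edge_false {a : Fin k × Bool} (h : a.2 = false) (w : Ω) :
    (edgeOf ρ a w).1 = ρ (FreeGroup.mk [a]) w ∧ tgt ρ (edgeOf ρ a w) = w := by
  obtain ⟨i, b⟩ := a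
  subst h
  rw [mk_false]
  refine ⟨by simp [edgeOf], ?_⟩
  simp [edgeOf, tgt]

theorem val_congr {c c' : Ω × Fin k → G} (l : List (Fin k × Bool)) (w : Ω)
    (h : ∀ e ∈ Ed ρ l w, c e = c' e) :
    val ρ c (FreeGroup.mk l) w = val ρ c' (FreeGroup.mk l) w := by
  induction l with
  | nil =>
    have h1 : (FreeGroup.mk ([] : List (Fin k × Bool))) = 1 := rfl
    rw [h1, val_one, val_one]
  | cons a l ih =>
    rw [mk_cons, val_mul, val_mul, val_letter, val_letter,
      h _ (Set.mem_insert _ _), ih fun e he => h e (Set.mem_insert_of_mem _ he)]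

theorem letter_gauge {c c' : Ω × Fin k → G} {x : Ω → G} (a : Fin k × Bool) (w : Ω)
    (h : c' (edgeOf ρ a w) = x (tgt ρ (edgeOf ρ a w)) * c (edgeOf ρ a w) *
      (x (edgeOf ρ a w).1)⁻¹) :
    val ρ c' (FreeGroup.mk [a]) w =
      x (ρ (FreeGroup.mk [a]) w) * val ρ c (FreeGroup.mk [a]) w * (x w)⁻¹ := by
  rw [val_letter, val_letter]
  cases ha : a.2
  · obtain ⟨h1, h2⟩ := edge_false ρ ha w
    rw [h, h1, h2]
    simp [mul_assoc]
  · obtain ⟨h1, h2⟩ := edge_true ρ ha w
    rw [h, h1, h2]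
    simp

theorem val_gauge {c c' : Ω × Fin k → G} {x : Ω → G} (l : List (Fin k × Bool)) (w : Ω)
    (h : ∀ e ∈ Ed ρ l w, c' e = x (tgt ρ e) * c e * (x e.1)⁻¹) :
    val ρ c' (FreeGroup.mk l) w =
      x (ρ (FreeGroup.mk l) w) * val ρ c (FreeGroup.mk l) w * (x w)⁻¹ := by
  induction l with
  | nil =>
    have h1 : (FreeGroup.mk ([] : List (Fin k × Bool))) = 1 := rfl
    rw [h1, val_one, val_one, map_one, Equiv.Perm.one_apply]
    simp
  | cons a l ih =>
    rw [mk_cons, val_mul, val_mul, ih fun e he => h e (Set.mem_insert_of_mem _ he),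
      letter_gauge ρ a _ (h _ (Set.mem_insert _ _)), map_mul, Equiv.Perm.mul_apply]
    group

/-- `Pth ρ S g w`: `g` is a product of letters along a path which starts at `w` and uses only
edges in `S`. -/
inductive Pth (ρ : FreeGroup (Fin k) →* Equiv.Perm Ω) (S : Set (Ω × Fin k)) :
    FreeGroup (Fin k) → Ω → Prop
  | one (w : Ω) : Pth ρ S 1 w
  | step {g : FreeGroup (Fin k)} {w : Ω} (a : Fin k × Bool) (h : Pth ρ S g w)
      (ha : edgeOf ρ a (ρ g w) ∈ S) : Pth ρ S (FreeGroup.mk [a] * g) w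

variable {ρ c}

theorem Pth.mono {S S' : Set (Ω × Fin k)} (hS : S ⊆ S') {g : FreeGroup (Fin k)} {w : Ω}
    (h : Pth ρ S g w) : Pth ρ S' g w := by
  induction h with
  | one w => exact Pth.one w
  | step a _ ha ih => exact Pth.step a ih (hS ha)

theorem Pth.trans {S : Set (Ω × Fin k)} {g h : FreeGroup (Fin k)} {w : Ω}
    (hg : Pth ρ S g w) (hh : Pth ρ S h (ρ g w)) : Pth ρ S (h * g) w := by
  generalize hw : ρ g w = v at hh
  induction hh with
  | one v => rwa [one_mul]
  | step a _ ha ih =>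
    subst hw
    rw [mul_assoc]
    refine Pth.step a (ih rfl) ?_
    rwa [map_mul, Equiv.Perm.mul_apply]

/-- a single edge, forwards -/
theorem Pth.fwd {S : Set (Ω × Fin k)} {i : Fin k} {w : Ω} (h : (w, i) ∈ S) :
    Pth ρ S (FreeGroup.of i) w := by
  have h1 := Pth.step (ρ := ρ) (i, true) (Pth.one (S := S) w) (by
    rw [map_one, Equiv.Perm.one_apply]; exact h)
  rwa [mk_true, mul_one] at h1

/-- a single edge, backwards -/
theorem Pth.bwd {S : Set (Ω × Fin k)} {i : Fin k} {w : Ω} (h : (w, i) ∈ S) :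
    Pth ρ S (FreeGroup.of i)⁻¹ (ρ (FreeGroup.of i) w) := by
  have h1 := Pth.step (ρ := ρ) (i, false) (Pth.one (S := S) (ρ (FreeGroup.of i) w)) (by
    rw [map_one, Equiv.Perm.one_apply]
    simpa [edgeOf] using h)
  rwa [mk_false, mul_one] at h1

theorem edgeOf_inv (a : Fin k × Bool) (w : Ω) :
    edgeOf ρ (a.1, !a.2) (ρ (FreeGroup.mk [a]) w) = edgeOf ρ a w := by
  obtain ⟨i, b⟩ := a
  cases b
  · rw [mk_false]
    simp [edgeOf]
  · rw [mk_true]
    simp [edgeOf]

theorem mk_inv_letter (a : Fin k × Bool) :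
    FreeGroup.mk [(a.1, !a.2)] = (FreeGroup.mk [a])⁻¹ := by
  obtain ⟨i, b⟩ := a
  cases b
  · show FreeGroup.mk [(i, true)] = _
    rw [mk_false, mk_true, inv_inv]
  · show FreeGroup.mk [(i, false)] = _
    rw [mk_false, mk_true]

theorem Pth.inv {S : Set (Ω × Fin k)} {g : FreeGroup (Fin k)} {w : Ω}
    (h : Pth ρ S g w) : Pth ρ S g⁻¹ (ρ g w) := by
  induction h with
  | one w =>
    rw [inv_one, map_one]
    exact Pth.one _
  | @step g w a h ha ih =>
    rw [mul_inv_rev, ← mk_inv_letter]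
    have h1 : Pth ρ S (FreeGroup.mk [(a.1, !a.2)]) (ρ (FreeGroup.mk [a] * g) w) := by
      have h2 := Pth.step (ρ := ρ) (a.1, !a.2)
        (Pth.one (S := S) (ρ (FreeGroup.mk [a] * g) w)) (by
          rw [map_one, Equiv.Perm.one_apply, map_mul, Equiv.Perm.mul_apply, edgeOf_inv]
          exact ha)
      rwa [mul_one] at h2
    apply h1.trans
    have h3 : ρ (FreeGroup.mk [(a.1, !a.2)]) (ρ (FreeGroup.mk [a] * g) w) = ρ g w := by
      rw [mk_inv_letter, map_mul, map_inv]
      simp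
    rw [h3]
    exact ih

/-- paths with values -/
theorem Pth.gauge {S : Set (Ω × Fin k)} {c c' : Ω × Fin k → G} {x : Ω → G}
    (hS : ∀ e ∈ S, c' e = x (tgt ρ e) * c e * (x e.1)⁻¹) {g : FreeGroup (Fin k)} {w : Ω}
    (h : Pth ρ S g w) : val ρ c' g w = x (ρ g w) * val ρ c g w * (x w)⁻¹ := by
  induction h with
  | one w => simp
  | @step g w a h ha ih =>
    rw [val_mul, val_mul, ih, letter_gauge ρ a _ (hS _ ha), map_mul, Equiv.Perm.mul_apply]
    group

theorem Pth.congr {S : Set (Ω × Fin k)} {c c' : Ω × Fin k → G}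
    (hS : ∀ e ∈ S, c' e = c e) {g : FreeGroup (Fin k)} {w : Ω}
    (h : Pth ρ S g w) : val ρ c' g w = val ρ c g w := by
  have h1 := h.gauge (c := c) (c' := c') (x := fun _ => 1) (fun e he => by simp [hS e he])
  simpa using h1

theorem val_trivial (g : FreeGroup (Fin k)) (w : Ω) :
    val ρ (fun _ => (1 : G)) g w = 1 := by
  let F : FreeGroup (Fin k) →* Wr G Ω :=
    { toFun := fun g => ⟨fun _ => 1, ρ g⟩
      map_one' := by
        ext y
        · rfl
        · simp
      map_mul' := by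
        intro a b
        ext y
        · simp
        · simp }
  have h : (Ph ρ (fun _ => (1 : G))) = F := by
    apply FreeGroup.ext_hom
    intro i
    simp [Ph, F]
  rw [val, h]
  rfl

theorem Pth.val_one {S : Set (Ω × Fin k)} {c : Ω × Fin k → G}
    (hS : ∀ e ∈ S, c e = 1) {g : FreeGroup (Fin k)} {w : Ω}
    (h : Pth ρ S g w) : val ρ c g w = 1 := by
  rw [h.congr (c := fun _ => (1 : G)) hS, val_trivial]

theorem Pth.univ (g : FreeGroup (Fin k)) (w : Ω) : Pth ρ Set.univ g w := by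
  have key : ∀ l : List (Fin k × Bool), Pth ρ Set.univ (FreeGroup.mk l) w := by
    intro l
    induction l with
    | nil => exact Pth.one w
    | cons a l ih =>
      rw [mk_cons]
      exact Pth.step a ih (Set.mem_univ _)
  have h := key g.toWord
  rwa [FreeGroup.mk_toWord] at h

/-- path along a word -/
theorem Pth.word (l : List (Fin k × Bool)) (w : Ω) {S : Set (Ω × Fin k)}
    (h : Ed ρ l w ⊆ S) : Pth ρ S (FreeGroup.mk l) w := by
  induction l with
  | nil => exact Pth.one w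
  | cons a l ih =>
    rw [mk_cons]
    exact Pth.step a (ih ((Set.subset_insert _ _).trans h)) (h (Set.mem_insert _ _))

/-- equivariant maps -/
theorem Pth.map {Ω' : Type} {ρ' : FreeGroup (Fin k) →* Equiv.Perm Ω'} (f : Ω → Ω')
    (hf : ∀ g w, f (ρ g w) = ρ' g (f w)) {S : Set (Ω × Fin k)} {S' : Set (Ω' × Fin k)}
    (hS : ∀ e ∈ S, (f e.1, e.2) ∈ S') {g : FreeGroup (Fin k)} {w : Ω}
    (h : Pth ρ S g w) : Pth ρ' S' g (f w) := by
  have hedge : ∀ (a : Fin k × Bool) (w : Ω),
      edgeOf ρ' a (f w) = (f (edgeOf ρ a w).1, (edgeOf ρ a w).2) := by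
    intro a w
    obtain ⟨i, b⟩ := a
    cases b
    · have h1 := hf (FreeGroup.of i)⁻¹ w
      rw [map_inv, map_inv] at h1
      exact Prod.ext h1.symm rfl
    · simp [edgeOf]
  induction h with
  | one w => exact Pth.one _
  | @step g w a h ha ih =>
    refine Pth.step a ih ?_
    rw [← hf, hedge]
    exact hS _ ha

end Pool.Agent.Lib.H8PA
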