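import Pool.Agent.Lib.H8PA.Base

/-!
# H8PA: the criterion for largeness
-/

namespace Pool.Agent.Lib.H8PA

open Pool.Agent.Lib.Helper67.BA

universe u

variable {k : ℕ}

/-- Elements of a free group which are separated by two characters do not commute. -/
theorem not_comm_of_chars {Z : Type} (u v : FreeGroup Z)
    (χ₁ χ₂ : FreeGroup Z →* Multiplicative ℤ) (h1 : χ₁ u ≠ 1) (h2 : χ₁ v = 1) (h3 : χ₂ v ≠ 1) :
    u * v ≠ v * u := by
  intro hcomm
  obtain ⟨c, -, hc⟩ := cyclic_of_comm (Subgroup.closure {u, v}) (by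
    intro x hx y hy
    exact Subgroup.closure_induction₂ (p := fun x y _ _ => x * y = y * x)
      (k := ({u, v} : Set (FreeGroup Z)))
      (fun x y hx hy => by
        rcases hx with rfl | rfl <;> rcases hy with rfl | rfl
        · rfl
        · exact hcomm
        · exact hcomm.symm
        · rfl) (fun x _ => by simp) (fun x _ => by simp)
      (fun x y z _ _ _ h1 h2 => (Commute.mul_left (show Commute x z from h1)
        (show Commute y z from h2)).eq)
      (fun x y z _ _ _ h1 h2 => (Commute.mul_right (show Commute z x from h1)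
        (show Commute z y from h2)).eq)
      (fun x y _ _ h => (Commute.inv_left (show Commute x y from h)).eq)
      (fun x y _ _ h => (Commute.inv_right (show Commute x y from h)).eq) hx hy)
  obtain ⟨m, hm⟩ := hc u (Subgroup.subset_closure (by simp))
  obtain ⟨n, hn⟩ := hc v (Subgroup.subset_closure (by simp))
  have h4 : (χ₁ c) ≠ 1 := by
    intro h
    apply h1
    rw [hm, map_zpow, h, one_zpow]
  have h5 : n = 0 := by
    rw [hn, map_zpow] at h2
    by_contra hne
    apply h4
    have h6 : (n : ℤ) * Multiplicative.toAdd (χ₁ c) = 0 := by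
      have := congrArg Multiplicative.toAdd h2
      simpa using this
    rcases mul_eq_zero.1 h6 with h | h
    · exact absurd h hne
    · exact Multiplicative.toAdd.injective (by rw [h]; rfl)
  apply h3
  rw [hn, h5, zpow_zero, map_one]

/-- The stabilizer of a point in the free group. -/
def Stb {Ω : Type} (ρ : FreeGroup (Fin k) →* Equiv.Perm Ω) (w : Ω) : Subgroup (FreeGroup (Fin k))
    where
  carrier := {g | ρ g w = w}
  mul_mem' := by
    intro a b ha hb
    show ρ (a * b) w = w
    rw [map_mul, Equiv.Perm.mul_apply, show ρ b w = w from hb, show ρ a w = w from ha]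
  one_mem' := by
    show ρ 1 w = w
    rw [map_one]; rfl
  inv_mem' := by
    intro a ha
    show ρ a⁻¹ w = w
    rw [map_inv, Equiv.Perm.inv_eq_iff_eq]
    exact (show ρ a w = w from ha).symm

theorem mem_Stb {Ω : Type} {ρ : FreeGroup (Fin k) →* Equiv.Perm Ω} {w : Ω}
    {g : FreeGroup (Fin k)} : g ∈ Stb ρ w ↔ ρ g w = w := Iff.rfl

theorem Stb_finiteIndex {Ω : Type} (ρ : FreeGroup (Fin k) →* Equiv.Perm Ω) (w : Ω)
    (h : (Set.range fun g => ρ g w).Finite) : (Stb ρ w).FiniteIndex := by
  have hf : Finite (FreeGroup (Fin k) ⧸ Stb ρ w) := by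
    have : Finite (Set.range fun g => ρ g w) := h
    let f : FreeGroup (Fin k) ⧸ Stb ρ w → (Set.range fun g => ρ g w) :=
      Quotient.lift (fun g => (⟨ρ g w, g, rfl⟩ : Set.range fun g => ρ g w)) (by
        intro a b hab
        have h1 : a⁻¹ * b ∈ Stb ρ w := QuotientGroup.leftRel_apply.1 hab
        have h2 : ρ (a⁻¹ * b) w = w := h1
        apply Subtype.ext
        show ρ a w = ρ b w
        rw [map_mul, Equiv.Perm.mul_apply, map_inv, Equiv.Perm.inv_eq_iff_eq] at h2
        exact h2.symm)
    apply Finite.of_injective f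
    rintro ⟨a⟩ ⟨b⟩ hab
    have h1 : ρ a w = ρ b w := congrArg Subtype.val hab
    apply Quotient.sound
    apply QuotientGroup.leftRel_apply.2
    show ρ (a⁻¹ * b) w = w
    rw [map_mul, Equiv.Perm.mul_apply, map_inv, Equiv.Perm.inv_eq_iff_eq]
    exact h1.symm
  exact Subgroup.finiteIndex_of_finite_quotient

variable {E : Type u} [Group E]

/-- **Criterion.** A cocycle with values in a free group, two of whose values at the stabilizer of
a point with finite orbit do not commute, makes the group large. -/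
theorem large_of_cocycle {R : Set (FreeGroup (Fin k))} {φ : FreeGroup (Fin k) →* E}
    (hφ : Function.Surjective φ) (hR : Subgroup.normalClosure R = φ.ker)
    {Ω Z : Type} (ρ : FreeGroup (Fin k) →* Equiv.Perm Ω) (hρ : ∀ r ∈ R, ρ r = 1)
    (c : Ω × Fin k → FreeGroup Z) (hc : ∀ r ∈ R, ∀ w, val ρ c r w = 1)
    (ω : Ω) (hfin : (Set.range fun g => ρ g ω).Finite) (g h : FreeGroup (Fin k))
    (hg : ρ g ω = ω) (hh : ρ h ω = ω)
    (hne : val ρ c g ω * val ρ c h ω ≠ val ρ c h ω * val ρ c g ω) : Large E := by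
  -- the kernel of `φ` acts trivially
  have hker : ∀ r ∈ φ.ker, Ph ρ c r = 1 := by
    have h1 : Subgroup.normalClosure R ≤ (Ph ρ c).ker := by
      apply Subgroup.normalClosure_le_normal
      intro r hr
      show Ph ρ c r = 1
      ext w
      · exact hc r hr w
      · rw [Ph_p, hρ r hr]; rfl
    intro r hr
    rw [← hR] at hr
    exact h1 hr
  have hfi := Stb_finiteIndex ρ ω hfin
  let f : Stb ρ ω →* FreeGroup Z :=
    { toFun := fun g => val ρ c g.1 ω
      map_one' := val_one ρ c ω
      map_mul' := by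
        intro a b
        show val ρ c (a.1 * b.1) ω = _
        rw [val_mul, show ρ b.1 ω = ω from b.2] }
  refine ⟨(Stb ρ ω).map φ, ?_, ?_⟩
  · constructor
    intro h0
    have h1 := Subgroup.index_map_dvd (Stb ρ ω) hφ
    rw [h0, zero_dvd_iff] at h1
    exact hfi.index_ne_zero h1
  · let φ' : Stb ρ ω →* ((Stb ρ ω).map φ : Subgroup E) :=
      { toFun := fun w => ⟨φ w.1, w.1, w.2, rfl⟩
        map_one' := Subtype.ext (map_one φ)
        map_mul' := fun x y => Subtype.ext (map_mul φ _ _) }
    have hφ' : Function.Surjective φ' := by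
      rintro ⟨_, ⟨a, ha, rfl⟩⟩
      exact ⟨⟨a, ha⟩, rfl⟩
    have hkk : φ'.ker ≤ f.ker := by
      intro w hw
      have h1 : φ w.1 = 1 := congrArg Subtype.val (MonoidHom.mem_ker.1 hw)
      have h2 := hker w.1 h1
      rw [MonoidHom.mem_ker]
      show (Ph ρ c w.1).f ω = 1
      rw [h2]
      rfl
    let q := MonoidHom.liftOfSurjective φ' hφ' ⟨f, hkk⟩
    have hq : ∀ w, q (φ' w) = f w := fun w =>
      MonoidHom.liftOfRightInverse_comp_apply φ' _ _ ⟨f, hkk⟩ w
    exact exists_surj_of_noncomm q (φ' ⟨g, hg⟩) (φ' ⟨h, hh⟩) (by rw [hq, hq]; exact hne)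

end Pool.Agent.Lib.H8PA
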