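import Pool.Agent.Lib.H8PA.Crit

/-!
# H8PA: cocycles
-/

namespace Pool.Agent.Lib.H8PA

open Pool.Agent.Lib.Helper67.BA

variable {k : ℕ} {Ω G : Type} [Group G]

/-- The edges outside `D` on the relator paths which meet `D`. -/
def Nb (R : Set (FreeGroup (Fin k))) (ρ : FreeGroup (Fin k) →* Equiv.Perm Ω)
    (D : Set (Ω × Fin k)) : Set (Ω × Fin k) :=
  {e | e ∉ D ∧ ∃ r ∈ R, ∃ w, e ∈ Ed ρ r.toWord w ∧ ∃ e' ∈ Ed ρ r.toWord w, e' ∈ D}

/-- cocycles: cochains whose values along the relator paths are trivial -/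
def Coc (R : Set (FreeGroup (Fin k))) (ρ : FreeGroup (Fin k) →* Equiv.Perm Ω)
    (c : Ω × Fin k → G) : Prop :=
  ∀ r ∈ R, ∀ w, val ρ c r w = 1

open Classical in
/-- the partial coboundary of `x` on `D` -/
noncomputable def cx (ρ : FreeGroup (Fin k) →* Equiv.Perm Ω) (D : Set (Ω × Fin k)) (x : Ω → G) :
    Ω × Fin k → G :=
  fun e => if e ∈ D then x (tgt ρ e) * (x e.1)⁻¹ else 1

open Classical in
/-- the cochain `c` cut down to `D` -/
noncomputable def cutc (D : Set (Ω × Fin k)) (c : Ω × Fin k → G) : Ω × Fin k → G :=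
  fun e => if e ∈ D then c e else 1

variable {R : Set (FreeGroup (Fin k))} {ρ : FreeGroup (Fin k) →* Equiv.Perm Ω}

theorem val_toWord (c : Ω × Fin k → G) (r : FreeGroup (Fin k)) (w : Ω) :
    val ρ c r w = val ρ c (FreeGroup.mk r.toWord) w := by rw [FreeGroup.mk_toWord]

theorem Coc_cx (hρ : ∀ r ∈ R, ρ r = 1) (D : Set (Ω × Fin k)) (x : Ω → G)
    (hx : ∀ e ∈ Nb R ρ D, x (tgt ρ e) = x e.1) : Coc R ρ (cx ρ D x) := by
  intro r hr w
  rw [val_toWord]
  by_cases h : ∃ e' ∈ Ed ρ r.toWord w, e' ∈ D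
  · rw [val_gauge (c := fun _ => (1 : G)) (x := x), val_trivial, FreeGroup.mk_toWord, hρ r hr]
    · simp
    · intro e he
      by_cases heD : e ∈ D
      · simp [cx, heD]
      · have h1 := hx e ⟨heD, r, hr, w, he, h⟩
        simp [cx, heD, h1]
  · push Not at h
    rw [val_congr ρ (c' := fun _ => (1 : G)), val_trivial]
    intro e he
    simp [cx, h e he]

theorem Coc_cut {c : Ω × Fin k → G} (hc : Coc R ρ c) (D : Set (Ω × Fin k))
    (h : ∀ r ∈ R, ∀ w, (∀ e ∈ Ed ρ r.toWord w, e ∉ D → c e = 1) ∨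
      ∀ e ∈ Ed ρ r.toWord w, e ∈ D → c e = 1) : Coc R ρ (cutc D c) := by
  intro r hr w
  rw [val_toWord]
  rcases h r hr w with h | h
  · rw [val_congr ρ (c' := c), ← val_toWord, hc r hr w]
    intro e he
    by_cases heD : e ∈ D
    · simp [cutc, heD]
    · simp [cutc, heD, h e he heD]
  · rw [val_congr ρ (c' := fun _ => (1 : G)), val_trivial]
    intro e he
    by_cases heD : e ∈ D
    · simp [cutc, heD, h e he heD]
    · simp [cutc, heD]

/-- The product of the action with the action on `G` through the cochain. -/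
def ext (ρ : FreeGroup (Fin k) →* Equiv.Perm Ω) (c : Ω × Fin k → G) :
    FreeGroup (Fin k) →* Equiv.Perm (Ω × G) where
  toFun g :=
    { toFun := fun p => (ρ g p.1, val ρ c g p.1 * p.2)
      invFun := fun p => (ρ g⁻¹ p.1, val ρ c g⁻¹ p.1 * p.2)
      left_inv := fun p => by
        refine Prod.ext ?_ ?_
        · show ρ g⁻¹ (ρ g p.1) = p.1
          simp
        · show val ρ c g⁻¹ (ρ g p.1) * (val ρ c g p.1 * p.2) = p.2
          rw [val_inv']
          simp
      right_inv := fun p => by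
        refine Prod.ext ?_ ?_
        · show ρ g (ρ g⁻¹ p.1) = p.1
          simp
        · show val ρ c g (ρ g⁻¹ p.1) * (val ρ c g⁻¹ p.1 * p.2) = p.2
          rw [val_inv]
          simp }
  map_one' := by
    ext1 p
    refine Prod.ext ?_ ?_
    · show ρ 1 p.1 = p.1
      simp
    · show val ρ c 1 p.1 * p.2 = p.2
      simp
  map_mul' g h := by
    ext1 p
    refine Prod.ext ?_ ?_
    · show ρ (g * h) p.1 = ρ g (ρ h p.1)
      simp
    · show val ρ c (g * h) p.1 * p.2 = val ρ c g (ρ h p.1) * (val ρ c h p.1 * p.2)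
      rw [val_mul, mul_assoc]

@[simp] theorem ext_apply (c : Ω × Fin k → G) (g : FreeGroup (Fin k)) (p : Ω × G) :
    ext ρ c g p = (ρ g p.1, val ρ c g p.1 * p.2) := rfl

theorem ext_rel (hρ : ∀ r ∈ R, ρ r = 1) {c : Ω × Fin k → G} (hc : Coc R ρ c) :
    ∀ r ∈ R, ext ρ c r = 1 := by
  intro r hr
  ext1 p
  rw [ext_apply, hρ r hr, hc r hr, one_mul]
  rfl

theorem ext_orbit_finite [Finite G] (c : Ω × Fin k → G) (p : Ω × G)
    (h : (Set.range fun g => ρ g p.1).Finite) : (Set.range fun g => ext ρ c g p).Finite := by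
  apply (h.prod (Set.finite_univ (α := G))).subset
  rintro _ ⟨g, rfl⟩
  exact ⟨⟨g, rfl⟩, Set.mem_univ _⟩

/-- edges of paths under equivariant maps -/
theorem Ed_map {Ω' : Type} {ρ' : FreeGroup (Fin k) →* Equiv.Perm Ω'} (f : Ω' → Ω)
    (hf : ∀ g w, f (ρ' g w) = ρ g (f w)) (l : List (Fin k × Bool)) (w : Ω') :
    Ed ρ l (f w) = (fun e : Ω' × Fin k => (f e.1, e.2)) '' Ed ρ' l w := by
  have hedge : ∀ (a : Fin k × Bool) (w : Ω'),
      edgeOf ρ a (f w) = (f (edgeOf ρ' a w).1, (edgeOf ρ' a w).2) := by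
    intro a w
    obtain ⟨i, b⟩ := a
    cases b
    · have h1 := hf (FreeGroup.of i)⁻¹ w
      rw [map_inv, map_inv] at h1
      exact Prod.ext h1.symm rfl
    · simp [edgeOf]
  induction l with
  | nil => simp [Ed]
  | cons a l ih =>
    rw [Ed, Ed, Set.image_insert_eq, ← ih, ← hf, hedge]

theorem Nb_map {Ω' : Type} {ρ' : FreeGroup (Fin k) →* Equiv.Perm Ω'} (f : Ω' → Ω)
    (hf : ∀ g w, f (ρ' g w) = ρ g (f w)) (D : Set (Ω × Fin k)) (e : Ω' × Fin k)
    (he : e ∈ Nb R ρ' {e : Ω' × Fin k | (f e.1, e.2) ∈ D}) : (f e.1, e.2) ∈ Nb R ρ D := by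
  obtain ⟨h1, r, hr, w, h2, e', h3, h4⟩ := he
  refine ⟨h1, r, hr, f w, ?_, (f e'.1, e'.2), ?_, h4⟩
  · rw [Ed_map f hf]
    exact ⟨e, h2, rfl⟩
  · rw [Ed_map f hf]
    exact ⟨e', h3, rfl⟩

/-- paths can be lifted along equivariant maps -/
theorem Pth.lift {Ω' : Type} {ρ' : FreeGroup (Fin k) →* Equiv.Perm Ω'} (f : Ω' → Ω)
    (hf : ∀ g w, f (ρ' g w) = ρ g (f w)) {S : Set (Ω × Fin k)} {g : FreeGroup (Fin k)} {v : Ω}
    (h : Pth ρ S g v) (w : Ω') (hw : f w = v) :
    Pth ρ' {e : Ω' × Fin k | (f e.1, e.2) ∈ S} g w := by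
  have hedge : ∀ (a : Fin k × Bool) (w : Ω'),
      edgeOf ρ a (f w) = (f (edgeOf ρ' a w).1, (edgeOf ρ' a w).2) := by
    intro a w
    obtain ⟨i, b⟩ := a
    cases b
    · have h1 := hf (FreeGroup.of i)⁻¹ w
      rw [map_inv, map_inv] at h1
      exact Prod.ext h1.symm rfl
    · simp [edgeOf]
  induction h with
  | one v => exact Pth.one w
  | @step g v a h ha ih =>
    refine Pth.step a (ih hw) ?_
    show (f (edgeOf ρ' a (ρ' g w)).1, (edgeOf ρ' a (ρ' g w)).2) ∈ S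
    rw [← hedge, hf, hw]
    exact ha

/-- the target of an edge of the extension -/
theorem tgt_ext (c : Ω × Fin k → G) (e : (Ω × G) × Fin k) :
    tgt (ext ρ c) e = (tgt ρ (e.1.1, e.2), c (e.1.1, e.2) * e.1.2) := by
  rw [tgt, ext_apply, val_of]
  rfl

/-- All vertices of a path all of whose edges lie in `S` are joined in `S`: the sources of the
edges. -/
theorem Ed_src {S : Set (Ω × Fin k)} (l : List (Fin k × Bool)) (w : Ω) (h : Ed ρ l w ⊆ S)
    (e : Ω × Fin k) (he : e ∈ Ed ρ l w) : ∃ g, Pth ρ S g w ∧ ρ g w = e.1 := by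
  induction l with
  | nil => simp [Ed] at he
  | cons a l ih =>
    rcases Set.mem_insert_iff.1 he with rfl | he
    · have h1 : Pth ρ S (FreeGroup.mk l) w := Pth.word l w ((Set.subset_insert _ _).trans h)
      cases ha : a.2
      · refine ⟨FreeGroup.mk [a] * FreeGroup.mk l, Pth.step a h1 (h (Set.mem_insert _ _)), ?_⟩
        rw [map_mul, Equiv.Perm.mul_apply, (edge_false ρ ha _).1]
      · exact ⟨_, h1, ((edge_true ρ ha _).1).symm⟩
    · exact ih ((Set.subset_insert _ _).trans h) he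

end Pool.Agent.Lib.H8PA
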