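import Pool.Agent.Lib.Helper67.BA.Rays
import Pool.Agent.Lib.Helper67.BA.Letters
import Pool.Agent.Lib.Helper67.BA.FreeLemmas
import Pool.Agent.Lib.Helper67.BA.Monster

/-!
# H8PA: definitions and interface

`TA X`: automorphisms of the rooted tree of finite words, `TA.sec g v`: section, `pref ξ n`:
prefix of a ray, `ray g ξ`: image of a ray (all from `Helper67.BA`).
-/

namespace Pool.Agent.Lib.H8PA

open Pool.Agent.Lib.Helper67.BA

universe u

variable {X : Type}

/-- The singular set of `g`: the rays along which all sections of `g` are nontrivial. -/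
def Sg (g : TA X) : Set (ℕ → X) := {ξ | ∀ n, TA.sec g (pref ξ n) ≠ 1}

variable {E : Type u} [Group E]

/-- The singular rays of the elements of `S`. -/
def Sing (j : E →* TA X) (S : Set E) : Set (ℕ → X) := {ξ | ∃ s ∈ S, ξ ∈ Sg (j s)}

/-- The points which can be reached from `ξ` by steps `a ↦ b a`, `b ∈ B`, all of whose end points
lie in `A`. -/
def Comp (j : E →* TA X) (A : Set (ℕ → X)) (B : Set E) (ξ : ℕ → X) : Set (ℕ → X) :=
  {η | Relation.ReflTransGen (fun a b => b ∈ A ∧ ∃ e ∈ B, ray (j e) a = b) ξ η}

/-- HYP F: for all finite `S`, `B` the components of the graph of the moves from `B` on the set of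
singular rays of the elements of `S` are finite. -/
def HypF (j : E →* TA X) : Prop :=
  ∀ S B : Set E, S.Finite → B.Finite → ∀ ξ ∈ Sing j S, (Comp j (Sing j S) B ξ).Finite

/-- The group of the sections at `v` of the stabilizer of `v` is virtually abelian. -/
def VA (j : E →* TA X) (v : List X) : Prop :=
  ∃ K : Subgroup E, K.FiniteIndex ∧ (∀ g ∈ K, j g v = v) ∧
    ∀ a ∈ K, ∀ b ∈ K, TA.sec (j (a * b)) v = TA.sec (j (b * a)) v

/-- the orbit of a ray is infinite -/
def InfOrb (j : E →* TA X) (ξ : ℕ → X) : Prop := (Set.range fun e : E => ray (j e) ξ).Infinite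

/-- Q': for every prefix-closed set `T` of words, `g` has only finitely many sections at the words
at which one leaves `T`. -/
def Qp (g : TA X) : Prop :=
  ∀ T : Set (List X), (∀ (v : List X) (x : X), v ++ [x] ∈ T → v ∈ T) →
    {h : TA X | ∃ (v : List X) (x : X), v ∈ T ∧ v ++ [x] ∉ T ∧ h = TA.sec g (v ++ [x])}.Finite

end Pool.Agent.Lib.H8PA
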