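import Pool.Agent.Lib.H8PA.Gen

/-!
# H8PA: clusters and partial coboundaries
-/

namespace Pool.Agent.Lib.H8PA

open Pool.Agent.Lib.Helper67.BA

universe u

variable {k : ℕ} {Ω : Type}

/-- two edges of `B` on the same relator path -/
def Lk (R : Set (FreeGroup (Fin k))) (ρ : FreeGroup (Fin k) →* Equiv.Perm Ω)
    (B : Set (Ω × Fin k)) (e e' : Ω × Fin k) : Prop :=
  e ∈ B ∧ e' ∈ B ∧ ∃ r ∈ R, ∃ w, e ∈ Ed ρ r.toWord w ∧ e' ∈ Ed ρ r.toWord w

/-- cluster of an edge -/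
def Cl (R : Set (FreeGroup (Fin k))) (ρ : FreeGroup (Fin k) →* Equiv.Perm Ω)
    (B : Set (Ω × Fin k)) (e : Ω × Fin k) : Set (Ω × Fin k) :=
  {e' | Relation.ReflTransGen (Lk R ρ B) e e'}

/-- The cochain is a partial coboundary on `C`. -/
def PCb {A : Type} [Group A] (R : Set (FreeGroup (Fin k)))
    (ρ : FreeGroup (Fin k) →* Equiv.Perm Ω) (c : Ω × Fin k → A) (C : Set (Ω × Fin k)) : Prop :=
  ∃ h : Ω → A, (∀ e ∈ Nb R ρ C, h (tgt ρ e) = h e.1) ∧ ∀ e ∈ C, c e = h (tgt ρ e) * (h e.1)⁻¹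

/-- all end points of edges of `C` in the same component off `C` are in the same class -/
def Inj (R : Set (FreeGroup (Fin k))) (ρ : FreeGroup (Fin k) →* Equiv.Perm Ω)
    (C : Set (Ω × Fin k)) : Prop :=
  ∀ p, (∃ e ∈ C, p = e.1 ∨ p = tgt ρ e) → InjAt R ρ C p

variable {R : Set (FreeGroup (Fin k))} {ρ : FreeGroup (Fin k) →* Equiv.Perm Ω}
  {B C : Set (Ω × Fin k)}

theorem Lk.symm {e e' : Ω × Fin k} (h : Lk R ρ B e e') : Lk R ρ B e' e := by
  obtain ⟨h1, h2, r, hr, w, h3, h4⟩ := h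
  exact ⟨h2, h1, r, hr, w, h4, h3⟩

theorem Cl_refl (e : Ω × Fin k) : e ∈ Cl R ρ B e := Relation.ReflTransGen.refl

theorem Cl_symm {e e' : Ω × Fin k} (h : e' ∈ Cl R ρ B e) : e ∈ Cl R ρ B e' := by
  have h' : Relation.ReflTransGen (Lk R ρ B) e e' := h
  show Relation.ReflTransGen (Lk R ρ B) e' e
  induction h' with
  | refl => exact Relation.ReflTransGen.refl
  | tail _ h2 ih => exact Relation.ReflTransGen.head h2.symm (ih (by assumption))

theorem Cl_trans {e e' e'' : Ω × Fin k} (h : e' ∈ Cl R ρ B e) (h' : e'' ∈ Cl R ρ B e') :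
    e'' ∈ Cl R ρ B e := Relation.ReflTransGen.trans h h'

theorem Cl_eq {e e' : Ω × Fin k} (h : e' ∈ Cl R ρ B e) : Cl R ρ B e' = Cl R ρ B e := by
  ext f
  exact ⟨fun h' => Cl_trans h h', fun h' => Cl_trans (Cl_symm h) h'⟩

theorem Cl_subset {e : Ω × Fin k} (he : e ∈ B) : Cl R ρ B e ⊆ B := by
  intro f hf
  have hf' : Relation.ReflTransGen (Lk R ρ B) e f := hf
  rcases Relation.ReflTransGen.cases_tail hf' with h | ⟨_, _, h⟩
  · rw [h]; exact he
  · exact h.2.1

/-- the edges on relator paths which meet a cluster, outside the cluster, are not in `B` -/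
theorem Nb_Cl {e f : Ω × Fin k} (he : e ∈ B) (hf : f ∈ Nb R ρ (Cl R ρ B e)) : f ∉ B := by
  intro hfB
  obtain ⟨h1, r, hr, w, h2, e', h3, h4⟩ := hf
  apply h1
  exact Cl_trans h4 (Relation.ReflTransGen.single ⟨Cl_subset he h4, hfB, r, hr, w, h3, h2⟩)

theorem Zc_refl (p : Ω) : p ∈ Zc ρ C p := ⟨1, Pth.one p, by simp⟩

theorem Zc_symm {p q : Ω} (h : q ∈ Zc ρ C p) : p ∈ Zc ρ C q := by
  obtain ⟨g, hg, rfl⟩ := h
  exact ⟨g⁻¹, hg.inv, by rw [map_inv]; simp⟩

theorem Zc_trans {p q w : Ω} (h : q ∈ Zc ρ C p) (h' : w ∈ Zc ρ C q) : w ∈ Zc ρ C p := by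
  obtain ⟨g, hg, rfl⟩ := h
  obtain ⟨g', hg', rfl⟩ := h'
  exact ⟨g' * g, hg.trans hg', by rw [map_mul]; rfl⟩

theorem inv_of_Pth {A : Type} {h : Ω → A} {S : Set (Ω × Fin k)}
    (hS : ∀ e ∈ S, h (tgt ρ e) = h e.1) {g : FreeGroup (Fin k)} {w : Ω} (hg : Pth ρ S g w) :
    h (ρ g w) = h w := by
  induction hg with
  | one w => simp
  | @step g w a hg ha ih =>
    rw [map_mul, Equiv.Perm.mul_apply, ← ih]
    rcases edge_ends (ρ := ρ) a (ρ g w) with ⟨e1, e2⟩ | ⟨e1, e2⟩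
    · rw [e2, hS _ ha, ← e1]
    · rw [e2, ← hS _ ha, ← e1]

/-- **G1.** A partial coboundary on `C` is the coboundary of a function which is constant off
`C`. -/
theorem G1 {A : Type} [Group A] {c : Ω × Fin k → A} (hinj : Inj R ρ C) (hpc : PCb R ρ c C) :
    ∃ f : Ω → A, (∀ e ∉ C, f (tgt ρ e) = f e.1) ∧ ∀ e ∈ C, c e = f (tgt ρ e) * (f e.1)⁻¹ := by
  classical
  obtain ⟨h, h1, h2⟩ := hpc
  let P : Ω → Ω → Prop := fun w p => (∃ e ∈ C, p = e.1 ∨ p = tgt ρ e) ∧ w ∈ Zc ρ C p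
  let f : Ω → A := fun w => if hw : ∃ p, P w p then h hw.choose else 1
  have hf : ∀ w p, P w p → f w = h p := by
    intro w p hp
    have hw : ∃ p, P w p := ⟨p, hp⟩
    have h3 : f w = h hw.choose := dif_pos hw
    rw [h3]
    have h4 := hw.choose_spec
    set p' := hw.choose with hp'
    -- `p'` is in the component of `p`
    have h5 : p' ∈ Zc ρ C p := Zc_trans hp.2 (Zc_symm h4.2)
    obtain ⟨e, he, hep⟩ := h4.1
    have h6 := hinj p hp.1 e he
    have h7 : Rch R ρ C p p' := by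
      rcases hep with h8 | h8
      · rw [h8] at h5 ⊢
        exact h6.1 h5
      · rw [h8] at h5 ⊢
        exact h6.2 h5
    obtain ⟨g, hg, hg2⟩ := h7
    rw [← hg2]
    exact inv_of_Pth h1 hg
  refine ⟨f, ?_, ?_⟩
  · intro e he
    by_cases hw : ∃ p, P e.1 p
    · obtain ⟨p, hp⟩ := hw
      rw [hf _ p hp, hf _ p ⟨hp.1, (Zc_edge he).2 hp.2⟩]
    · have hw' : ¬ ∃ p, P (tgt ρ e) p := by
        rintro ⟨p, hp⟩
        exact hw ⟨p, hp.1, (Zc_edge he).1 hp.2⟩
      have e1 : f e.1 = 1 := dif_neg hw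
      have e2 : f (tgt ρ e) = 1 := dif_neg hw'
      rw [e1, e2]
  · intro e he
    rw [h2 e he, hf e.1 e.1 ⟨⟨e, he, Or.inl rfl⟩, Zc_refl _⟩,
      hf (tgt ρ e) (tgt ρ e) ⟨⟨e, he, Or.inr rfl⟩, Zc_refl _⟩]

/-- gauge transform -/
def gtr {A : Type} [Group A] (ρ : FreeGroup (Fin k) →* Equiv.Perm Ω) (c : Ω × Fin k → A)
    (f : Ω → A) : Ω × Fin k → A := fun e => (f (tgt ρ e))⁻¹ * c e * f e.1

/-- **All clusters partial coboundaries ⟹ coboundary.** -/
theorem all_PC {A : Type} [Group A] {c : Ω × Fin k → A} (O : Set Ω)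
    (hBc : ∀ e, e.1 ∈ O → e ∉ B → c e = 1)
    (hfin : {e : Ω × Fin k | e.1 ∈ O ∧ e ∈ B}.Finite)
    (hinj : ∀ e ∈ B, e.1 ∈ O → Inj R ρ (Cl R ρ B e))
    (hpc : ∀ e ∈ B, e.1 ∈ O → PCb R ρ c (Cl R ρ B e)) :
    ∃ f : Ω → A, ∀ e, e.1 ∈ O → c e = f (tgt ρ e) * (f e.1)⁻¹ := by
  classical
  have key : ∀ (n : ℕ) (f : Ω → A), (∀ e, e.1 ∈ O → e ∉ B → gtr ρ c f e = 1) →
      (∀ e ∈ B, e.1 ∈ O → PCb R ρ (gtr ρ c f) (Cl R ρ B e)) →
      {e : Ω × Fin k | e.1 ∈ O ∧ gtr ρ c f e ≠ 1}.ncard ≤ n →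
      ∃ f : Ω → A, ∀ e, e.1 ∈ O → gtr ρ c f e = 1 := by
    intro n
    induction n with
    | zero =>
      intro f h1 h2 h3
      have hfin' : {e : Ω × Fin k | e.1 ∈ O ∧ gtr ρ c f e ≠ 1}.Finite := by
        apply hfin.subset
        rintro e ⟨he, he2⟩
        exact ⟨he, by_contra fun h => he2 (h1 e he h)⟩
      have h4 := (Set.ncard_eq_zero hfin').1 (Nat.le_zero.1 h3)
      refine ⟨f, fun e he => ?_⟩
      by_contra h5
      have : e ∈ {e : Ω × Fin k | e.1 ∈ O ∧ gtr ρ c f e ≠ 1} := ⟨he, h5⟩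
      rw [h4] at this
      exact this
    | succ n ih =>
      intro f h1 h2 h3
      by_cases h4 : ∀ e, e.1 ∈ O → gtr ρ c f e = 1
      · exact ⟨f, h4⟩
      push Not at h4
      obtain ⟨e0, he0, he1⟩ := h4
      have he0B : e0 ∈ B := by_contra fun h => he1 (h1 e0 he0 h)
      set C := Cl R ρ B e0 with hCdef
      obtain ⟨f1, hf1, hf2⟩ := G1 (hinj e0 he0B he0) (h2 e0 he0B he0)
      have hon : ∀ e ∈ C, gtr ρ c (fun w => f w * f1 w) e = 1 := by
        intro e he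
        have h5 := hf2 e he
        have h6 : gtr ρ c (fun w => f w * f1 w) e =
            (f1 (tgt ρ e))⁻¹ * gtr ρ c f e * f1 e.1 := by
          simp only [gtr]
          group
        rw [h6, h5]
        group
      have hoff : ∀ e ∉ C, gtr ρ c (fun w => f w * f1 w) e =
          (f1 e.1)⁻¹ * gtr ρ c f e * f1 e.1 := by
        intro e he
        have h6 : gtr ρ c (fun w => f w * f1 w) e =
            (f1 (tgt ρ e))⁻¹ * gtr ρ c f e * f1 e.1 := by
          simp only [gtr]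
          group
        rw [h6, hf1 e he]
      apply ih (fun w => f w * f1 w)
      · intro e he heB
        rw [hoff e (fun h => heB (Cl_subset he0B h)), h1 e he heB]
        simp
      · intro e heB he
        by_cases heC : e ∈ C
        · refine ⟨fun _ => 1, fun _ _ => rfl, fun e' he' => ?_⟩
          rw [Cl_eq heC] at he'
          rw [hon e' he']
          simp
        · obtain ⟨h, h5, h6⟩ := h2 e heB he
          have hdis : ∀ e' ∈ Cl R ρ B e, e' ∉ C := by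
            intro e' he' he'C
            exact heC (Cl_trans he'C (Cl_symm he'))
          have hNb : ∀ e' ∈ Nb R ρ (Cl R ρ B e), e' ∉ C := fun e' he' h7 =>
            Nb_Cl heB he' (Cl_subset he0B h7)
          refine ⟨fun w => (f1 w)⁻¹ * h w, ?_, ?_⟩
          · intro e' he'
            simp only
            rw [h5 e' he', hf1 e' (hNb e' he')]
          · intro e' he'
            rw [hoff e' (hdis e' he'), h6 e' he']
            simp only
            rw [hf1 e' (hdis e' he')]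
            group
      · have hfin' : {e : Ω × Fin k | e.1 ∈ O ∧ gtr ρ c f e ≠ 1}.Finite := by
          apply hfin.subset
          rintro e ⟨he, he2⟩
          exact ⟨he, by_contra fun h => he2 (h1 e he h)⟩
        have h7 : {e : Ω × Fin k | e.1 ∈ O ∧ gtr ρ c (fun w => f w * f1 w) e ≠ 1} ⊂
            {e : Ω × Fin k | e.1 ∈ O ∧ gtr ρ c f e ≠ 1} := by
          rw [Set.ssubset_iff_of_subset]
          · refine ⟨e0, ⟨he0, he1⟩, ?_⟩
            rintro ⟨-, h8⟩
            exact h8 (hon e0 (Cl_refl e0))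
          · rintro e ⟨he, he2⟩
            refine ⟨he, fun h8 => he2 ?_⟩
            by_cases heC : e ∈ C
            · exact hon e heC
            · rw [hoff e heC, h8]
              simp
        have h8 := Set.ncard_lt_ncard h7 hfin'
        omega
  have hgt1 : gtr ρ c (fun _ => 1) = c := by
    funext e
    simp [gtr]
  obtain ⟨f, hf⟩ := key _ (fun _ => 1) (by rw [hgt1]; exact hBc) (by rw [hgt1]; exact hpc)
    le_rfl
  refine ⟨f, fun e he => ?_⟩
  have h := hf e he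
  simp only [gtr] at h
  have h2 : c e = f (tgt ρ e) * (f (tgt ρ e))⁻¹ * c e * (f e.1 * (f e.1)⁻¹) := by simp
  calc c e = f (tgt ρ e) * ((f (tgt ρ e))⁻¹ * c e * f e.1) * (f e.1)⁻¹ := by group
    _ = f (tgt ρ e) * (f e.1)⁻¹ := by rw [h, mul_one]

/-- consequence: the values at the stabilizer are trivial -/
theorem val_of_coboundary {A : Type} [Group A] {c : Ω × Fin k → A} {O : Set Ω}
    (hO : ∀ g, ∀ w ∈ O, ρ g w ∈ O) {f : Ω → A}
    (hf : ∀ e, e.1 ∈ O → c e = f (tgt ρ e) * (f e.1)⁻¹) {p : Ω} (hp : p ∈ O)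
    (g : FreeGroup (Fin k)) (hg : ρ g p = p) : val ρ c g p = 1 := by
  have h1 : Pth ρ {e | e.1 ∈ O} g p := by
    have key : ∀ l : List (Fin k × Bool), Pth ρ {e | e.1 ∈ O} (FreeGroup.mk l) p := by
      intro l
      induction l with
      | nil => exact Pth.one _
      | cons a l ih =>
        rw [mk_cons]
        refine Pth.step a ih ?_
        have h2 : ρ (FreeGroup.mk l) p ∈ O := hO _ _ hp
        show (edgeOf ρ a (ρ (FreeGroup.mk l) p)).1 ∈ O
        cases ha : a.2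
        · rw [(edge_false ρ ha _).1]
          exact hO _ _ h2
        · rw [(edge_true ρ ha _).1]
          exact h2
    have h := key g.toWord
    rwa [FreeGroup.mk_toWord] at h
  have h2 := h1.gauge (c := fun _ => (1 : A)) (c' := c) (x := f) (fun e he => by
    rw [mul_one]; exact hf e he)
  rw [h2, val_trivial, hg]
  simp

end Pool.Agent.Lib.H8PA
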