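import Pool.Agent.Lib.H8PA.A2

/-!
# H8PA: the two sides generate
-/

namespace Pool.Agent.Lib.H8PA

open Pool.Agent.Lib.Helper67.BA

universe u

variable {k : ℕ} {Ω : Type} {R : Set (FreeGroup (Fin k))}
  {ρ : FreeGroup (Fin k) →* Equiv.Perm Ω} {C : Set (Ω × Fin k)} {p : Ω}

/-- `p`-class -/
def Rch (R : Set (FreeGroup (Fin k))) (ρ : FreeGroup (Fin k) →* Equiv.Perm Ω)
    (C : Set (Ω × Fin k)) (p w : Ω) : Prop := ∃ g, Pth ρ (Nb R ρ C) g p ∧ ρ g p = w

/-- all end points of edges of `C` in the component of `p` off `C` are in the class of `p` -/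
def InjAt (R : Set (FreeGroup (Fin k))) (ρ : FreeGroup (Fin k) →* Equiv.Perm Ω)
    (C : Set (Ω × Fin k)) (p : Ω) : Prop :=
  ∀ e ∈ C, (e.1 ∈ Zc ρ C p → Rch R ρ C p e.1) ∧ (tgt ρ e ∈ Zc ρ C p → Rch R ρ C p (tgt ρ e))

theorem Nb_subset_S2 : Nb R ρ C ⊆ S2 R ρ C p := fun _ he => Or.inr (Or.inl he)

theorem C_subset_S2 : C ⊆ S2 R ρ C p := fun _ he => Or.inl he

theorem edge_ends (a : Fin k × Bool) (w : Ω) :
    (w = (edgeOf ρ a w).1 ∧ ρ (FreeGroup.mk [a]) w = tgt ρ (edgeOf ρ a w)) ∨
    (w = tgt ρ (edgeOf ρ a w) ∧ ρ (FreeGroup.mk [a]) w = (edgeOf ρ a w).1) := by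
  cases ha : a.2
  · right
    exact ⟨(edge_false ρ ha w).2.symm, (edge_false ρ ha w).1.symm⟩
  · left
    exact ⟨(edge_true ρ ha w).1.symm, (edge_true ρ ha w).2.symm⟩

theorem gen {A : Type} [Group A] {c : Ω × Fin k → A} (hC : ∀ e ∈ Nb R ρ C, c e = 1)
    (hinj : InjAt R ρ C p) (N : Subgroup A)
    (h1 : ∀ m, Pth ρ Cᶜ m p → ρ m p = p → val ρ c m p ∈ N)
    (h2 : ∀ l, Pth ρ (S2 R ρ C p) l p → ρ l p = p → val ρ c l p ∈ N)
    (g : FreeGroup (Fin k)) (hg : ρ g p = p) : val ρ c g p ∈ N := by
  have hinj' : ∀ (a : Fin k × Bool) (w : Ω), edgeOf ρ a w ∈ C →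
      (w ∈ Zc ρ C p → Rch R ρ C p w) ∧
      (ρ (FreeGroup.mk [a]) w ∈ Zc ρ C p → Rch R ρ C p (ρ (FreeGroup.mk [a]) w)) := by
    intro a w he
    have h3 := hinj _ he
    rcases edge_ends (ρ := ρ) a w with ⟨e1, e2⟩ | ⟨e1, e2⟩
    · constructor
      · intro h4
        rw [e1] at h4 ⊢
        exact h3.1 h4
      · intro h4
        rw [e2] at h4 ⊢
        exact h3.2 h4
    · constructor
      · intro h4
        rw [e1] at h4 ⊢
        exact h3.2 h4
      · intro h4
        rw [e2] at h4 ⊢
        exact h3.1 h4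
  have hoff : ∀ (a : Fin k × Bool) (w : Ω), edgeOf ρ a w ∉ C →
      (ρ (FreeGroup.mk [a]) w ∈ Zc ρ C p ↔ w ∈ Zc ρ C p) := by
    intro a w he
    have h3 := Zc_edge (ρ := ρ) (p := p) he
    rcases edge_ends (ρ := ρ) a w with ⟨e1, e2⟩ | ⟨e1, e2⟩
    · rw [e2, h3, ← e1]
    · rw [e2, ← h3, ← e1]
  -- value of a class path
  have hcl : ∀ w, Rch R ρ C p w → ∃ t, Pth ρ (Nb R ρ C) t p ∧ ρ t p = w ∧ val ρ c t p = 1 := by
    rintro w ⟨t, ht, ht2⟩
    exact ⟨t, ht, ht2, ht.val_one hC⟩
  -- side 1 paths to a class point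
  have hs1 : ∀ w z, Rch R ρ C p w → Pth ρ Cᶜ z p → ρ z p = w → val ρ c z p ∈ N := by
    intro w z hw hz hz2
    obtain ⟨t, ht, ht2, ht3⟩ := hcl w hw
    have h5 : Pth ρ Cᶜ (t⁻¹ * z) p := by
      apply hz.trans
      rw [hz2, ← ht2]
      exact (ht.mono Nb_subset_compl).inv
    have h6 : ρ (t⁻¹ * z) p = p := by
      rw [map_mul, Equiv.Perm.mul_apply, hz2, ← ht2, map_inv]
      simp
    have h7 := h1 _ h5 h6
    rw [val_mul, hz2, ← ht2, val_inv', ht3, inv_one, one_mul] at h7
    exact h7
  have hs2 : ∀ w y, Rch R ρ C p w → Pth ρ (S2 R ρ C p) y p → ρ y p = w → val ρ c y p ∈ N := by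
    intro w z hw hz hz2
    obtain ⟨t, ht, ht2, ht3⟩ := hcl w hw
    have h5 : Pth ρ (S2 R ρ C p) (t⁻¹ * z) p := by
      apply hz.trans
      rw [hz2, ← ht2]
      exact (ht.mono Nb_subset_S2).inv
    have h6 : ρ (t⁻¹ * z) p = p := by
      rw [map_mul, Equiv.Perm.mul_apply, hz2, ← ht2, map_inv]
      simp
    have h7 := h2 _ h5 h6
    rw [val_mul, hz2, ← ht2, val_inv', ht3, inv_one, one_mul] at h7
    exact h7
  have key : ∀ l : List (Fin k × Bool),
      (ρ (FreeGroup.mk l) p ∈ Zc ρ C p → ∃ z, Pth ρ Cᶜ z p ∧ ρ z p = ρ (FreeGroup.mk l) p ∧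
        (val ρ c z p)⁻¹ * val ρ c (FreeGroup.mk l) p ∈ N) ∧
      (ρ (FreeGroup.mk l) p ∉ Zc ρ C p → ∃ y, Pth ρ (S2 R ρ C p) y p ∧
        ρ y p = ρ (FreeGroup.mk l) p ∧
        (val ρ c y p)⁻¹ * val ρ c (FreeGroup.mk l) p ∈ N) := by
    intro l
    induction l with
    | nil =>
      have e1 : (FreeGroup.mk ([] : List (Fin k × Bool))) = 1 := rfl
      rw [e1]
      constructor
      · intro _
        exact ⟨1, Pth.one p, rfl, by simp [one_mem]⟩
      · intro h
        exfalso
        apply h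
        rw [map_one]
        exact ⟨1, Pth.one p, by simp⟩
    | cons a l ih =>
      rw [mk_cons]
      set g := FreeGroup.mk l with hgdef
      set w := ρ g p with hw
      have hw' : ρ (FreeGroup.mk [a] * g) p = ρ (FreeGroup.mk [a]) w := by
        rw [map_mul, Equiv.Perm.mul_apply]
      rw [hw', val_mul, ← hw]
      set w' := ρ (FreeGroup.mk [a]) w with hw'def
      set va := val ρ c (FreeGroup.mk [a]) w with hva
      by_cases hwZ : w ∈ Zc ρ C p
      · obtain ⟨z, hz, hz2, hz3⟩ := ih.1 hwZ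
        by_cases he : edgeOf ρ a w ∈ C
        · -- crossing
          obtain ⟨i1, i2⟩ := hinj' a w he
          have hRw := i1 hwZ
          have hzN : val ρ c z p ∈ N := hs1 w z hRw hz hz2
          have hgN : val ρ c g p ∈ N := by
            have := N.mul_mem hzN hz3
            rwa [← mul_assoc, mul_inv_cancel, one_mul] at this
          obtain ⟨t, ht, ht2, ht3⟩ := hcl w hRw
          have hy : Pth ρ (S2 R ρ C p) (FreeGroup.mk [a] * t) p :=
            Pth.step a (ht.mono Nb_subset_S2) (by rw [ht2]; exact C_subset_S2 he)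
          have hy2 : ρ (FreeGroup.mk [a] * t) p = w' := by
            rw [map_mul, Equiv.Perm.mul_apply, ht2]
          have hy3 : val ρ c (FreeGroup.mk [a] * t) p = va := by
            rw [val_mul, ht2, ht3, mul_one]
          constructor
          · intro hw'Z
            have hRw' := i2 hw'Z
            obtain ⟨t', ht', ht2', ht3'⟩ := hcl w' hRw'
            refine ⟨t', ht'.mono Nb_subset_compl, ht2', ?_⟩
            rw [ht3', inv_one, one_mul]
            have h8 := hs2 w' _ hRw' hy hy2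
            rw [hy3] at h8
            exact N.mul_mem h8 hgN
          · intro _
            refine ⟨_, hy, hy2, ?_⟩
            rw [hy3, inv_mul_cancel_left]
            exact hgN
        · have h9 := hoff a w he
          constructor
          · intro _
            refine ⟨FreeGroup.mk [a] * z, Pth.step a hz (by rw [hz2]; exact he), ?_, ?_⟩
            · rw [map_mul, Equiv.Perm.mul_apply, hz2]
            · rw [val_mul, hz2, mul_inv_rev, mul_assoc, ← hva, inv_mul_cancel_left]
              exact hz3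
          · intro h
            exact absurd (h9.2 hwZ) h
      · obtain ⟨y, hy, hy2, hy3⟩ := ih.2 hwZ
        by_cases he : edgeOf ρ a w ∈ C
        · obtain ⟨i1, i2⟩ := hinj' a w he
          have hay : Pth ρ (S2 R ρ C p) (FreeGroup.mk [a] * y) p :=
            Pth.step a hy (by rw [hy2]; exact C_subset_S2 he)
          have hay2 : ρ (FreeGroup.mk [a] * y) p = w' := by
            rw [map_mul, Equiv.Perm.mul_apply, hy2]
          have hay3 : val ρ c (FreeGroup.mk [a] * y) p = va * val ρ c y p := by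
            rw [val_mul, hy2]
          constructor
          · intro hw'Z
            have hRw' := i2 hw'Z
            obtain ⟨t', ht', ht2', ht3'⟩ := hcl w' hRw'
            refine ⟨t', ht'.mono Nb_subset_compl, ht2', ?_⟩
            rw [ht3', inv_one, one_mul]
            have h8 := hs2 w' _ hRw' hay hay2
            rw [hay3] at h8
            have h9 := N.mul_mem h8 hy3
            rwa [mul_assoc, mul_inv_cancel_left] at h9
          · intro _
            refine ⟨_, hay, hay2, ?_⟩
            rw [hay3, mul_inv_rev, mul_assoc, inv_mul_cancel_left]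
            exact hy3
        · have h9 := hoff a w he
          have he2 : edgeOf ρ a w ∈ S2 R ρ C p := by
            right; right
            refine ⟨he, ?_⟩
            rcases edge_ends (ρ := ρ) a w with ⟨e1, -⟩ | ⟨e1, -⟩
            · rwa [← e1]
            · intro h
              apply hwZ
              rw [e1]
              exact (Zc_edge he).2 h
          constructor
          · intro h
            exact absurd (h9.1 h) hwZ
          · intro _
            refine ⟨FreeGroup.mk [a] * y, Pth.step a hy (by rw [hy2]; exact he2), ?_, ?_⟩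
            · rw [map_mul, Equiv.Perm.mul_apply, hy2]
            · rw [val_mul, hy2, mul_inv_rev, mul_assoc, ← hva, inv_mul_cancel_left]
              exact hy3
  have h3 := key g.toWord
  rw [FreeGroup.mk_toWord, hg] at h3
  obtain ⟨z, hz, hz2, hz3⟩ := h3.1 ⟨1, Pth.one p, by simp⟩
  have h4 := N.mul_mem (h1 z hz hz2) hz3
  rwa [← mul_assoc, mul_inv_cancel, one_mul] at h4

end Pool.Agent.Lib.H8PA
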