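import Pool.Agent.Lib.Helper67.BA.NoFree
import Pool.Agent.Lib.H8PA.Defs

/-!
# H8PA endgame, V1: words with virtually abelian section groups
-/

namespace Pool.Agent.Lib.H8PA

open Pool.Agent.Lib.Helper67.BA TA

universe u

variable {X : Type} {E : Type u} [Group E]

/-- the stabilizer of all words of length `n` -/
def levelStab (j : E →* TA X) (n : ℕ) : Subgroup E := ((rootY n).comp j).ker

theorem levelStab_fi [Finite X] (j : E →* TA X) (n : ℕ) : (levelStab j n).FiniteIndex := by
  have : Finite ((rootY n).comp j).range := inferInstance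
  exact inferInstanceAs (MonoidHom.ker _).FiniteIndex

theorem levelStab_fix {j : E →* TA X} {n : ℕ} {a : E} (ha : a ∈ levelStab j n) {v : List X}
    (hv : v.length = n) : j a v = v := by
  have h1 : rootY n (j a) = 1 := ha
  exact congrArg (fun p : Equiv.Perm (List.Vector X n) => (p ⟨v, hv⟩).1) h1

theorem VA.down [Finite X] {j : E →* TA X} {v : List X} (h : VA j v) (w : List X) :
    VA j (v ++ w) := by
  obtain ⟨K, hK, h1, h2⟩ := h
  have := levelStab_fi j (v ++ w).length
  refine ⟨K ⊓ levelStab j (v ++ w).length, inferInstance, fun a ha => ?_, fun a ha b hb => ?_⟩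
  · exact levelStab_fix ha.2 rfl
  · rw [sec_append, sec_append, h2 a ha.1 b hb.1]

theorem VA.up [Finite X] [Nonempty X] {j : E →* TA X} {v : List X}
    (h : ∀ x : X, VA j (v ++ [x])) : VA j v := by
  choose K hK h1 h2 using h
  have h3 : (⨅ x, K x).FiniteIndex := Subgroup.finiteIndex_iInf hK
  have h4 := levelStab_fi j v.length
  have h5 := levelStab_fi j (v.length + 1)
  refine ⟨(⨅ x, K x) ⊓ levelStab j v.length ⊓ levelStab j (v.length + 1), inferInstance,
    fun a ha => levelStab_fix ha.1.2 rfl, fun a ha b hb => ?_⟩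
  have key : ∀ c ∈ levelStab j v.length ⊓ levelStab j (v.length + 1), ∀ x : X,
      TA.sec (j c) v [x] = [x] := by
    intro c hc x
    have h6 : j c (v ++ [x]) = v ++ [x] := levelStab_fix hc.2 (by simp)
    rw [TA.append, levelStab_fix hc.1 rfl] at h6
    exact List.append_cancel_left h6
  have hab : a * b ∈ levelStab j v.length ⊓ levelStab j (v.length + 1) :=
    mul_mem ⟨ha.1.2, ha.2⟩ ⟨hb.1.2, hb.2⟩
  have hba : b * a ∈ levelStab j v.length ⊓ levelStab j (v.length + 1) :=
    mul_mem ⟨hb.1.2, hb.2⟩ ⟨ha.1.2, ha.2⟩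
  apply TA.eq_of _ _ 1
  intro u hu
  obtain ⟨x, rfl⟩ := List.length_eq_one_iff.1 hu
  refine ⟨by rw [key _ hab, key _ hba], ?_⟩
  rw [← sec_append, ← sec_append]
  exact h2 x a ((Subgroup.mem_iInf.1 ha.1.1) x) b ((Subgroup.mem_iInf.1 hb.1.1) x)

/-- a ray of words which are not virtually abelian -/
theorem exists_ray_notVA [Finite X] [Nonempty X] {j : E →* TA X} {v : List X} (h : ¬ VA j v) :
    ∃ ξ : ℕ → X, pref ξ v.length = v ∧ ∀ n, ¬ VA j (pref ξ n) := by
  obtain ⟨ζ, hζ⟩ := exists_ray (fun u => ¬ VA j (v ++ u)) (by rwa [List.append_nil]) (by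
    intro u hu
    by_contra hno
    push Not at hno
    apply hu
    apply VA.up
    intro x
    have := hno x
    rwa [List.append_assoc])
  let ξ : ℕ → X := fun i => if h : i < v.length then v[i] else ζ (i - v.length)
  have h1 : ∀ k, pref ξ (v.length + k) = v ++ pref ζ k := by
    intro k
    apply List.ext_getElem
    · simp
    · intro i h2 h3
      rw [length_pref] at h2
      rw [pref_get _ _ _ h2, List.getElem_append]
      by_cases h4 : i < v.length
      · simp [ξ, h4]
      · simp only [ξ, h4, dif_neg, not_false_eq_true]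
        rw [pref_get _ _ _ (by omega)]
  refine ⟨ξ, by simpa using h1 0, fun n hn => ?_⟩
  apply hζ n
  rw [← h1, Nat.add_comm, pref_add]
  exact hn.down _

/-- if every ray has a virtually abelian prefix, the image is virtually abelian -/
theorem VA_nil [Finite X] [Nonempty X] {j : E →* TA X} (h : ∀ ξ, ∃ n, VA j (pref ξ n)) :
    VA j [] := by
  by_contra hcon
  obtain ⟨ξ, -, hξ⟩ := exists_ray_notVA hcon
  obtain ⟨n, hn⟩ := h ξ
  exact hξ n hn

end Pool.Agent.Lib.H8PA
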