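import Pool.Agent.Lib.H8PA.Tr
import Pool.Agent.Lib.H8PA.V1

/-!
# H8PA: the lemmas A1, A2 for the section cocycle, virtually abelian section groups
-/

namespace Pool.Agent.Lib.H8PA

open Pool.Agent.Lib.Helper67.BA

universe u

variable {X : Type} {k : ℕ}

theorem rf [Nonempty X] {u : TA X} (hu : u ≠ 1) : ∃ m₀, ∀ m, m₀ ≤ m → rootY m u ≠ 1 := by
  have h1 : ∃ w, u w ≠ w := by
    by_contra hcon
    push Not at hcon
    exact hu (TA.ext hcon)
  obtain ⟨w, hw⟩ := h1
  obtain ⟨x⟩ := ‹Nonempty X›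
  refine ⟨w.length, fun m hm h2 => hw ?_⟩
  have hl : (w ++ List.replicate (m - w.length) x).length = m := by simp; omega
  have h3 : u (w ++ List.replicate (m - w.length) x) = w ++ List.replicate (m - w.length) x :=
    congrArg (fun p : Equiv.Perm (List.Vector X m) => (p ⟨_, hl⟩).1) h2
  rw [TA.append] at h3
  exact List.append_inj_left h3 (TA.length u w)

theorem orbit_fin [Finite X] (q : FreeGroup (Fin k) →* TA X) (p : List X) :
    (Set.range fun g => rw_ q g p).Finite := by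
  apply (List.finite_length_eq X p.length).subset
  rintro _ ⟨g, rfl⟩
  exact TA.length _ _

section

variable {E : Type u} [Group E] {R : Set (FreeGroup (Fin k))} {φ : FreeGroup (Fin k) →* E}

theorem rel_one (hR : Subgroup.normalClosure R = φ.ker) (j : E →* TA X) :
    ∀ r ∈ R, (j.comp φ) r = 1 := by
  intro r hr
  have h1 : r ∈ φ.ker := hR ▸ Subgroup.subset_normalClosure hr
  rw [MonoidHom.comp_apply, MonoidHom.mem_ker.1 h1, map_one]

/-- **A1 for sections.** -/
theorem A1_TA [Finite X] [Nonempty X]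
    (hφ : Function.Surjective φ) (hR : Subgroup.normalClosure R = φ.ker) (j : E →* TA X)
    (C : Set (List X × Fin k))
    (hC : ∀ e ∈ Nb R (rw_ (j.comp φ)) C, cs (j.comp φ) e = 1) (q1 q2 : List X)
    (gK gZ : FreeGroup (Fin k))
    (hK : Pth (rw_ (j.comp φ)) (C ∪ Nb R (rw_ (j.comp φ)) C) gK q1)
    (hK2 : rw_ (j.comp φ) gK q1 = q2)
    (hZ : Pth (rw_ (j.comp φ)) Cᶜ gZ q2) (hZ2 : rw_ (j.comp φ) gZ q2 = q1)
    (hn : ¬ Rch R (rw_ (j.comp φ)) C q1 q2) :
    Large E ∨ ∀ g h, j (φ g) q1 = q1 → j (φ h) q1 = q1 →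
      TA.sec (j (φ g)) q1 * TA.sec (j (φ h)) q1 = TA.sec (j (φ h)) q1 * TA.sec (j (φ g)) q1 := by
  by_contra hcon
  push Not at hcon
  obtain ⟨hL, g, h, hg, hh, hne⟩ := hcon
  apply hL
  have h1 : (TA.sec (j (φ g)) q1 * TA.sec (j (φ h)) q1) *
      (TA.sec (j (φ h)) q1 * TA.sec (j (φ g)) q1)⁻¹ ≠ 1 := by
    rw [Ne, mul_inv_eq_one]
    exact hne
  obtain ⟨m₀, hm₀⟩ := rf h1
  have h2 := hm₀ m₀ le_rfl
  have hq := rel_one hR j
  have : Finite (List.Vector X m₀) := inferInstance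
  refine A1_fin (A := Equiv.Perm (List.Vector X m₀)) hφ hR (rw_ (j.comp φ)) (rw_rel hq)
    (fun e => rootY m₀ (cs (j.comp φ) e)) ?_ C ?_ q1 q2 (orbit_fin _ _) gK gZ hK hK2 hZ hZ2 hn
    g h hg hh ?_
  · intro r hr w
    rw [val_map, Coc_cs hq r hr w, map_one]
  · intro e he
    rw [hC e he, map_one]
  · rw [val_map, val_map, val_cs, val_cs, ← map_mul, ← map_mul]
    intro h3
    apply h2
    rw [map_mul, map_inv, mul_inv_eq_one]
    exact h3

/-- **A2 for sections.** -/
theorem A2_TA [Finite X] [Nonempty X]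
    (hφ : Function.Surjective φ) (hR : Subgroup.normalClosure R = φ.ker) (j : E →* TA X)
    (C : Set (List X × Fin k))
    (hC : ∀ e ∈ Nb R (rw_ (j.comp φ)) C, cs (j.comp φ) e = 1) (p : List X) (hL : ¬ Large E) :
    (∀ m, Pth (rw_ (j.comp φ)) Cᶜ m p → rw_ (j.comp φ) m p = p → TA.sec (j (φ m)) p = 1) ∨
    (∀ l, Pth (rw_ (j.comp φ)) (S2 R (rw_ (j.comp φ)) C p) l p → rw_ (j.comp φ) l p = p →
      TA.sec (j (φ l)) p = 1) ∨
    ∃ a b : TA X, a * a = 1 ∧ b * b = 1 ∧
      (∀ m, Pth (rw_ (j.comp φ)) Cᶜ m p → rw_ (j.comp φ) m p = p →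
        TA.sec (j (φ m)) p = 1 ∨ TA.sec (j (φ m)) p = b) ∧
      (∀ l, Pth (rw_ (j.comp φ)) (S2 R (rw_ (j.comp φ)) C p) l p → rw_ (j.comp φ) l p = p →
        TA.sec (j (φ l)) p = 1 ∨ TA.sec (j (φ l)) p = a) := by
  by_contra hcon
  push Not at hcon
  obtain ⟨⟨m, hm, hm', hm1⟩, ⟨l, hl, hl', hl1⟩, h3⟩ := hcon
  set b := TA.sec (j (φ m)) p with hb
  set a := TA.sec (j (φ l)) p with ha
  have hq := rel_one hR j
  -- the key consequence of A2
  have key : ∀ m₁ l₁ m₂ l₂ : FreeGroup (Fin k),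
      Pth (rw_ (j.comp φ)) Cᶜ m₁ p → rw_ (j.comp φ) m₁ p = p →
      Pth (rw_ (j.comp φ)) (S2 R (rw_ (j.comp φ)) C p) l₁ p → rw_ (j.comp φ) l₁ p = p →
      Pth (rw_ (j.comp φ)) Cᶜ m₂ p → rw_ (j.comp φ) m₂ p = p →
      Pth (rw_ (j.comp φ)) (S2 R (rw_ (j.comp φ)) C p) l₂ p → rw_ (j.comp φ) l₂ p = p →
      TA.sec (j (φ m₁)) p ≠ 1 → TA.sec (j (φ l₁)) p ≠ 1 → TA.sec (j (φ m₂)) p ≠ 1 →
      TA.sec (j (φ l₂)) p ≠ 1 →
      (TA.sec (j (φ m₁)) p, TA.sec (j (φ l₁)) p) = (TA.sec (j (φ m₂)) p, TA.sec (j (φ l₂)) p) := by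
    intro m₁ l₁ m₂ l₂ a1 a2 a3 a4 a5 a6 a7 a8 n1 n2 n3 n4
    by_contra hne
    apply hL
    obtain ⟨k1, hk1⟩ := rf n1
    obtain ⟨k2, hk2⟩ := rf n2
    obtain ⟨k3, hk3⟩ := rf n3
    obtain ⟨k4, hk4⟩ := rf n4
    have h5 : ∃ k5, ∀ K, k5 ≤ K → (rootY K (TA.sec (j (φ m₁)) p), rootY K (TA.sec (j (φ l₁)) p)) ≠
        (rootY K (TA.sec (j (φ m₂)) p), rootY K (TA.sec (j (φ l₂)) p)) := by
      by_cases h6 : TA.sec (j (φ m₁)) p = TA.sec (j (φ m₂)) p
      · have h7 : TA.sec (j (φ l₁)) p * (TA.sec (j (φ l₂)) p)⁻¹ ≠ 1 := by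
          rw [Ne, mul_inv_eq_one]
          intro h8
          exact hne (Prod.ext h6 h8)
        obtain ⟨k5, hk5⟩ := rf h7
        refine ⟨k5, fun K hK h8 => hk5 K hK ?_⟩
        rw [map_mul, map_inv, mul_inv_eq_one]
        exact congrArg Prod.snd h8
      · have h7 : TA.sec (j (φ m₁)) p * (TA.sec (j (φ m₂)) p)⁻¹ ≠ 1 := by
          rw [Ne, mul_inv_eq_one]
          exact h6
        obtain ⟨k5, hk5⟩ := rf h7
        refine ⟨k5, fun K hK h8 => hk5 K hK ?_⟩
        rw [map_mul, map_inv, mul_inv_eq_one]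
        exact congrArg Prod.fst h8
    obtain ⟨k5, hk5⟩ := h5
    obtain ⟨K, hK1, hK2, hK3, hK4, hK5⟩ : ∃ K, k1 ≤ K ∧ k2 ≤ K ∧ k3 ≤ K ∧ k4 ≤ K ∧ k5 ≤ K :=
      ⟨k1 + k2 + k3 + k4 + k5, by omega, by omega, by omega, by omega, by omega⟩
    have : Finite (List.Vector X K) := inferInstance
    refine A2_fin (A := Equiv.Perm (List.Vector X K)) hφ hR (rw_rel hq)
      (fun e => rootY K (cs (j.comp φ) e)) ?_ ?_ (orbit_fin _ _) m₁ m₂ l₁ l₂ a1 a2 a5 a6 a3 a4
      a7 a8 ?_ ?_ ?_ ?_ ?_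
    · intro r hr w
      rw [val_map, Coc_cs hq r hr w, map_one]
    · intro e he
      rw [hC e he, map_one]
    · rw [val_map, val_cs]; exact hk1 K hK1
    · rw [val_map, val_cs]; exact hk3 K hK3
    · rw [val_map, val_cs]; exact hk2 K hK2
    · rw [val_map, val_cs]; exact hk4 K hK4
    · rw [val_map, val_map, val_map, val_map, val_cs, val_cs, val_cs, val_cs]
      exact hk5 K hK5
  have hloop : ∀ (S : Set (List X × Fin k)) (m : FreeGroup (Fin k)),
      Pth (rw_ (j.comp φ)) S m p → rw_ (j.comp φ) m p = p →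
      Pth (rw_ (j.comp φ)) S (m * m) p ∧ rw_ (j.comp φ) (m * m) p = p ∧
      TA.sec (j (φ (m * m))) p = TA.sec (j (φ m)) p * TA.sec (j (φ m)) p := by
    intro S m h1 h2
    refine ⟨h1.trans (by rw [h2]; exact h1), by rw [map_mul, Equiv.Perm.mul_apply, h2, h2], ?_⟩
    rw [map_mul, map_mul, TA.sec_mul]
    have h4 : (j (φ m)) p = p := h2
    rw [h4]
  have hbb : ∀ m', Pth (rw_ (j.comp φ)) Cᶜ m' p → rw_ (j.comp φ) m' p = p →
        TA.sec (j (φ m')) p = 1 ∨ TA.sec (j (φ m')) p = b := by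
    intro m' h4 h5
    by_cases h6 : TA.sec (j (φ m')) p = 1
    · exact Or.inl h6
    · right
      exact congrArg Prod.fst (key m' l m l h4 h5 hl hl' hm hm' hl hl' h6 hl1 hm1 hl1)
  have haa : ∀ l', Pth (rw_ (j.comp φ)) (S2 R (rw_ (j.comp φ)) C p) l' p →
      rw_ (j.comp φ) l' p = p → TA.sec (j (φ l')) p = 1 ∨ TA.sec (j (φ l')) p = a := by
    intro l' h4 h5
    by_cases h6 : TA.sec (j (φ l')) p = 1
    · exact Or.inl h6
    · right
      exact congrArg Prod.snd (key m l' m l hm hm' h4 h5 hm hm' hl hl' hm1 h6 hm1 hl1)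
  have ha2 : a * a = 1 := by
    obtain ⟨h4, h5, h6⟩ := hloop _ l hl hl'
    rcases haa _ h4 h5 with h7 | h7
    · rw [← h6, h7]
    · rw [h6] at h7
      exact absurd (mul_eq_left.1 h7) hl1
  have hb2 : b * b = 1 := by
    obtain ⟨h4, h5, h6⟩ := hloop _ m hm hm'
    rcases hbb _ h4 h5 with h7 | h7
    · rw [← h6, h7]
    · rw [h6] at h7
      exact absurd (mul_eq_left.1 h7) hm1
  obtain ⟨l'', h8, h9, h10, h11⟩ := h3 a b ha2 hb2 hbb
  rcases haa l'' h8 h9 with h12 | h12
  · exact h10 h12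
  · exact h11 h12

end

section VA

variable {E : Type u} [Group E]

theorem VA_of_comm [Finite X] {j : E →* TA X} {p : List X}
    (h : ∀ a b : E, j a p = p → j b p = p →
      TA.sec (j a) p * TA.sec (j b) p = TA.sec (j b) p * TA.sec (j a) p) : VA j p := by
  refine ⟨levelStab j p.length, levelStab_fi j _, fun g hg => levelStab_fix hg rfl, ?_⟩
  intro a ha b hb
  have h1 := levelStab_fix ha (v := p) rfl
  have h2 := levelStab_fix hb (v := p) rfl
  rw [map_mul, map_mul, TA.sec_mul, TA.sec_mul, h1, h2]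
  exact h a b h1 h2

/-- elements of an infinite dihedral group -/
theorem dihedral_aux {G : Type} [Group G] {a b : G} (ha : a * a = 1) (hb : b * b = 1)
    {x : G} (hx : x ∈ Subgroup.closure {a, b}) :
    x ∈ Subgroup.zpowers (a * b) ∨ a * x ∈ Subgroup.zpowers (a * b) := by
  have hai : a⁻¹ = a := inv_eq_of_mul_eq_one_left ha
  have hbi : b⁻¹ = b := inv_eq_of_mul_eq_one_left hb
  set T := Subgroup.zpowers (a * b) with hT
  have hab : a * b ∈ T := Subgroup.mem_zpowers _
  have hba : b * a ∈ T := by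
    have h1 : b * a = (a * b)⁻¹ := by rw [mul_inv_rev, hai, hbi]
    rw [h1]
    exact T.inv_mem hab
  -- conjugation by `a` inverts
  have hconj : ∀ t ∈ T, a * t * a ∈ T := by
    intro t ht
    obtain ⟨n, rfl⟩ := Subgroup.mem_zpowers_iff.1 ht
    have h1 : a * (a * b) ^ n * a = (b * a) ^ n := by
      have h2 : b * a = a * (a * b) * a⁻¹ := by
        rw [← mul_assoc, ha, one_mul, hai]
      rw [h2, conj_zpow, hai]
    rw [h1]
    exact T.zpow_mem hba n
  have hconj' : ∀ t, a * t * a ∈ T → t ∈ T := by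
    intro t ht
    have h1 := hconj _ ht
    have h2 : a * (a * t * a) * a = t := by
      calc a * (a * t * a) * a = (a * a) * t * (a * a) := by group
        _ = t := by rw [ha]; simp
    rwa [h2] at h1
  refine Subgroup.closure_induction (p := fun x _ => x ∈ T ∨ a * x ∈ T) ?_ ?_ ?_ ?_ hx
  · intro x hx
    rcases hx with rfl | rfl
    · right; rw [ha]; exact T.one_mem
    · right; exact hab
  · left; exact T.one_mem
  · intro x y _ _ hx hy
    rcases hx with hx | hx <;> rcases hy with hy | hy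
    · left; exact T.mul_mem hx hy
    · right
      have h1 : a * (x * y) = (a * x * a) * (a * y) := by
        calc a * (x * y) = a * x * 1 * y := by group
          _ = a * x * (a * a) * y := by rw [ha]
          _ = _ := by group
      rw [h1]
      exact T.mul_mem (hconj x hx) hy
    · right
      rw [← mul_assoc]
      exact T.mul_mem hx hy
    · left
      have h1 : x * y = (a * (a * x) * a) * (a * y) := by
        calc x * y = 1 * x * 1 * y := by group
          _ = (a * a) * x * (a * a) * y := by rw [ha]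
          _ = _ := by group
      rw [h1]
      exact T.mul_mem (hconj _ hx) hy
  · intro x _ hx
    rcases hx with hx | hx
    · left; exact T.inv_mem hx
    · right
      apply hconj'
      have h1 : a * (a * x⁻¹) * a = (a * x)⁻¹ := by
        rw [mul_inv_rev, hai, ← mul_assoc, ha, one_mul]
      rw [h1]
      exact T.inv_mem hx

theorem VA_of_dihedral [Finite X] {j : E →* TA X} {p : List X} {a b : TA X}
    (ha : a * a = 1) (hb : b * b = 1)
    (h : ∀ g : E, j g p = p → TA.sec (j g) p ∈ Subgroup.closure {a, b}) : VA j p := by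
  classical
  have hfi := levelStab_fi j p.length
  have hfix : ∀ g : levelStab j p.length, j g.1 p = p := fun g => levelStab_fix g.2 rfl
  let f : levelStab j p.length →* TA X :=
    { toFun := fun g => TA.sec (j g.1) p
      map_one' := by
        show TA.sec (j 1) p = 1
        rw [map_one, TA.sec_one]
      map_mul' := by
        intro x y
        show TA.sec (j (x.1 * y.1)) p = _
        rw [map_mul, TA.sec_mul, hfix y] }
  let N : Subgroup (levelStab j p.length) := (Subgroup.zpowers (a * b)).comap f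
  have hN : N.FiniteIndex := by
    have hf : Finite (levelStab j p.length ⧸ N) := by
      let F : (levelStab j p.length ⧸ N) → Bool := fun c => decide (c = QuotientGroup.mk 1)
      apply Finite.of_injective F
      rintro ⟨x⟩ ⟨y⟩ hxy
      have h1 : ∀ z : levelStab j p.length,
          ((QuotientGroup.mk z : levelStab j p.length ⧸ N) = QuotientGroup.mk 1) ↔ z ∈ N := by
        intro z
        rw [eq_comm, QuotientGroup.eq, inv_one, one_mul]
      have h2 : (x ∈ N ↔ y ∈ N) := by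
        have h3 : (decide ((QuotientGroup.mk x : levelStab j p.length ⧸ N) =
            QuotientGroup.mk 1)) = decide ((QuotientGroup.mk y : levelStab j p.length ⧸ N) =
            QuotientGroup.mk 1) := hxy
        rw [decide_eq_decide] at h3
        rw [← h1 x, ← h1 y]
        exact h3
      show (QuotientGroup.mk x : levelStab j p.length ⧸ N) = QuotientGroup.mk y
      rw [QuotientGroup.eq]
      by_cases hx : x ∈ N
      · exact N.mul_mem (N.inv_mem hx) (h2.1 hx)
      · have hy : y ∉ N := fun h => hx (h2.2 h)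
        have h4 := dihedral_aux ha hb (h x.1 (hfix x))
        have h5 := dihedral_aux ha hb (h y.1 (hfix y))
        have h6 : a * f x ∈ Subgroup.zpowers (a * b) := h4.resolve_left hx
        have h7 : a * f y ∈ Subgroup.zpowers (a * b) := h5.resolve_left hy
        show f (x⁻¹ * y) ∈ Subgroup.zpowers (a * b)
        have h8 : f (x⁻¹ * y) = (a * f x)⁻¹ * (a * f y) := by
          rw [map_mul, map_inv]
          group
        rw [h8]
        exact Subgroup.mul_mem _ (Subgroup.inv_mem _ h6) h7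
    exact Subgroup.finiteIndex_of_finite_quotient
  refine ⟨N.map (levelStab j p.length).subtype, ?_, ?_, ?_⟩
  · constructor
    rw [Subgroup.index_map_subtype]
    exact mul_ne_zero hN.index_ne_zero hfi.index_ne_zero
  · rintro _ ⟨x, -, rfl⟩
    exact hfix x
  · rintro _ ⟨x, hx, rfl⟩ _ ⟨y, hy, rfl⟩
    have h1 : f (x * y) = f (y * x) := by
      rw [map_mul, map_mul]
      obtain ⟨m, hm⟩ := Subgroup.mem_zpowers_iff.1 (show f x ∈ Subgroup.zpowers (a * b) from hx)
      obtain ⟨n, hn⟩ := Subgroup.mem_zpowers_iff.1 (show f y ∈ Subgroup.zpowers (a * b) from hy)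
      rw [← hm, ← hn]
      exact (Commute.refl _).zpow_zpow m n
    exact h1

theorem VA_conj {j : E →* TA X} {p : List X} (h : VA j p) (e : E) : VA j (j e p) := by
  obtain ⟨K, hK, hfix, hcomm⟩ := h
  have hsec : ∀ g : E, g ∈ K → TA.sec (j (e * g * e⁻¹)) (j e p) =
      TA.sec (j e) p * TA.sec (j g) p * (TA.sec (j e) p)⁻¹ := by
    intro g hg
    rw [map_mul, map_mul, TA.sec_mul, TA.sec_mul, map_inv, TA.inv_apply_self, hfix g hg,
      TA.sec_inv, TA.inv_apply_self]
  refine ⟨K.map (MulAut.conj e).toMonoidHom, ?_, ?_, ?_⟩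
  · constructor
    intro h0
    have h1 := Subgroup.index_map_dvd K (f := (MulAut.conj e).toMonoidHom)
      (MulAut.conj e).surjective
    rw [h0, zero_dvd_iff] at h1
    exact hK.index_ne_zero h1
  · rintro _ ⟨g, hg, rfl⟩
    show j (e * g * e⁻¹) (j e p) = j e p
    rw [map_mul, map_mul, TA.mul_apply, TA.mul_apply, map_inv, TA.inv_apply_self, hfix g hg]
  · rintro _ ⟨a, ha, rfl⟩ _ ⟨b, hb, rfl⟩
    have e1 : (MulAut.conj e).toMonoidHom a * (MulAut.conj e).toMonoidHom b =
        e * (a * b) * e⁻¹ := by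
      show e * a * e⁻¹ * (e * b * e⁻¹) = _
      group
    have e2 : (MulAut.conj e).toMonoidHom b * (MulAut.conj e).toMonoidHom a =
        e * (b * a) * e⁻¹ := by
      show e * b * e⁻¹ * (e * a * e⁻¹) = _
      group
    rw [e1, e2, hsec _ (K.mul_mem ha hb), hsec _ (K.mul_mem hb ha), hcomm a ha b hb]

end VA

end Pool.Agent.Lib.H8PA
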