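import Pool.Agent.Lib.H8PA.Tr

/-!
# H8PA, T1: bad edges lie over bad edges
-/

namespace Pool.Agent.Lib.H8PA

open Pool.Agent.Lib.Helper67.BA

variable {X : Type} {k : ℕ}

theorem Bw_take {q : FreeGroup (Fin k) →* TA X} {w : List X} {i : Fin k} (n : ℕ)
    (h : (w, i) ∈ Bw q) : (w.take n, i) ∈ Bw q := by
  intro h1
  apply h
  show TA.sec (q (FreeGroup.of i)) w = 1
  have h2 : TA.sec (q (FreeGroup.of i)) (w.take n) = 1 := h1
  rw [← List.take_append_drop n w, TA.sec_append, h2, TA.sec_one]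

/-- all edges on a path on words have the length of its starting point -/
theorem Ed_length {q : FreeGroup (Fin k) →* TA X} (l : List (Fin k × Bool)) (w : List X)
    (e : List X × Fin k) (he : e ∈ Ed (rw_ q) l w) : e.1.length = w.length := by
  obtain ⟨g, -, hg⟩ := Ed_src (S := Set.univ) l w (Set.subset_univ _) e he
  rw [← hg]
  exact TA.length _ _

/-- T1. -/
theorem T1 (R : Set (FreeGroup (Fin k))) (q : FreeGroup (Fin k) →* TA X)
    (v : List X) (x : X) (i : Fin k) (h : Bad R q (v ++ [x], i)) : Bad R q (v, i) := by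
  classical
  obtain ⟨hB, hnot⟩ := h
  have hBv : (v, i) ∈ Bw q := by
    have := Bw_take v.length hB
    rwa [List.take_left] at this
  refine ⟨hBv, fun hpc => hnot ?_⟩
  obtain ⟨h0, h1, h2⟩ := hpc
  set C := Cl R (rw_ q) (Bw q) (v, i) with hCdef
  set C' := Cl R (rw_ q) (Bw q) (v ++ [x], i) with hC'def
  set n := v.length with hn
  let pr : List X × Fin k → List X × Fin k := fun e => (e.1.take n, e.2)
  have hEd : ∀ l w, Ed (rw_ q) l (w.take n) = pr '' Ed (rw_ q) l w := fun l w =>
    Ed_map (ρ := rw_ q) (ρ' := rw_ q) (fun w => w.take n) (fun g w => take_equi q n g w) l w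
  have hCC : ∀ e ∈ C', e.1.length = n + 1 ∧ pr e ∈ C := by
    intro e he
    have he' : Relation.ReflTransGen (Lk R (rw_ q) (Bw q)) (v ++ [x], i) e := he
    induction he' with
    | refl =>
      refine ⟨by simp [hn], ?_⟩
      show ((v ++ [x]).take n, i) ∈ C
      rw [List.take_left]
      exact Cl_refl _
    | @tail e1 e2 h3 h4 ih =>
      obtain ⟨i1, i2⟩ := ih h3
      obtain ⟨h5, h6, r, hr, w, h7, h8⟩ := h4
      have h9 := Ed_length _ _ _ h7
      have h10 := Ed_length _ _ _ h8
      refine ⟨by omega, ?_⟩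
      apply Cl_trans i2
      apply Relation.ReflTransGen.single
      refine ⟨Bw_take n h5, Bw_take n h6, r, hr, w.take n, ?_, ?_⟩
      · rw [hEd]; exact ⟨e1, h7, rfl⟩
      · rw [hEd]; exact ⟨e2, h8, rfl⟩
  let h' : List X → TA X := fun w => TA.sec (h0 (w.take n)) ((h0 (w.take n))⁻¹ (w.drop n))
  have htgt : ∀ e : List X × Fin k, n ≤ e.1.length →
      (tgt (rw_ q) e).take n = tgt (rw_ q) (pr e) ∧
      (tgt (rw_ q) e).drop n = cs q (pr e) (e.1.drop n) := by
    intro e he
    have h3 : tgt (rw_ q) e = tgt (rw_ q) (pr e) ++ cs q (pr e) (e.1.drop n) := by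
      show q (FreeGroup.of e.2) e.1 = q (FreeGroup.of e.2) (e.1.take n) ++
        TA.sec (q (FreeGroup.of e.2)) (e.1.take n) (e.1.drop n)
      rw [← TA.append, List.take_append_drop]
    have h4 : (tgt (rw_ q) (pr e)).length = n := by
      show (q (FreeGroup.of e.2) (e.1.take n)).length = n
      rw [TA.length, List.length_take]; omega
    rw [h3]
    constructor
    · rw [List.take_append_of_le_length (by omega), List.take_of_length_le (by omega)]
    · rw [List.drop_append_of_le_length (by omega), List.drop_of_length_le (by omega),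
        List.nil_append]
  have hcs : ∀ e : List X × Fin k, cs q e = TA.sec (cs q (pr e)) (e.1.drop n) := by
    intro e
    show TA.sec (q (FreeGroup.of e.2)) e.1 =
      TA.sec (TA.sec (q (FreeGroup.of e.2)) (e.1.take n)) (e.1.drop n)
    rw [← TA.sec_append, List.take_append_drop]
  have claimA : ∀ e : List X × Fin k, e.1.length = n + 1 → pr e ∈ C →
      cs q e = h' (tgt (rw_ q) e) * (h' e.1)⁻¹ := by
    intro e he heC
    obtain ⟨t1, t2⟩ := htgt e (by omega)
    have h3 := h2 _ heC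
    show cs q e = TA.sec (h0 ((tgt (rw_ q) e).take n))
      ((h0 ((tgt (rw_ q) e).take n))⁻¹ ((tgt (rw_ q) e).drop n)) *
      (TA.sec (h0 (e.1.take n)) ((h0 (e.1.take n))⁻¹ (e.1.drop n)))⁻¹
    rw [hcs e, t1, t2, h3, TA.sec_mul, TA.sec_inv, TA.mul_apply, TA.inv_apply_self]
  have claimB : ∀ e : List X × Fin k, e.1.length = n + 1 → pr e ∈ Nb R (rw_ q) C →
      h' (tgt (rw_ q) e) = h' e.1 := by
    intro e he heC
    obtain ⟨t1, t2⟩ := htgt e (by omega)
    have h3 := h1 _ heC
    have h4 : cs q (pr e) = 1 := not_not.1 (Nb_Cl hBv heC)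
    show TA.sec (h0 ((tgt (rw_ q) e).take n))
      ((h0 ((tgt (rw_ q) e).take n))⁻¹ ((tgt (rw_ q) e).drop n)) =
      TA.sec (h0 (e.1.take n)) ((h0 (e.1.take n))⁻¹ (e.1.drop n))
    rw [t1, t2, h3, h4, TA.one_apply]
  refine ⟨h', ?_, ?_⟩
  · intro e he
    have heB : cs q e = 1 := not_not.1 (Nb_Cl hB he)
    obtain ⟨h3, r, hr, w, h4, e', h5, h6⟩ := he
    obtain ⟨h7, h8⟩ := hCC e' h6
    have h9 := Ed_length _ _ _ h4
    have h10 := Ed_length _ _ _ h5
    have hlen : e.1.length = n + 1 := by omega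
    by_cases heC : pr e ∈ C
    · have h11 := claimA e hlen heC
      rw [heB] at h11
      exact (mul_inv_eq_one.1 h11.symm)
    · apply claimB e hlen
      refine ⟨heC, r, hr, w.take n, ?_, pr e', ?_, h8⟩
      · rw [hEd]; exact ⟨e, h4, rfl⟩
      · rw [hEd]; exact ⟨e', h5, rfl⟩
  · intro e he
    obtain ⟨h3, h4⟩ := hCC e he
    exact claimA e h3 h4

end Pool.Agent.Lib.H8PA
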