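import Pool.Agent.Lib.H8PA.T1
import Pool.Agent.Lib.Helper67.BA.NoFree

/-!
# H8PA, T2: compactness
-/

namespace Pool.Agent.Lib.H8PA

open Pool.Agent.Lib.Helper67.BA

variable {X : Type} {k : ℕ}

/-- T2. If there is a bad edge in the orbit of every prefix of `ξ`, then there is a singular edge on
rays all of whose prefixes are bad and in the orbits of the prefixes of `ξ`. (König's lemma, with
`T1`.) -/
theorem T2 [Finite X] [Nonempty X] (R : Set (FreeGroup (Fin k)))
    (q : FreeGroup (Fin k) →* TA X) (ξ : ℕ → X)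
    (h : ∀ n, ∃ e : List X × Fin k, (∃ g, q g (pref ξ n) = e.1) ∧ Bad R q e) :
    ∃ F : (ℕ → X) × Fin k, (∀ n, ∃ g, q g (pref ξ n) = pref F.1 n) ∧ ∀ n, Bad R q (pe n F) := by
  classical
  let G : Fin k → List X → Prop := fun i v => (∃ g, q g (pref ξ v.length) = v) ∧ Bad R q (v, i)
  have hG1 : ∀ i v (x : X), G i (v ++ [x]) → G i v := by
    rintro i v x ⟨⟨g, hg⟩, hb⟩
    refine ⟨⟨g, ?_⟩, T1 R q v x i hb⟩
    have h1 := take_equi q v.length g (pref ξ (v ++ [x]).length)
    rw [rw_apply, rw_apply, hg] at h1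
    rw [List.take_left] at h1
    rw [List.length_append, List.length_singleton, pref_add] at h1
    have h2 : ((pref ξ v.length) ++ pref (shift v.length ξ) 1).take v.length =
        pref ξ v.length := by
      rw [List.take_append_of_le_length (by simp), List.take_of_length_le (by simp)]
    rw [h2] at h1
    exact h1.symm
  have hG2 : ∀ i a b, G i (a ++ b) → G i a := by
    intro i a b
    induction b using List.reverseRecOn with
    | nil => intro h1; rwa [List.append_nil] at h1
    | append_singleton b x ih =>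
      intro h1
      rw [← List.append_assoc] at h1
      exact ih (hG1 _ _ _ h1)
  have hlev : ∀ n, ∃ i v, v.length = n ∧ G i v := by
    intro n
    obtain ⟨⟨v, i⟩, ⟨g, hg⟩, hb⟩ := h n
    have hlen : v.length = n := by
      rw [← show q g (pref ξ n) = v from hg, TA.length]; simp
    exact ⟨i, v, hlen, ⟨g, by rw [hlen]; exact hg⟩, hb⟩
  have hi : ∃ i, ∀ n, ∃ v : List X, v.length = n ∧ G i v := by
    by_contra hcon
    push Not at hcon
    choose m hm using hcon
    obtain ⟨i, v, hv, hG⟩ := hlev (∑ i, m i)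
    have hle : m i ≤ v.length := by
      rw [hv]
      exact Finset.single_le_sum (fun _ _ => Nat.zero_le _) (Finset.mem_univ i)
    refine hm i (v.take (m i)) (by rw [List.length_take]; omega) ?_
    apply hG2 i _ (v.drop (m i))
    rwa [List.take_append_drop]
  obtain ⟨i, hi⟩ := hi
  let Q : List X → Prop := fun v => ∀ n, ∃ w : List X, w.length = n ∧ G i (v ++ w)
  have hQ0 : Q [] := by
    intro n
    obtain ⟨v, h1, h2⟩ := hi n
    exact ⟨v, h1, h2⟩
  obtain ⟨ζ, hζ⟩ := exists_ray Q hQ0 (by
    intro v hv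
    by_contra hcon
    have hcon' : ∀ x : X, ∃ m, ∀ w : List X, w.length = m → ¬ G i (v ++ [x] ++ w) := by
      intro x
      by_contra h1
      apply hcon
      refine ⟨x, fun n => ?_⟩
      by_contra h2
      apply h1
      refine ⟨n, fun w hw hG => h2 ⟨w, hw, hG⟩⟩
    choose m hm using hcon'
    haveI := Fintype.ofFinite X
    obtain ⟨w, hw, hG⟩ := hv (∑ x, m x + 1)
    obtain _ | ⟨x, w⟩ := w
    · simp at hw
    have hle : m x ≤ w.length := by
      rw [List.length_cons] at hw
      have : m x ≤ ∑ x, m x :=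
        Finset.single_le_sum (fun _ _ => Nat.zero_le _) (Finset.mem_univ x)
      omega
    refine hm x (w.take (m x)) (by rw [List.length_take]; omega) ?_
    apply hG2 i _ (w.drop (m x))
    rw [List.append_assoc, List.take_append_drop, List.append_assoc]
    exact hG)
  have hGζ : ∀ n, G i (pref ζ n) := by
    intro n
    obtain ⟨w, hw, hG⟩ := hζ n 0
    rw [List.length_eq_zero_iff.1 hw, List.append_nil] at hG
    exact hG
  refine ⟨(ζ, i), fun n => ?_, fun n => (hGζ n).2⟩
  obtain ⟨g, hg⟩ := (hGζ n).1
  refine ⟨g, ?_⟩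
  rwa [show (pref ζ n).length = n by simp] at hg

end Pool.Agent.Lib.H8PA
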