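import Pool.Agent.Lib.H8PA.Tr

/-!
# H8PA, T3: clusters of singular edges are finite
-/

namespace Pool.Agent.Lib.H8PA

open Pool.Agent.Lib.Helper67.BA

universe u

variable {X : Type} {k : ℕ}

theorem T3_suffix {Ω : Type} (ρ : FreeGroup (Fin k) →* Equiv.Perm Ω)
    (l : List (Fin k × Bool)) (w : Ω) (e : Ω × Fin k) (he : e ∈ Ed ρ l w) :
    ∃ l', l' <:+ l ∧ e.1 = ρ (FreeGroup.mk l') w := by
  induction l with
  | nil => exact absurd he (Set.notMem_empty _)
  | cons a l ih =>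
    rcases he with he | he
    · cases ha : a.2
      · refine ⟨a :: l, List.suffix_rfl, ?_⟩
        rw [he, (edge_false ρ ha _).1, mk_cons a l, map_mul, Equiv.Perm.mul_apply]
      · refine ⟨l, List.suffix_cons a l, ?_⟩
        rw [he, (edge_true ρ ha _).1]
    · obtain ⟨l', h1, h2⟩ := ih he
      exact ⟨l', h1.trans (List.suffix_cons a l), h2⟩

/-- T3. -/
theorem T3 {E : Type u} [Group E] (R : Set (FreeGroup (Fin k))) (hRf : R.Finite)
    (φ : FreeGroup (Fin k) →* E) (j : E →* TA X) (hF : HypF j)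
    (F : (ℕ → X) × Fin k) (hFB : F ∈ Br (j.comp φ)) :
    (Cl R (rr (j.comp φ)) (Br (j.comp φ)) F).Finite := by
  classical
  let S : Set E := Set.range fun i : Fin k => φ (FreeGroup.of i)
  have hS : S.Finite := Set.finite_range _
  let B : Set E := ⋃ r ∈ R, (fun p : List (Fin k × Bool) × List (Fin k × Bool) =>
    φ (FreeGroup.mk p.2 * (FreeGroup.mk p.1)⁻¹)) ''
      ({l | l ∈ r.toWord.tails} ×ˢ {l | l ∈ r.toWord.tails})
  have hB : B.Finite := by
    apply hRf.biUnion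
    intro r _
    apply Set.Finite.image
    have h1 : {l | l ∈ r.toWord.tails}.Finite := List.finite_toSet _
    exact h1.prod h1
  have hsing : ∀ e ∈ Br (j.comp φ), e.1 ∈ Sing j S := by
    intro e he
    exact ⟨φ (FreeGroup.of e.2), ⟨e.2, rfl⟩, fun n => he n⟩
  have h1 := hF S B hS hB F.1 (hsing F hFB)
  apply (h1.prod (Set.finite_univ (α := Fin k))).subset
  intro e he
  have he' : Relation.ReflTransGen (Lk R (rr (j.comp φ)) (Br (j.comp φ))) F e := he
  refine ⟨?_, Set.mem_univ _⟩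
  show Relation.ReflTransGen _ F.1 e.1
  induction he' with
  | refl => exact Relation.ReflTransGen.refl
  | @tail b c h2 h3 ih =>
    refine Relation.ReflTransGen.tail (ih h2) ?_
    obtain ⟨hb, hc, r, hr, w, hbw, hcw⟩ := h3
    obtain ⟨l₁, hl₁, hb1⟩ := T3_suffix _ _ _ _ hbw
    obtain ⟨l₂, hl₂, hc1⟩ := T3_suffix _ _ _ _ hcw
    refine ⟨hsing c hc, φ (FreeGroup.mk l₂ * (FreeGroup.mk l₁)⁻¹), ?_, ?_⟩
    · refine Set.mem_biUnion hr ⟨(l₁, l₂), ⟨?_, ?_⟩, rfl⟩
      · exact (List.mem_tails _ _).2 hl₁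
      · exact (List.mem_tails _ _).2 hl₂
    · rw [hb1, hc1]
      have h4 : ray (j (φ (FreeGroup.mk l₂ * (FreeGroup.mk l₁)⁻¹)))
          (rr (j.comp φ) (FreeGroup.mk l₁) w) =
        rr (j.comp φ) (FreeGroup.mk l₂ * (FreeGroup.mk l₁)⁻¹)
          (rr (j.comp φ) (FreeGroup.mk l₁) w) := rfl
      rw [h4, ← Equiv.Perm.mul_apply, ← map_mul, inv_mul_cancel_right]

end Pool.Agent.Lib.H8PA
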