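import Pool.Agent.Lib.H8PA.Tr

/-!
# H8PA, T4: a finite cluster on rays is seen at all deep levels
-/

namespace Pool.Agent.Lib.H8PA

open Pool.Agent.Lib.Helper67.BA

variable {X : Type} {k : ℕ}

/-- the edges on relator paths which meet `C` (including `C` when all its edges are on some relator
path; otherwise add `C` by hand) -/
def Lp {Ω : Type} (R : Set (FreeGroup (Fin k))) (ρ : FreeGroup (Fin k) →* Equiv.Perm Ω)
    (C : Set (Ω × Fin k)) : Set (Ω × Fin k) := C ∪ Nb R ρ C

/-- the end points of the edges in `Lp` -/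
def Pt {Ω : Type} (R : Set (FreeGroup (Fin k))) (ρ : FreeGroup (Fin k) →* Equiv.Perm Ω)
    (C : Set (Ω × Fin k)) : Set Ω := {w | ∃ e ∈ Lp R ρ C, w = e.1 ∨ w = tgt ρ e}

/-- prefixes of edges on a relator path -/
theorem T4_Ed (q : FreeGroup (Fin k) →* TA X) (n : ℕ) (l : List (Fin k × Bool)) (ζ : ℕ → X) :
    Ed (rw_ q) l (pref ζ n) = pe n '' Ed (rr q) l ζ :=
  Ed_map (ρ := rw_ q) (ρ' := rr q) (fun ξ => pref ξ n) (fun g ξ => pref_equi q n g ξ) l ζ

/-- relator paths through the prefix of an edge can be lifted to relator paths on rays through the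
edge -/
theorem T4_lift (q : FreeGroup (Fin k) →* TA X) (n : ℕ) (l : List (Fin k × Bool)) (w : List X)
    (e : (ℕ → X) × Fin k) (he : pe n e ∈ Ed (rw_ q) l w) :
    ∃ ζ, pref ζ n = w ∧ e ∈ Ed (rr q) l ζ := by
  induction l with
  | nil => exact absurd he (by simp [Ed])
  | cons a l ih =>
    rcases Set.mem_insert_iff.1 he with h | h
    · have h2 : e.2 = a.1 := by
        have := congrArg Prod.snd h
        simpa [pe, edgeOf] using this
      have h1 : pref e.1 n = (edgeOf (rw_ q) a (rw_ q (FreeGroup.mk l) w)).1 := by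
        have := congrArg Prod.fst h
        simpa [pe] using this
      cases ha : a.2
      · -- backwards
        refine ⟨(rr q (FreeGroup.mk l))⁻¹ (tgt (rr q) e), ?_, ?_⟩
        · have h3 : pref ((rr q (FreeGroup.mk l))⁻¹ (tgt (rr q) e)) n =
              rw_ q (FreeGroup.mk l)⁻¹ (pref (tgt (rr q) e) n) := by
            rw [← map_inv, pref_equi]
          rw [h3, tgt, pref_equi, h1, h2]
          have h4 : (edgeOf (rw_ q) a (rw_ q (FreeGroup.mk l) w)).1 =
              (rw_ q (FreeGroup.of a.1))⁻¹ (rw_ q (FreeGroup.mk l) w) := by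
            simp [edgeOf, ha]
          have h5 : rw_ q (FreeGroup.of a.1) ((rw_ q (FreeGroup.of a.1))⁻¹
              (rw_ q (FreeGroup.mk l) w)) = rw_ q (FreeGroup.mk l) w :=
            (rw_ q (FreeGroup.of a.1)).apply_symm_apply _
          rw [h4, h5, map_inv]
          exact (rw_ q (FreeGroup.mk l)).symm_apply_apply w
        · apply Set.mem_insert_iff.2
          left
          have h4 : rr q (FreeGroup.mk l) ((rr q (FreeGroup.mk l))⁻¹ (tgt (rr q) e)) =
              tgt (rr q) e := (rr q (FreeGroup.mk l)).apply_symm_apply _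
          rw [h4]
          refine Prod.ext ?_ h2
          show e.1 = (if a.2 then _ else (rr q (FreeGroup.of a.1))⁻¹ (tgt (rr q) e))
          rw [ha, if_neg (by simp), ← h2, tgt]
          exact ((rr q (FreeGroup.of e.2)).symm_apply_apply _).symm
      · -- forwards
        refine ⟨(rr q (FreeGroup.mk l))⁻¹ e.1, ?_, ?_⟩
        · have h3 : pref ((rr q (FreeGroup.mk l))⁻¹ e.1) n =
              rw_ q (FreeGroup.mk l)⁻¹ (pref e.1 n) := by
            rw [← map_inv, pref_equi]
          rw [h3, h1]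
          have h4 : (edgeOf (rw_ q) a (rw_ q (FreeGroup.mk l) w)).1 =
              rw_ q (FreeGroup.mk l) w := by
            simp [edgeOf, ha]
          rw [h4, map_inv]
          exact (rw_ q (FreeGroup.mk l)).symm_apply_apply w
        · apply Set.mem_insert_iff.2
          left
          have h4 : rr q (FreeGroup.mk l) ((rr q (FreeGroup.mk l))⁻¹ e.1) = e.1 :=
            (rr q (FreeGroup.mk l)).apply_symm_apply _
          rw [h4]
          refine Prod.ext ?_ h2
          show e.1 = (if a.2 then e.1 else _)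
          rw [ha, if_pos rfl]
    · obtain ⟨ζ, h1, h2⟩ := ih h
      exact ⟨ζ, h1, Set.mem_insert_of_mem _ h2⟩

theorem T4_Ed_finite {Ω : Type} (ρ : FreeGroup (Fin k) →* Equiv.Perm Ω)
    (l : List (Fin k × Bool)) (w : Ω) : (Ed ρ l w).Finite := by
  induction l with
  | nil => exact Set.finite_empty
  | cons a l ih => exact ih.insert _

/-- an edge lies on finitely many paths with a given label -/
theorem T4_base_finite {Ω : Type} (ρ : FreeGroup (Fin k) →* Equiv.Perm Ω)
    (l : List (Fin k × Bool)) (e : Ω × Fin k) : {w | e ∈ Ed ρ l w}.Finite := by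
  induction l with
  | nil => simp [Ed]
  | cons a l ih =>
    have h : {w | e ∈ Ed ρ (a :: l) w} ⊆
        ({(ρ (FreeGroup.mk l))⁻¹ e.1, (ρ (FreeGroup.mk l))⁻¹ (tgt ρ e)} : Set Ω) ∪
          {w | e ∈ Ed ρ l w} := by
      intro w hw
      rcases Set.mem_insert_iff.1 hw with h | h
      · left
        cases ha : a.2
        · right
          have h1 := (edge_false ρ ha (ρ (FreeGroup.mk l) w)).2
          rw [← h] at h1
          rw [Set.mem_singleton_iff, h1]
          simp
        · left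
          have h1 := (edge_true ρ ha (ρ (FreeGroup.mk l) w)).1
          rw [← h] at h1
          rw [h1]
          simp
      · right
        exact h
    exact ((Set.toFinite _).union ih).subset h

theorem T4_Nb_finite {Ω : Type} (R : Set (FreeGroup (Fin k))) (hRf : R.Finite)
    (ρ : FreeGroup (Fin k) →* Equiv.Perm Ω) (C : Set (Ω × Fin k)) (hC : C.Finite) :
    (Nb R ρ C).Finite := by
  have h1 : Nb R ρ C ⊆ ⋃ r ∈ R, ⋃ e ∈ C, ⋃ w ∈ {w | e ∈ Ed ρ r.toWord w}, Ed ρ r.toWord w := by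
    rintro f ⟨-, r, hr, w, hf, e, he, heC⟩
    simp only [Set.mem_iUnion]
    exact ⟨r, hr, e, heC, w, he, hf⟩
  refine Set.Finite.subset ?_ h1
  refine hRf.biUnion fun r _ => hC.biUnion fun e _ => ?_
  exact (T4_base_finite ρ _ e).biUnion fun w _ => T4_Ed_finite ρ _ w

/-- a finite set of rays is separated by long prefixes -/
theorem T4_sep (P : Set (ℕ → X)) (hP : P.Finite) :
    ∃ n₀, ∀ n, n₀ ≤ n → ∀ ζ ∈ P, ∀ ζ' ∈ P, pref ζ n = pref ζ' n → ζ = ζ' := by
  classical
  have key : ∀ p : (ℕ → X) × (ℕ → X), ∃ m, p.1 ≠ p.2 → ∀ n, m ≤ n → pref p.1 n ≠ pref p.2 n := by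
    rintro ⟨ζ, ζ'⟩
    by_cases h : ζ = ζ'
    · exact ⟨0, fun h' => absurd h h'⟩
    · obtain ⟨i, hi⟩ := Function.ne_iff.1 h
      refine ⟨i + 1, fun _ n hn h2 => hi ?_⟩
      have h3 := congrArg (fun l : List X => l[i]?) h2
      simp only [pref, List.getElem?_map, List.getElem?_range (show i < n by omega)] at h3
      simpa using h3
  choose m hm using key
  obtain ⟨n₀, hn₀⟩ := ((hP.prod hP).image m).bddAbove
  refine ⟨n₀, fun n hn ζ hζ ζ' hζ' h => ?_⟩
  by_contra hne
  exact hm (ζ, ζ') hne n (le_trans (hn₀ ⟨(ζ, ζ'), ⟨hζ, hζ'⟩, rfl⟩) hn) h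

/-- sections stay trivial -/
theorem T4_triv (q : FreeGroup (Fin k) →* TA X) (e : (ℕ → X) × Fin k) (m n : ℕ) (hmn : m ≤ n)
    (h : pe m e ∉ Bw q) : pe n e ∉ Bw q := by
  have h1 : TA.sec (q (FreeGroup.of e.2)) (pref e.1 m) = 1 := by
    by_contra h2
    exact h h2
  intro h2
  apply h2
  show TA.sec (q (FreeGroup.of e.2)) (pref e.1 n) = 1
  obtain ⟨d, rfl⟩ := Nat.exists_eq_add_of_le hmn
  rw [pref_add, TA.sec_append, h1, TA.sec_one]

/-- T4. Let `C` be the (finite) cluster of the singular edge `F`. For `n` large: prefixes of length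
`n` separate the end points of the edges of `C` and `Nb C`; the cluster of the prefix of `F` is the
prefix of `C`; the neighbours of the prefix of `C` are the prefixes of the neighbours of `C`. -/
theorem T4 (R : Set (FreeGroup (Fin k))) (hRf : R.Finite)
    (q : FreeGroup (Fin k) →* TA X) (F : (ℕ → X) × Fin k) (hF : F ∈ Br q)
    (hfin : (Cl R (rr q) (Br q) F).Finite) :
    ∃ n₀, ∀ n, n₀ ≤ n →
      (∀ ζ ∈ Pt R (rr q) (Cl R (rr q) (Br q) F), ∀ ζ' ∈ Pt R (rr q) (Cl R (rr q) (Br q) F),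
        pref ζ n = pref ζ' n → ζ = ζ') ∧
      Cl R (rw_ q) (Bw q) (pe n F) = pe n '' Cl R (rr q) (Br q) F ∧
      Nb R (rw_ q) (pe n '' Cl R (rr q) (Br q) F) = pe n '' Nb R (rr q) (Cl R (rr q) (Br q) F) := by
  classical
  set C := Cl R (rr q) (Br q) F with hCdef
  have hCB : C ⊆ Br q := Cl_subset hF
  have hNf : (Nb R (rr q) C).Finite := T4_Nb_finite R hRf _ C hfin
  have hPf : (Pt R (rr q) C).Finite := by
    have h1 : Pt R (rr q) C ⊆ (fun e : (ℕ → X) × Fin k => e.1) '' Lp R (rr q) C ∪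
        tgt (rr q) '' Lp R (rr q) C := by
      rintro w ⟨e, he, h | h⟩
      · exact Or.inl ⟨e, he, h.symm⟩
      · exact Or.inr ⟨e, he, h.symm⟩
    exact (((hfin.union hNf).image _).union ((hfin.union hNf).image _)).subset h1
  obtain ⟨n₁, hn₁⟩ := T4_sep _ hPf
  have key : ∀ e : (ℕ → X) × Fin k, ∃ m, e ∈ Nb R (rr q) C → ∀ n, m ≤ n → pe n e ∉ Bw q := by
    intro e
    by_cases he : e ∈ Nb R (rr q) C
    · have h1 : e ∉ Br q := Nb_Cl hF he
      have h2 : ∃ m, pe m e ∉ Bw q := by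
        by_contra h3
        push Not at h3
        exact h1 h3
      obtain ⟨m, hm⟩ := h2
      exact ⟨m, fun _ n hn => T4_triv q e m n hn hm⟩
    · exact ⟨0, fun h => absurd h he⟩
  choose m hm using key
  obtain ⟨n₂, hn₂⟩ := (hNf.image m).bddAbove
  refine ⟨max n₁ n₂, fun n hn => ?_⟩
  have hsep := hn₁ n (le_trans (le_max_left _ _) hn)
  have htriv : ∀ e ∈ Nb R (rr q) C, pe n e ∉ Bw q := fun e he =>
    hm e he n (le_trans (hn₂ ⟨e, he, rfl⟩) (le_trans (le_max_right _ _) hn))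
  have hinj : ∀ e ∈ Lp R (rr q) C, ∀ e' ∈ Lp R (rr q) C, pe n e = pe n e' → e = e' := by
    intro e he e' he' h
    have h1 : pref e.1 n = pref e'.1 n := congrArg Prod.fst h
    have h2 : e.2 = e'.2 := (Prod.ext_iff.1 h).2
    exact Prod.ext (hsep _ ⟨e, he, Or.inl rfl⟩ _ ⟨e', he', Or.inl rfl⟩ h1) h2
  refine ⟨hsep, ?_, ?_⟩
  · apply Set.Subset.antisymm
    · intro f hf
      have hf' : Relation.ReflTransGen (Lk R (rw_ q) (Bw q)) (pe n F) f := hf
      clear hf
      induction hf' with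
      | refl => exact ⟨F, Cl_refl F, rfl⟩
      | @tail g f _ hgf ih =>
        obtain ⟨e, heC, rfl⟩ := ih
        obtain ⟨-, hfB, r, hr, w, h1, h2⟩ := hgf
        obtain ⟨ζ, rfl, h3⟩ := T4_lift q n _ w e h1
        rw [T4_Ed] at h2
        obtain ⟨e', h4, rfl⟩ := h2
        by_cases h5 : e' ∈ C
        · exact ⟨e', h5, rfl⟩
        · exact absurd hfB (htriv e' ⟨h5, r, hr, ζ, h4, e, h3, heC⟩)
    · rintro _ ⟨e, he, rfl⟩
      have he' : Relation.ReflTransGen (Lk R (rr q) (Br q)) F e := he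
      show Relation.ReflTransGen (Lk R (rw_ q) (Bw q)) (pe n F) (pe n e)
      clear he
      induction he' with
      | refl => exact Relation.ReflTransGen.refl
      | @tail a b _ hab ih =>
        refine ih.tail ?_
        obtain ⟨h1, h2, r, hr, w, h3, h4⟩ := hab
        refine ⟨h1 n, h2 n, r, hr, pref w n, ?_, ?_⟩
        · rw [T4_Ed]; exact ⟨a, h3, rfl⟩
        · rw [T4_Ed]; exact ⟨b, h4, rfl⟩
  · apply Set.Subset.antisymm
    · rintro f ⟨h1, r, hr, w, h2, e', h3, e, he, rfl⟩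
      obtain ⟨ζ, rfl, h4⟩ := T4_lift q n _ w e h3
      rw [T4_Ed] at h2
      obtain ⟨f', h5, rfl⟩ := h2
      exact ⟨f', ⟨fun h6 => h1 ⟨f', h6, rfl⟩, r, hr, ζ, h5, e, h4, he⟩, rfl⟩
    · rintro _ ⟨f, hf, rfl⟩
      obtain ⟨h1, r, hr, w, h2, e, h3, h4⟩ := hf
      refine ⟨?_, r, hr, pref w n, ?_, pe n e, ?_, ⟨e, h4, rfl⟩⟩
      · rintro ⟨e', he', h5⟩
        have := hinj e' (Or.inl he') f (Or.inr ⟨h1, r, hr, w, h2, e, h3, h4⟩) h5
        exact h1 (this ▸ he')
      · rw [T4_Ed]; exact ⟨f, h2, rfl⟩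
      · rw [T4_Ed]; exact ⟨e, h3, rfl⟩

end Pool.Agent.Lib.H8PA
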