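import Pool.Agent.Lib.H8PA.T4

/-!
# H8PA, T5: the covering argument
-/

namespace Pool.Agent.Lib.H8PA

open Pool.Agent.Lib.Helper67.BA

variable {X : Type} {k : ℕ}

/-- prefixes of edges -/
theorem T5_edge (q : FreeGroup (Fin k) →* TA X) (n : ℕ) (a : Fin k × Bool) (ξ : ℕ → X) :
    edgeOf (rw_ q) a (pref ξ n) = pe n (edgeOf (rr q) a ξ) := by
  obtain ⟨i, b⟩ := a
  cases b
  · have h1 := pref_equi q n (FreeGroup.of i)⁻¹ ξ
    rw [map_inv, map_inv] at h1
    exact Prod.ext h1.symm rfl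
  · rfl

theorem T5_tgt (q : FreeGroup (Fin k) →* TA X) (n : ℕ) (e : (ℕ → X) × Fin k) :
    tgt (rw_ q) (pe n e) = pref (tgt (rr q) e) n := (pref_equi q n _ _).symm

/-- class paths can be lifted to rays -/
theorem T5_lift (R : Set (FreeGroup (Fin k))) (q : FreeGroup (Fin k) →* TA X)
    (C : Set ((ℕ → X) × Fin k)) (n : ℕ)
    (hsep : ∀ ζ ∈ Pt R (rr q) C, ∀ ζ' ∈ Pt R (rr q) C, pref ζ n = pref ζ' n → ζ = ζ')
    (hNb : Nb R (rw_ q) (pe n '' C) = pe n '' Nb R (rr q) C)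
    (τ : FreeGroup (Fin k)) (w : List X) (hτ : Pth (rw_ q) (Nb R (rw_ q) (pe n '' C)) τ w)
    (ξ : ℕ → X) (hξ : ξ ∈ Pt R (rr q) C) (hw : pref ξ n = w) :
    rr q τ ξ ∈ Pt R (rr q) C := by
  induction hτ with
  | one w =>
    rw [map_one]
    exact hξ
  | @step g w a h ha ih =>
    have h1 := ih hw
    set ξ1 := rr q g ξ with hξ1
    have h2 : rw_ q g w = pref ξ1 n := by rw [hξ1, pref_equi, hw]
    rw [h2, T5_edge, hNb] at ha
    obtain ⟨f, hf, hfe⟩ := ha
    have h3 : pref f.1 n = pref (edgeOf (rr q) a ξ1).1 n := congrArg Prod.fst hfe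
    have h4 : f.2 = (edgeOf (rr q) a ξ1).2 := (Prod.ext_iff.1 hfe).2
    have hf1 : f.1 ∈ Pt R (rr q) C := ⟨f, Or.inr hf, Or.inl rfl⟩
    have hf2 : tgt (rr q) f ∈ Pt R (rr q) C := ⟨f, Or.inr hf, Or.inr rfl⟩
    rw [map_mul, Equiv.Perm.mul_apply, ← hξ1]
    rcases edge_ends (ρ := rr q) a ξ1 with ⟨e1, e2⟩ | ⟨e1, e2⟩
    · rw [← e1] at h3
      have h5 : f.1 = ξ1 := hsep _ hf1 _ h1 h3
      have h6 : f = edgeOf (rr q) a ξ1 := Prod.ext (by rw [h5]; exact e1) h4
      rw [e2, ← h6]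
      exact hf2
    · have h5 : tgt (rr q) f = ξ1 := by
        apply hsep _ hf2 _ h1
        rw [← T5_tgt, hfe, T5_tgt, ← e1]
      have h6 : f.1 = (edgeOf (rr q) a ξ1).1 := by
        have h7 : rr q (FreeGroup.of f.2) f.1 =
            rr q (FreeGroup.of f.2) (edgeOf (rr q) a ξ1).1 := by
          have h8 : rr q (FreeGroup.of f.2) f.1 = ξ1 := h5
          rw [h8]
          conv_rhs => rw [h4]
          exact e1
        exact (rr q (FreeGroup.of f.2)).injective h7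
      rw [e2, ← h6]
      exact hf1

/-- T5. Let `C` be a set of singular edges on rays and `n` a level such that prefixes of length `n`
separate the points of `Pt C`, `Nb (C_n) = (Nb C)_n` (where `C_n = pe n '' C`), the sections on
`Nb (C_n)` are trivial, the classes of `C_n` are separated by `C_n`, and all loops off `C_n` at end
points of edges of `C_n` have trivial sections. Then the stabilizer of the prefix of length `n` of
an end point `η` of an edge of `C` fixes the prefix of length `n + 1`. -/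
theorem T5 (R : Set (FreeGroup (Fin k))) (q : FreeGroup (Fin k) →* TA X)
    (C : Set ((ℕ → X) × Fin k)) (n : ℕ)
    (hsep : ∀ ζ ∈ Pt R (rr q) C, ∀ ζ' ∈ Pt R (rr q) C, pref ζ n = pref ζ' n → ζ = ζ')
    (hNb : Nb R (rw_ q) (pe n '' C) = pe n '' Nb R (rr q) C)
    (hC : ∀ e ∈ Nb R (rw_ q) (pe n '' C), cs q e = 1)
    (hinj : Inj R (rw_ q) (pe n '' C))
    (hloop : ∀ p, (∃ e ∈ pe n '' C, p = e.1 ∨ p = tgt (rw_ q) e) →
      ∀ m, Pth (rw_ q) (pe n '' C)ᶜ m p → q m p = p → TA.sec (q m) p = 1)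
    (η : ℕ → X) (hη : ∃ e ∈ C, η = e.1 ∨ η = tgt (rr q) e)
    (g : FreeGroup (Fin k)) (hg : q g (pref η n) = pref η n) :
    q g (pref η (n + 1)) = pref η (n + 1) := by
  have hlast : ∀ (h : TA X) (ζ : ℕ → X), h (pref ζ n) = pref ζ n →
      TA.sec h (pref ζ n) = 1 → h (pref ζ (n + 1)) = pref ζ (n + 1) := by
    intro h ζ h1 h2
    rw [pref_add, TA.append, h1, h2]
    rfl
  -- end points
  have hPt : ∀ ζ : ℕ → X, (∃ e ∈ C, ζ = e.1 ∨ ζ = tgt (rr q) e) → ζ ∈ Pt R (rr q) C := by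
    rintro ζ ⟨e, he, h⟩
    exact ⟨e, Or.inl he, h⟩
  have hPn : ∀ ζ : ℕ → X, (∃ e ∈ C, ζ = e.1 ∨ ζ = tgt (rr q) e) →
      ∃ e ∈ pe n '' C, pref ζ n = e.1 ∨ pref ζ n = tgt (rw_ q) e := by
    rintro ζ ⟨e, he, h⟩
    refine ⟨pe n e, ⟨e, he, rfl⟩, ?_⟩
    rcases h with h | h
    · left; rw [h]; rfl
    · right; rw [h, T5_tgt]
  -- paths off `C_n` between end points
  have L : ∀ ζ ζ' : ℕ → X, (∃ e ∈ C, ζ = e.1 ∨ ζ = tgt (rr q) e) →
      (∃ e ∈ C, ζ' = e.1 ∨ ζ' = tgt (rr q) e) → ∀ z, Pth (rw_ q) (pe n '' C)ᶜ z (pref ζ n) →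
      rw_ q z (pref ζ n) = pref ζ' n → q z (pref ζ (n + 1)) = pref ζ' (n + 1) := by
    intro ζ ζ' h1 h2 z hz hz2
    have hZc : pref ζ' n ∈ Zc (rw_ q) (pe n '' C) (pref ζ n) := ⟨z, hz, hz2⟩
    have hR : Rch R (rw_ q) (pe n '' C) (pref ζ n) (pref ζ' n) := by
      obtain ⟨e, he, h3⟩ := hPn ζ' h2
      have h4 := hinj _ (hPn ζ h1) e he
      rcases h3 with h3 | h3
      · rw [h3] at hZc ⊢
        exact h4.1 hZc
      · rw [h3] at hZc ⊢
        exact h4.2 hZc
    obtain ⟨τ, hτ, hτ2⟩ := hR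
    have h5 : rr q τ ζ = ζ' := by
      apply hsep _ (T5_lift R q C n hsep hNb τ _ hτ ζ (hPt ζ h1) rfl) _ (hPt ζ' h2)
      rw [pref_equi, hτ2]
    have h6 : Pth (rw_ q) (pe n '' C)ᶜ (τ⁻¹ * z) (pref ζ n) := by
      apply hz.trans
      rw [hz2, ← hτ2]
      exact (hτ.mono (fun e he => he.1)).inv
    have h7 : rw_ q (τ⁻¹ * z) (pref ζ n) = pref ζ n := by
      rw [map_mul, Equiv.Perm.mul_apply, hz2, ← hτ2, map_inv]
      exact (rw_ q τ).symm_apply_apply _
    have h8 := hloop _ (hPn ζ h1) _ h6 h7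
    have h9 := hlast (q (τ⁻¹ * z)) ζ h7 h8
    have h10 : rw_ q (τ⁻¹ * z) (pref ζ (n + 1)) = pref ζ (n + 1) := h9
    rw [map_mul, Equiv.Perm.mul_apply, map_inv, Equiv.Perm.inv_eq_iff_eq] at h10
    rw [← h5, pref_equi, ← h10]
    rfl
  have key : ∀ l : List (Fin k × Bool), ∃ ζ : ℕ → X, (∃ e ∈ C, ζ = e.1 ∨ ζ = tgt (rr q) e) ∧
      ∃ z, Pth (rw_ q) (pe n '' C)ᶜ z (pref ζ n) ∧
        rw_ q z (pref ζ n) = rw_ q (FreeGroup.mk l) (pref η n) ∧
        rw_ q z (pref ζ (n + 1)) = rw_ q (FreeGroup.mk l) (pref η (n + 1)) := by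
    intro l
    induction l with
    | nil => exact ⟨η, hη, 1, Pth.one _, rfl, rfl⟩
    | cons a l ih =>
      obtain ⟨ζ, hζ, z, hz, hz2, hz3⟩ := ih
      by_cases he : edgeOf (rw_ q) a (rw_ q (FreeGroup.mk l) (pref η n)) ∈ pe n '' C
      · obtain ⟨f, hf, hfe⟩ := he
        -- the end point `ζ'` of `f` where the letter starts, and the other one
        obtain ⟨ζ', hζ', hζ2, hζ3⟩ : ∃ ζ' : ℕ → X, (∃ e ∈ C, ζ' = e.1 ∨ ζ' = tgt (rr q) e) ∧
            pref ζ' n = rw_ q (FreeGroup.mk l) (pref η n) ∧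
            ∃ e ∈ C, rr q (FreeGroup.mk [a]) ζ' = e.1 ∨
              rr q (FreeGroup.mk [a]) ζ' = tgt (rr q) e := by
          have hfa : f.2 = a.1 := (Prod.ext_iff.1 hfe).2
          cases ha : a.2
          · -- backwards
            refine ⟨tgt (rr q) f, ⟨f, hf, Or.inr rfl⟩, ?_, f, hf, Or.inl ?_⟩
            · rw [← T5_tgt, hfe, (edge_false (rw_ q) ha _).2]
            · have h1 : edgeOf (rr q) a (tgt (rr q) f) = f := by
                refine Prod.ext ?_ hfa.symm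
                show (if a.2 then _ else (rr q (FreeGroup.of a.1))⁻¹ (tgt (rr q) f)) = f.1
                rw [ha, if_neg (by simp), ← hfa, tgt]
                exact (rr q (FreeGroup.of f.2)).symm_apply_apply _
              have h2 := (edge_false (rr q) ha (tgt (rr q) f)).1
              rw [h1] at h2
              exact h2.symm
          · -- forwards
            refine ⟨f.1, ⟨f, hf, Or.inl rfl⟩, ?_, f, hf, Or.inr ?_⟩
            · have h1 : pref f.1 n = (edgeOf (rw_ q) a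
                  (rw_ q (FreeGroup.mk l) (pref η n))).1 := congrArg Prod.fst hfe
              rw [h1, (edge_true (rw_ q) ha _).1]
            · have h1 : edgeOf (rr q) a f.1 = f := by
                refine Prod.ext ?_ hfa.symm
                show (if a.2 then f.1 else _) = f.1
                rw [ha, if_pos rfl]
              have h2 := (edge_true (rr q) ha f.1).2
              rw [h1] at h2
              exact h2.symm
        refine ⟨rr q (FreeGroup.mk [a]) ζ', hζ3, 1, Pth.one _, ?_, ?_⟩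
        · rw [map_one, Equiv.Perm.one_apply, pref_equi, hζ2, mk_cons a l, map_mul,
            Equiv.Perm.mul_apply]
        · have h1 := L ζ ζ' hζ hζ' z hz (by rw [hz2, hζ2])
          have h2 : rw_ q z (pref ζ (n + 1)) = pref ζ' (n + 1) := h1
          rw [map_one, Equiv.Perm.one_apply, pref_equi, ← h2, hz3, mk_cons a l, map_mul,
            Equiv.Perm.mul_apply]
      · refine ⟨ζ, hζ, FreeGroup.mk [a] * z, Pth.step a hz (by rw [hz2]; exact he), ?_, ?_⟩
        · rw [map_mul, Equiv.Perm.mul_apply, hz2, mk_cons a l, map_mul, Equiv.Perm.mul_apply]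
        · rw [map_mul, Equiv.Perm.mul_apply, hz3, mk_cons a l, map_mul, Equiv.Perm.mul_apply]
  obtain ⟨ζ, hζ, z, hz, hz2, hz3⟩ := key g.toWord
  rw [FreeGroup.mk_toWord] at hz2 hz3
  have hg' : rw_ q g (pref η n) = pref η n := hg
  have h1 := L ζ η hζ hη z hz (by rw [hz2, hg'])
  have h2 : rw_ q z (pref ζ (n + 1)) = pref η (n + 1) := h1
  rw [hz3] at h2
  exact h2

end Pool.Agent.Lib.H8PA
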