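import Pool.Agent.Lib.H8PA.Lev
import Pool.Agent.Lib.H8PA.T2
import Pool.Agent.Lib.H8PA.T3
import Pool.Agent.Lib.H8PA.T5

/-!
# H8PA: Theorem B
-/

namespace Pool.Agent.Lib.H8PA

open Pool.Agent.Lib.Helper67.BA

universe u

section Generic

variable {k : ℕ} {Ω : Type} {R : Set (FreeGroup (Fin k))}
  {ρ : FreeGroup (Fin k) →* Equiv.Perm Ω} {B C S : Set (Ω × Fin k)}

/-- joined in `S` -/
def Jn (ρ : FreeGroup (Fin k) →* Equiv.Perm Ω) (S : Set (Ω × Fin k)) (p w : Ω) : Prop :=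
  ∃ g, Pth ρ S g p ∧ ρ g p = w

theorem Jn.refl (p : Ω) : Jn ρ S p p := ⟨1, Pth.one p, by simp⟩

theorem Jn.symm {p w : Ω} (h : Jn ρ S p w) : Jn ρ S w p := by
  obtain ⟨g, hg, rfl⟩ := h
  exact ⟨g⁻¹, hg.inv, by rw [map_inv]; simp⟩

theorem Jn.trans {p v w : Ω} (h : Jn ρ S p v) (h' : Jn ρ S v w) : Jn ρ S p w := by
  obtain ⟨g, hg, rfl⟩ := h
  obtain ⟨g', hg', rfl⟩ := h'
  exact ⟨g' * g, hg.trans hg', by rw [map_mul]; rfl⟩

theorem Jn.edge {e : Ω × Fin k} (he : e ∈ S) : Jn ρ S e.1 (tgt ρ e) :=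
  ⟨FreeGroup.of e.2, Pth.fwd he, rfl⟩

/-- clusters are connected -/
theorem Cl_conn {e0 e : Ω × Fin k} (he0 : e0 ∈ B) (he : e ∈ Cl R ρ B e0) :
    Jn ρ (Cl R ρ B e0 ∪ Nb R ρ (Cl R ρ B e0)) e0.1 e.1 := by
  have he' : Relation.ReflTransGen (Lk R ρ B) e0 e := he
  clear he
  induction he' with
  | refl => exact Jn.refl _
  | @tail e1 e2 h1 h2 ih =>
    refine Jn.trans ih ?_
    have h1' : e1 ∈ Cl R ρ B e0 := h1
    obtain ⟨h5, h6, r, hr, w, h7, h8⟩ := h2
    have hsub : Ed ρ r.toWord w ⊆ Cl R ρ B e0 ∪ Nb R ρ (Cl R ρ B e0) := by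
      intro f hf
      by_cases hfC : f ∈ Cl R ρ B e0
      · exact Or.inl hfC
      · exact Or.inr ⟨hfC, r, hr, w, hf, e1, h7, h1'⟩
    have h9 : Jn ρ (Cl R ρ B e0 ∪ Nb R ρ (Cl R ρ B e0)) w e1.1 := Ed_src r.toWord w hsub e1 h7
    have h10 : Jn ρ (Cl R ρ B e0 ∪ Nb R ρ (Cl R ρ B e0)) w e2.1 := Ed_src r.toWord w hsub e2 h8
    exact h9.symm.trans h10

/-- all end points of a cluster are joined -/
theorem Cl_ends {e0 e e' : Ω × Fin k} (he0 : e0 ∈ B) (he : e ∈ Cl R ρ B e0)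
    (he' : e' ∈ Cl R ρ B e0) {p p' : Ω} (hp : p = e.1 ∨ p = tgt ρ e)
    (hp' : p' = e'.1 ∨ p' = tgt ρ e') :
    Jn ρ (Cl R ρ B e0 ∪ Nb R ρ (Cl R ρ B e0)) p p' := by
  have key : ∀ (e : Ω × Fin k) (p : Ω), e ∈ Cl R ρ B e0 → (p = e.1 ∨ p = tgt ρ e) →
      Jn ρ (Cl R ρ B e0 ∪ Nb R ρ (Cl R ρ B e0)) e0.1 p := by
    rintro e p he (rfl | rfl)
    · exact Cl_conn he0 he
    · exact (Cl_conn he0 he).trans (Jn.edge (Or.inl he))
  exact (key e p he hp).symm.trans (key e' p' he' hp')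

/-- trivial values on the loops through a cluster: partial coboundary -/
theorem PCb_of_loops {A : Type} [Group A] {c : Ω × Fin k → A}
    (hC : ∀ e ∈ Nb R ρ C, c e = 1) (p : Ω)
    (hconn : ∀ e ∈ C, Jn ρ (C ∪ Nb R ρ C) p e.1)
    (hl : ∀ l, Pth ρ (C ∪ Nb R ρ C) l p → ρ l p = p → val ρ c l p = 1) : PCb R ρ c C := by
  classical
  let h : Ω → A := fun w =>
    if hw : Jn ρ (C ∪ Nb R ρ C) p w then val ρ c hw.choose p else 1
  have key : ∀ g w, Pth ρ (C ∪ Nb R ρ C) g p → ρ g p = w → h w = val ρ c g p := by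
    intro g w hg hgw
    have hw : Jn ρ (C ∪ Nb R ρ C) p w := ⟨g, hg, hgw⟩
    have h1 : h w = val ρ c hw.choose p := dif_pos hw
    obtain ⟨h2, h3⟩ := hw.choose_spec
    set g' := hw.choose
    have h4 : Pth ρ (C ∪ Nb R ρ C) (g⁻¹ * g') p := by
      apply h2.trans
      rw [h3, ← hgw]
      exact hg.inv
    have h5 : ρ (g⁻¹ * g') p = p := by
      rw [map_mul, Equiv.Perm.mul_apply, h3, ← hgw, map_inv]
      simp
    have h6 := hl _ h4 h5
    rw [val_mul, h3, ← hgw, val_inv', inv_mul_eq_one] at h6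
    rw [h1, h6]
  refine ⟨h, ?_, ?_⟩
  · intro e he
    by_cases hr : Jn ρ (C ∪ Nb R ρ C) p e.1
    · obtain ⟨g, hg, hg2⟩ := hr
      have h1 : Pth ρ (C ∪ Nb R ρ C) (FreeGroup.of e.2 * g) p := by
        apply hg.trans
        rw [hg2]
        exact Pth.fwd (Or.inr he)
      have h2 : ρ (FreeGroup.of e.2 * g) p = tgt ρ e := by
        rw [map_mul, Equiv.Perm.mul_apply, hg2]; rfl
      rw [key _ _ h1 h2, key _ _ hg hg2, val_mul, hg2, val_of, hC e he, one_mul]
    · have hr' : ¬ Jn ρ (C ∪ Nb R ρ C) p (tgt ρ e) := fun h2 =>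
        hr (h2.trans (Jn.edge (Or.inr he)).symm)
      have e1 : h e.1 = 1 := dif_neg hr
      have e2 : h (tgt ρ e) = 1 := dif_neg hr'
      rw [e1, e2]
  · intro e he
    obtain ⟨g, hg, hg2⟩ := hconn e he
    have h1 : Pth ρ (C ∪ Nb R ρ C) (FreeGroup.of e.2 * g) p := by
      apply hg.trans
      rw [hg2]
      exact Pth.fwd (Or.inl he)
    have h2 : ρ (FreeGroup.of e.2 * g) p = tgt ρ e := by
      rw [map_mul, Equiv.Perm.mul_apply, hg2]; rfl
    rw [key _ _ h1 h2, key _ _ hg hg2, val_mul, hg2, val_of]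
    simp

end Generic

variable {X : Type}

theorem ray_of_prefs {ξ : ℕ → X} {O : Set (ℕ → X)} (hO : O.Finite)
    (h : ∀ n, ∃ θ ∈ O, pref ξ n = pref θ n) : ξ ∈ O := by
  by_contra hξ
  have h1 : ∀ θ : ℕ → X, ∃ n, θ ∈ O → pref ξ n ≠ pref θ n := by
    intro θ
    by_cases hθ : θ ∈ O
    · by_contra hcon
      push Not at hcon
      apply hξ
      have h2 : ξ = θ := ray_ext fun n => (hcon n).2
      rw [h2]
      exact hθ
    · exact ⟨0, fun h => absurd h hθ⟩
  choose N hN using h1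
  obtain ⟨M, hM⟩ := (hO.image N).bddAbove
  obtain ⟨θ, hθ, h2⟩ := h M
  have h3 : N θ ≤ M := hM ⟨θ, hθ, rfl⟩
  apply hN θ hθ
  have h4 : M = N θ + (M - N θ) := by omega
  rw [h4, pref_add, pref_add] at h2
  exact List.append_inj_left h2 (by simp)

/-- **Theorem B.** -/
theorem thmB [Finite X] [Nonempty X] {E : Type u} [Group E] [hE : Group.IsFinitelyPresented E]
    (j : E →* TA X) (hF : HypF j) (hL : ¬ Large E) (ξ : ℕ → X) (hξ : InfOrb j ξ) :
    ∃ n, VA j (pref ξ n) := by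
  classical
  by_contra hVA
  push Not at hVA
  obtain ⟨k, φ, hφ, R, hRf, hR⟩ := hE.out
  set q : FreeGroup (Fin k) →* TA X := j.comp φ with hq
  have hqr : ∀ r ∈ R, q r = 1 := rel_one hR j
  -- no vertex in the orbits of the prefixes has virtually abelian sections
  have hno : ∀ n g, ¬ VA j (q g (pref ξ n)) := by
    intro n g h
    apply hVA n
    have h1 := VA_conj h (φ g)⁻¹
    have h2 : j (φ g)⁻¹ (q g (pref ξ n)) = pref ξ n := by
      rw [map_inv]
      exact TA.inv_apply_self _ _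
    rwa [h2] at h1
  have hno' : ∀ n p, (∃ g, q g (pref ξ n) = p) → ¬ VA j p := by
    rintro n p ⟨g, rfl⟩
    exact hno n g
  have hOrb : ∀ n (p p' : List X) (g : FreeGroup (Fin k)), (∃ g, q g (pref ξ n) = p) →
      rw_ q g p = p' → ∃ g, q g (pref ξ n) = p' := by
    rintro n p p' g ⟨g', rfl⟩ h
    refine ⟨g * g', ?_⟩
    rw [map_mul]
    exact h
  have hNb1 : ∀ e ∈ Bw q, ∀ f ∈ Nb R (rw_ q) (Cl R (rw_ q) (Bw q) e), cs q f = 1 :=
    fun e he f hf => not_not.1 (Nb_Cl he hf)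
  -- Step 1
  have step1 : ∀ n, ∀ e ∈ Bw q, (∃ g, q g (pref ξ n) = e.1) →
      Inj R (rw_ q) (Cl R (rw_ q) (Bw q) e) := by
    intro n e he heo
    by_contra hcon
    simp only [Inj, InjAt, not_forall] at hcon
    obtain ⟨p, ⟨e1, he1, hp1⟩, e2, he2, h3⟩ := hcon
    -- the second vertex
    obtain ⟨p2, hp2, hp2Z, hp2R⟩ : ∃ p2, (p2 = e2.1 ∨ p2 = tgt (rw_ q) e2) ∧
        p2 ∈ Zc (rw_ q) (Cl R (rw_ q) (Bw q) e) p ∧
        ¬ Rch R (rw_ q) (Cl R (rw_ q) (Bw q) e) p p2 := by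
      by_contra h4
      push Not at h4
      apply h3
      exact ⟨fun h5 => h4 _ (Or.inl rfl) h5, fun h5 => h4 _ (Or.inr rfl) h5⟩
    obtain ⟨gK, hK, hK2⟩ := Cl_ends he he1 he2 hp1 hp2
    obtain ⟨gZ, hZ, hZ2⟩ : Jn (rw_ q) (Cl R (rw_ q) (Bw q) e)ᶜ p2 p := Jn.symm hp2Z
    have hpo : ∃ g, q g (pref ξ n) = p := by
      obtain ⟨g, hg, hg2⟩ := Cl_ends he (Cl_refl e) he1 (Or.inl rfl) hp1
      exact hOrb n e.1 p g heo hg2
    rcases A1_TA hφ hR j (Cl R (rw_ q) (Bw q) e) (hNb1 e he) p p2 gK gZ hK hK2 hZ hZ2 hp2R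
      with h5 | h5
    · exact hL h5
    · apply hno' n p hpo
      apply VA_of_comm
      intro a b ha hb
      obtain ⟨a', rfl⟩ := hφ a
      obtain ⟨b', rfl⟩ := hφ b
      exact h5 a' b' ha hb
  -- Step 2
  have step2 : ∀ n, ∃ e : List X × Fin k, (∃ g, q g (pref ξ n) = e.1) ∧ Bad R q e := by
    intro n
    by_contra hcon
    push Not at hcon
    let O : Set (List X) := {w | ∃ g, q g (pref ξ n) = w}
    have hO : ∀ g, ∀ w ∈ O, rw_ q g w ∈ O := fun g w hw => hOrb n w _ g hw rfl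
    obtain ⟨f, hf⟩ := all_PC (R := R) (ρ := rw_ q) (B := Bw q) (c := cs q) O
      (fun e _ he => not_not.1 he)
      (by
        have h1 : O.Finite := by
          apply (orbit_fin q (pref ξ n)).subset
          rintro w ⟨g, rfl⟩
          exact ⟨g, rfl⟩
        apply (h1.prod (Set.finite_univ (α := Fin k))).subset
        rintro e ⟨he, -⟩
        exact ⟨he, Set.mem_univ _⟩)
      (fun e he heo => step1 n e he heo)
      (fun e he heo => by
        by_contra hpc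
        exact hcon e heo ⟨he, hpc⟩)
    apply hVA n
    apply VA_of_comm
    intro a b ha hb
    obtain ⟨a', rfl⟩ := hφ a
    obtain ⟨b', rfl⟩ := hφ b
    have hp : pref ξ n ∈ O := ⟨1, by rw [map_one]; rfl⟩
    have h1 := val_of_coboundary hO hf hp a' ha
    have h2 := val_of_coboundary hO hf hp b' hb
    rw [val_cs] at h1 h2
    have h1' : TA.sec (j (φ a')) (pref ξ n) = 1 := h1
    have h2' : TA.sec (j (φ b')) (pref ξ n) = 1 := h2
    rw [h1', h2']
  -- Step 3
  obtain ⟨F, hFo, hFb⟩ := T2 R q ξ step2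
  have hFB : F ∈ Br q := fun n => (hFb n).1
  have hfin := T3 R hRf φ j hF F hFB
  obtain ⟨n₀, hn₀⟩ := T4 R hRf q F hFB hfin
  set C := Cl R (rr q) (Br q) F with hC
  -- Step 6
  have step6 : ∀ n, n₀ ≤ n → ∀ g, q g (pref F.1 n) = pref F.1 n →
      q g (pref F.1 (n + 1)) = pref F.1 (n + 1) := by
    intro n hn
    obtain ⟨hsep, hCl, hNb⟩ := hn₀ n hn
    have hB := (hFb n).1
    have hnot := (hFb n).2
    have hinj : Inj R (rw_ q) (pe n '' C) := by
      rw [← hCl]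
      exact step1 n _ hB (hFo n)
    have hcs : ∀ e ∈ Nb R (rw_ q) (pe n '' C), cs q e = 1 := by
      rw [← hCl]
      exact hNb1 _ hB
    refine T5 R q C n hsep hNb hcs hinj ?_ F.1 ⟨F, Cl_refl F, Or.inl rfl⟩
    rintro p ⟨e, he, hp⟩
    have hpo : ∃ g, q g (pref ξ n) = p := by
      rw [← hCl] at he
      obtain ⟨g, hg, hg2⟩ := Cl_ends hB (Cl_refl _) he (Or.inl rfl) hp
      exact hOrb n _ p g (hFo n) hg2
    rcases A2_TA hφ hR j (pe n '' C) hcs p hL with h1 | h1 | ⟨a, b, ha, hb, h1, h2⟩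
    · exact h1
    · exfalso
      apply hnot
      rw [hCl]
      apply PCb_of_loops hcs p
      · intro e' he'
        have he1 := he
        rw [← hCl] at he1 he' ⊢
        exact Cl_ends hB he1 he' hp (Or.inl rfl)
      · intro l hl hl2
        rw [val_cs]
        apply h1 l (hl.mono ?_) hl2
        rintro f (hf | hf)
        · exact C_subset_S2 hf
        · exact Nb_subset_S2 hf
    · exfalso
      apply hno' n p hpo
      apply VA_of_dihedral ha hb
      intro g hg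
      obtain ⟨g', rfl⟩ := hφ g
      have h3 := gen (R := R) (ρ := rw_ q) (C := pe n '' C) (p := p) hcs
        (hinj p ⟨e, he, hp⟩) (Subgroup.closure {a, b})
        (fun m hm hm2 => by
          rw [val_cs]
          rcases h1 m hm hm2 with h4 | h4
          · have h4' : TA.sec (q m) p = 1 := h4
            rw [h4']; exact one_mem _
          · have h4' : TA.sec (q m) p = b := h4
            rw [h4']; exact Subgroup.subset_closure (by simp))
        (fun l hl hl2 => by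
          rw [val_cs]
          rcases h2 l hl hl2 with h4 | h4
          · have h4' : TA.sec (q l) p = 1 := h4
            rw [h4']; exact one_mem _
          · have h4' : TA.sec (q l) p = a := h4
            rw [h4']; exact Subgroup.subset_closure (by simp)) g' hg
      rw [val_cs] at h3
      exact h3
  -- Step 7
  have step7 : ∀ g, q g (pref F.1 n₀) = pref F.1 n₀ → ray (q g) F.1 = F.1 := by
    intro g hg
    have h1 : ∀ m, q g (pref F.1 (n₀ + m)) = pref F.1 (n₀ + m) := by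
      intro m
      induction m with
      | zero => exact hg
      | succ m ih => exact step6 (n₀ + m) (Nat.le_add_right _ _) g ih
    rw [Pool.Agent.Lib.Helper67.BA.ray_eq_iff]
    intro n
    have h2 := h1 n
    have h3 : n₀ + n = n + n₀ := by omega
    rw [h3, pref_add, TA.append] at h2
    exact List.append_inj_left h2 (by rw [TA.length])
  have hOfin : (Set.range fun g => ray (q g) F.1).Finite := by
    have h1 := orbit_fin q (pref F.1 n₀)
    apply Set.Finite.of_finite_image (f := fun ζ => pref ζ n₀)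
    · apply h1.subset
      rintro _ ⟨_, ⟨g, rfl⟩, rfl⟩
      exact ⟨g, (pref_ray _ _ _).symm⟩
    · rintro _ ⟨g, rfl⟩ _ ⟨g', rfl⟩ h2
      have h3 : q g (pref F.1 n₀) = q g' (pref F.1 n₀) := by
        have h4 : pref (ray (q g) F.1) n₀ = pref (ray (q g') F.1) n₀ := h2
        rwa [pref_ray, pref_ray] at h4
      have h5 := step7 (g'⁻¹ * g) (by
        rw [map_mul, TA.mul_apply, h3, map_inv, TA.inv_apply_self])
      show ray (q g) F.1 = ray (q g') F.1
      rw [map_mul, map_inv, ray_mul] at h5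
      have h6 := congrArg (ray (q g')) h5
      rwa [ray_ray_inv] at h6
  apply hξ
  apply hOfin.subset
  rintro _ ⟨e, rfl⟩
  apply ray_of_prefs hOfin
  intro n
  obtain ⟨g, hg⟩ := hFo n
  obtain ⟨e', rfl⟩ := hφ e
  refine ⟨ray (q (e' * g⁻¹)) F.1, ⟨e' * g⁻¹, rfl⟩, ?_⟩
  show pref (ray (j (φ e')) ξ) n = _
  rw [pref_ray, pref_ray, ← hg, map_mul, map_inv, TA.mul_apply, TA.inv_apply_self]
  rfl

end Pool.Agent.Lib.H8PA
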