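import Pool.Agent.Lib.H8PA.Gauge

/-!
# H8PA: the actions on words and on rays
-/

namespace Pool.Agent.Lib.H8PA

open Pool.Agent.Lib.Helper67.BA

universe u

variable {X : Type} {k : ℕ}

/-- the action on words -/
def rw_ (q : FreeGroup (Fin k) →* TA X) : FreeGroup (Fin k) →* Equiv.Perm (List X) :=
  (TA X).subtype.comp q

@[simp] theorem rw_apply (q : FreeGroup (Fin k) →* TA X) (g : FreeGroup (Fin k)) (w : List X) :
    rw_ q g w = q g w := rfl

/-- the action of the automorphism group on rays -/
noncomputable def rayHom (X : Type) : TA X →* Equiv.Perm (ℕ → X) where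
  toFun g :=
    { toFun := ray g
      invFun := ray g⁻¹
      left_inv := fun ξ => ray_inv_ray g ξ
      right_inv := fun ξ => ray_ray_inv g ξ }
  map_one' := by
    ext1 ξ
    exact ray_one ξ
  map_mul' g h := by
    ext1 ξ
    exact ray_mul g h ξ

/-- the action on rays -/
noncomputable def rr (q : FreeGroup (Fin k) →* TA X) :
    FreeGroup (Fin k) →* Equiv.Perm (ℕ → X) := (rayHom X).comp q

@[simp] theorem rr_apply (q : FreeGroup (Fin k) →* TA X) (g : FreeGroup (Fin k)) (ξ : ℕ → X) :
    rr q g ξ = ray (q g) ξ := rfl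

/-- the section cochain -/
def cs (q : FreeGroup (Fin k) →* TA X) : List X × Fin k → TA X :=
  fun e => TA.sec (q (FreeGroup.of e.2)) e.1

/-- active edges on words -/
def Bw (q : FreeGroup (Fin k) →* TA X) : Set (List X × Fin k) := {e | cs q e ≠ 1}

/-- singular edges on rays -/
def Br (q : FreeGroup (Fin k) →* TA X) : Set ((ℕ → X) × Fin k) :=
  {e | ∀ n, (pref e.1 n, e.2) ∈ Bw q}

/-- prefix of an edge -/
def pe (n : ℕ) (e : (ℕ → X) × Fin k) : List X × Fin k := (pref e.1 n, e.2)

theorem val_cs (q : FreeGroup (Fin k) →* TA X) (g : FreeGroup (Fin k)) (v : List X) :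
    val (rw_ q) (cs q) g v = TA.sec (q g) v := by
  have key : ∀ l : List (Fin k × Bool), val (rw_ q) (cs q) (FreeGroup.mk l) v =
      TA.sec (q (FreeGroup.mk l)) v := by
    intro l
    induction l with
    | nil =>
      have e1 : (FreeGroup.mk ([] : List (Fin k × Bool))) = 1 := rfl
      rw [e1, val_one, map_one, TA.sec_one]
    | cons a l ih =>
      rw [mk_cons, val_mul, ih, map_mul, TA.sec_mul]
      congr 1
      obtain ⟨i, b⟩ := a
      cases b
      · rw [mk_false, val_inv, val_of, map_inv, map_inv, TA.sec_inv]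
        rfl
      · rw [mk_true, val_of]
        rfl
  have h := key g.toWord
  rwa [FreeGroup.mk_toWord] at h

/-- prefixes are equivariant -/
theorem pref_equi (q : FreeGroup (Fin k) →* TA X) (n : ℕ) (g : FreeGroup (Fin k))
    (ξ : ℕ → X) : pref (rr q g ξ) n = rw_ q g (pref ξ n) := pref_ray _ _ _

theorem take_equi (q : FreeGroup (Fin k) →* TA X) (n : ℕ) (g : FreeGroup (Fin k))
    (w : List X) : (rw_ q g w).take n = rw_ q g (w.take n) := by
  rw [rw_apply, rw_apply]
  have h := TA.append (q g) (w.take n) (w.drop n)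
  rw [List.take_append_drop] at h
  rw [h]
  by_cases hn : n ≤ w.length
  · have h2 : ((q g) (w.take n)).length = n := by
      rw [TA.length, List.length_take]; omega
    rw [List.take_append_of_le_length (by rw [h2]), List.take_of_length_le (by rw [h2])]
  · have h3 : w.take n = w := List.take_of_length_le (by omega)
    have h4 : w.drop n = [] := List.drop_eq_nil_of_le (by omega)
    rw [h3, h4, TA.map_nil, List.append_nil, List.take_of_length_le]
    rw [TA.length]; omega

theorem Coc_cs {R : Set (FreeGroup (Fin k))} {q : FreeGroup (Fin k) →* TA X}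
    (hq : ∀ r ∈ R, q r = 1) : Coc R (rw_ q) (cs q) := by
  intro r hr w
  rw [val_cs, hq r hr, TA.sec_one]

theorem rw_rel {R : Set (FreeGroup (Fin k))} {q : FreeGroup (Fin k) →* TA X}
    (hq : ∀ r ∈ R, q r = 1) : ∀ r ∈ R, rw_ q r = 1 := by
  intro r hr
  rw [rw_, MonoidHom.comp_apply, hq r hr, map_one]

theorem rr_rel {R : Set (FreeGroup (Fin k))} {q : FreeGroup (Fin k) →* TA X}
    (hq : ∀ r ∈ R, q r = 1) : ∀ r ∈ R, rr q r = 1 := by
  intro r hr
  rw [rr, MonoidHom.comp_apply, hq r hr, map_one]

variable (R : Set (FreeGroup (Fin k))) (q : FreeGroup (Fin k) →* TA X)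

/-- bad edges: active edges whose cluster is not a partial coboundary -/
def Bad (e : List X × Fin k) : Prop :=
  e ∈ Bw q ∧ ¬ PCb R (rw_ q) (cs q) (Cl R (rw_ q) (Bw q) e)

end Pool.Agent.Lib.H8PA
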