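import Pool.Agent.Lib.Helper67.BA.NoFree

/-!
# H8PA endgame, V2: automorphisms with few sections off every subtree
-/

namespace Pool.Agent.Lib.H8PA

open Pool.Agent.Lib.Helper67.BA TA

variable {X : Type}

/-- closed under initial segments -/
def PC (T : Set (List X)) : Prop := ∀ u w : List X, u ++ w ∈ T → u ∈ T

/-- the sections at the words leaving `T` -/
def offT (g : TA X) (T : Set (List X)) : Set (TA X) :=
  {h | ∃ v ∈ T, ∃ x : X, v ++ [x] ∉ T ∧ h = TA.sec g (v ++ [x])}

/-- off every subtree there are only finitely many sections -/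
def QT (g : TA X) : Prop := ∀ T : Set (List X), PC T → (offT g T).Finite

theorem PC.image {T : Set (List X)} (hT : PC T) (g : TA X) : PC {v | g⁻¹ v ∈ T} := by
  intro u w h
  show g⁻¹ u ∈ T
  have h1 : g⁻¹ (u ++ w) ∈ T := h
  rw [TA.append] at h1
  exact hT _ _ h1

theorem offT_img {T : Set (List X)} (g : TA X) {v : List X} {x : X} (hv : v ∈ T)
    (hx : v ++ [x] ∉ T) : ∃ y : X, g v ∈ {v | g⁻¹ v ∈ T} ∧ g v ++ [y] ∉ {v | g⁻¹ v ∈ T} ∧
      g (v ++ [x]) = g v ++ [y] := by
  have h1 : (TA.sec g v [x]).length = 1 := by rw [TA.length]; rfl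
  obtain ⟨y, hy⟩ := List.length_eq_one_iff.1 h1
  have h2 : g (v ++ [x]) = g v ++ [y] := by rw [TA.append, hy]
  refine ⟨y, ?_, ?_, h2⟩
  · show g⁻¹ (g v) ∈ T
    rw [inv_apply_self]
    exact hv
  · show ¬ (g⁻¹ (g v ++ [y]) ∈ T)
    rw [← h2, inv_apply_self]
    exact hx

theorem QT.one : QT (1 : TA X) := by
  intro T _
  apply (Set.finite_singleton (1 : TA X)).subset
  rintro h ⟨v, -, x, -, rfl⟩
  exact sec_one _

theorem QT.mul {a b : TA X} (ha : QT a) (hb : QT b) : QT (a * b) := by
  intro T hT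
  apply ((ha _ (hT.image b)).image2 (fun x y => x * y) (hb T hT)).subset
  rintro h ⟨v, hv, x, hx, rfl⟩
  obtain ⟨y, h1, h2, h3⟩ := offT_img b hv hx
  exact ⟨_, ⟨b v, h1, y, h2, rfl⟩, _, ⟨v, hv, x, hx, rfl⟩, by rw [sec_mul, h3]⟩

theorem QT.inv {a : TA X} (ha : QT a) : QT a⁻¹ := by
  intro T hT
  apply ((ha _ (hT.image a⁻¹)).image (fun x => x⁻¹)).subset
  rintro h ⟨v, hv, x, hx, rfl⟩
  obtain ⟨y, h1, h2, h3⟩ := offT_img a⁻¹ hv hx
  exact ⟨_, ⟨a⁻¹ v, h1, y, h2, rfl⟩, by rw [sec_inv, h3]⟩

variable (X) in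
/-- the group of automorphisms with few sections off every subtree -/
def QTG : Subgroup (TA X) where
  carrier := {g | QT g}
  mul_mem' := fun ha hb => ha.mul hb
  one_mem' := QT.one
  inv_mem' := fun ha => ha.inv

theorem mem_QTG {g : TA X} : g ∈ QTG X ↔ QT g := Iff.rfl

/-- finite-state automorphisms -/
theorem QT_of_finite {g : TA X} (h : (Set.range (TA.sec g)).Finite) : QT g := by
  intro T _
  apply h.subset
  rintro s ⟨v, -, x, -, rfl⟩
  exact ⟨_, rfl⟩

/-- bounded automorphisms of bounded depth -/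
theorem QT_of_bdd [Finite X] [Nonempty X] {g : TA X} (hg : Bdd g) : QT g := by
  classical
  obtain ⟨n₀, hn₀⟩ := norm_aux hg
  have hg' := hg
  obtain ⟨-, D, hD⟩ := hg'
  have hDep := finite_Dep (X := X) (m := D)
  intro T hT
  -- the words at which the section is not finitary and which leave `T`
  have h1 : {w : List X | n₀ ≤ w.length ∧ NF g w ∧ ∃ v ∈ T, ∃ x : X, v ++ [x] ∉ T ∧
      w = v ++ [x]}.Finite := by
    apply Set.Finite.of_finite_image (f := fun w => w.take n₀)
    · apply (finite_words (X := X) n₀).subset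
      rintro _ ⟨w, ⟨h1, -, -⟩, rfl⟩
      show (w.take n₀).length = n₀
      rw [List.length_take]
      omega
    · -- two such words are prefixes of the same ray
      have key : ∀ w w' : List X, n₀ ≤ w.length → NF g w → NF g w' → w.take n₀ = w'.take n₀ →
          w.length ≤ w'.length → n₀ ≤ w'.length → w <+: w' := by
        intro w w' hw h h' heq hle hw'
        have h2 : (w.take n₀).length = n₀ := by rw [List.length_take]; omega
        have h3 : NF g (w.take n₀) := NF.of_append (w := w.drop n₀) (by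
          rw [List.take_append_drop]; exact h)
        obtain ⟨ξ, hξ⟩ := hn₀ (w.take n₀) h2.ge h3
        have h4 := (hξ (w.drop n₀)).1 (by rw [List.take_append_drop]; exact h)
        have h5 := (hξ (w'.drop n₀)).1 (by rw [heq, List.take_append_drop]; exact h')
        rw [← List.take_append_drop n₀ w, ← List.take_append_drop n₀ w', heq]
        apply (List.prefix_append_right_inj _).2
        rw [h4, h5]
        have h6 : (w'.drop n₀).length = (w.drop n₀).length + (w'.length - w.length) := by
          rw [List.length_drop, List.length_drop]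
          omega
        rw [h6, pref_add]
        exact List.prefix_append _ _
      have key2 : ∀ w w' : List X, (∃ v ∈ T, ∃ x : X, v ++ [x] ∉ T ∧ w = v ++ [x]) →
          (∃ v ∈ T, ∃ x : X, v ++ [x] ∉ T ∧ w' = v ++ [x]) → w <+: w' → w = w' := by
        rintro w w' ⟨v, hv, x, hx, rfl⟩ ⟨v', hv', x', hx', rfl⟩ ⟨t, ht⟩
        rcases List.eq_nil_or_concat t with rfl | ⟨t', y, rfl⟩
        · rw [List.append_nil] at ht
          exact ht
        · exfalso
          apply hx
          apply hT _ t'
          rw [List.concat_eq_append, ← List.append_assoc] at ht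
          rw [List.append_inj_left' ht rfl]
          exact hv'
      rintro w ⟨hw1, hw2, hw3⟩ w' ⟨hw1', hw2', hw3'⟩ heq
      simp only at heq
      rcases le_total w.length w'.length with hle | hle
      · exact key2 w w' hw3 hw3' (key w w' hw1 hw2 hw2' heq hle hw1')
      · exact (key2 w' w hw3' hw3 (key w' w hw1' hw2' hw2 heq.symm hle hw1)).symm
  have h2 : {w : List X | w.length ≤ n₀}.Finite := List.finite_length_le X n₀
  have h3 : ((Dep X D : Subgroup (TA X)) : Set (TA X)).Finite := Set.toFinite _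
  apply ((h1.image (TA.sec g)).union ((h2.image (TA.sec g)).union h3)).subset
  rintro s ⟨v, hv, x, hx, rfl⟩
  by_cases hlen : (v ++ [x]).length ≤ n₀
  · exact Or.inr (Or.inl ⟨_, hlen, rfl⟩)
  by_cases hnf : NF g (v ++ [x])
  · exact Or.inl ⟨_, ⟨by omega, hnf, v, hv, x, hx, rfl⟩, rfl⟩
  · exact Or.inr (Or.inr (hD _ (not_NF hnf)))

end Pool.Agent.Lib.H8PA
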