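import Pool.Agent.Lib.H8PA.V2

/-!
# H8PA endgame, V3: cutting an automorphism
-/

namespace Pool.Agent.Lib.H8PA

open Pool.Agent.Lib.Helper67.BA TA

variable {X : Type}

/-- the word function of `glue1` -/
def glueF (g : TA X) (f : X → TA X) : List X → List X
  | [] => []
  | x :: u => g [x] ++ f x u

theorem glueF_length (g : TA X) (f : X → TA X) (w : List X) :
    (glueF g f w).length = w.length := by
  cases w with
  | nil => rfl
  | cons x u =>
    show (g [x] ++ f x u).length = _
    rw [List.length_append, TA.length, TA.length]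
    simp [Nat.add_comm]

/-- image of a letter -/
noncomputable def letter (g : TA X) (x : X) : X :=
  (List.length_eq_one_iff.1 (show (g [x]).length = 1 by rw [TA.length]; rfl)).choose

theorem letter_spec (g : TA X) (x : X) : g [x] = [letter g x] :=
  (List.length_eq_one_iff.1 (show (g [x]).length = 1 by rw [TA.length]; rfl)).choose_spec

theorem letter_inv (g : TA X) (x : X) : letter g⁻¹ (letter g x) = x := by
  have h1 := inv_apply_self g [x]
  rw [letter_spec, letter_spec] at h1
  simpa using h1

theorem letter_mul (g h : TA X) (x : X) : letter (g * h) x = letter g (letter h x) := by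
  have h1 : (g * h) [x] = g (h [x]) := rfl
  rw [letter_spec, letter_spec, letter_spec] at h1
  simpa using h1

/-- the automorphism with given action on the letters and given sections there -/
noncomputable def glue1 (g : TA X) (f : X → TA X) : TA X :=
  ⟨{ toFun := glueF g f
     invFun := glueF g⁻¹ (fun x => (f (letter g⁻¹ x))⁻¹)
     left_inv := by
      rintro (_ | ⟨x, u⟩)
      · rfl
      · show glueF g⁻¹ _ (g [x] ++ f x u) = _
        rw [letter_spec]
        show g⁻¹ [letter g x] ++ (f (letter g⁻¹ (letter g x)))⁻¹ (f x u) = _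
        rw [letter_inv, inv_apply_self, letter_spec, letter_inv]
        rfl
     right_inv := by
      rintro (_ | ⟨x, u⟩)
      · rfl
      · show glueF g f (g⁻¹ [x] ++ (f (letter g⁻¹ x))⁻¹ u) = _
        rw [letter_spec]
        show g [letter g⁻¹ x] ++ f (letter g⁻¹ x) ((f (letter g⁻¹ x))⁻¹ u) = _
        rw [apply_inv_self, ← letter_spec, apply_inv_self]
        rfl },
   by
    refine ⟨glueF_length g f, ?_⟩
    rintro (_ | ⟨x, u⟩) w
    · exact List.nil_prefix
    · show g [x] ++ f x u <+: g [x] ++ f x (u ++ w)
      exact (List.prefix_append_right_inj _).2 (TA.pre _ _ _)⟩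

theorem glue1_cons (g : TA X) (f : X → TA X) (x : X) (u : List X) :
    glue1 g f (x :: u) = g [x] ++ f x u := rfl

theorem glue1_letter (g : TA X) (f : X → TA X) (x : X) : letter (glue1 g f) x = letter g x := by
  have h1 : glue1 g f [x] = g [x] ++ f x [] := rfl
  rw [letter_spec, letter_spec, TA.map_nil, List.append_nil] at h1
  simpa using h1

theorem glue1_sec (g : TA X) (f : X → TA X) (x : X) : TA.sec (glue1 g f) [x] = f x := by
  apply sec_unique
  intro w
  show g [x] ++ f x w = (g [x] ++ f x []) ++ f x w
  rw [TA.map_nil, List.append_nil]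

theorem eq_of_letters {g h : TA X} (h1 : ∀ x, letter g x = letter h x)
    (h2 : ∀ x, TA.sec g [x] = TA.sec h [x]) : g = h := by
  ext1 w
  rcases w with _ | ⟨x, u⟩
  · rw [TA.map_nil, TA.map_nil]
  · have h3 : x :: u = [x] ++ u := rfl
    rw [h3, TA.append, TA.append, letter_spec, letter_spec, h1, h2]

open Classical in
/-- `g` made trivial below the letters in `P` -/
noncomputable def cut (P : Set X) (g : TA X) : TA X :=
  glue1 g (fun x => if x ∈ P then 1 else TA.sec g [x])

theorem cut_letter (P : Set X) (g : TA X) (x : X) : letter (cut P g) x = letter g x :=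
  glue1_letter _ _ _

theorem cut_sec_mem {P : Set X} (g : TA X) {x : X} (hx : x ∈ P) : TA.sec (cut P g) [x] = 1 := by
  unfold cut
  rw [glue1_sec, if_pos hx]

theorem cut_sec_not_mem {P : Set X} (g : TA X) {x : X} (hx : x ∉ P) :
    TA.sec (cut P g) [x] = TA.sec g [x] := by
  unfold cut
  rw [glue1_sec, if_neg hx]

/-- `cut` is multiplicative on automorphisms which fix the letters in `P` -/
theorem cut_mul {P : Set X} {g h : TA X} (hh : ∀ x ∈ P, letter h x = x) :
    cut P (g * h) = cut P g * cut P h := by
  classical
  apply eq_of_letters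
  · intro x
    rw [cut_letter, letter_mul, letter_mul, cut_letter, cut_letter]
  · intro x
    have h1 : cut P h [x] = [letter h x] := by rw [letter_spec, cut_letter]
    rw [sec_mul, h1]
    by_cases hx : x ∈ P
    · rw [hh x hx, cut_sec_mem _ hx, cut_sec_mem _ hx, cut_sec_mem _ hx, mul_one]
    · have h2 : letter h x ∉ P := by
        intro h3
        apply hx
        have h4 := hh _ h3
        have h5 : letter h x = x := by
          rw [← letter_inv h (letter h x), h4, letter_inv]
        rwa [h5] at h3
      rw [cut_sec_not_mem _ hx, cut_sec_not_mem _ hx, cut_sec_not_mem _ h2, sec_mul, letter_spec]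

theorem cut_one (P : Set X) : cut P (1 : TA X) = 1 := by
  classical
  apply eq_of_letters
  · intro x
    rw [cut_letter]
  · intro x
    by_cases hx : x ∈ P
    · rw [cut_sec_mem _ hx, sec_one]
    · rw [cut_sec_not_mem _ hx]

/-- `cut P g` depends only on the letters and the sections at letters outside `P` -/
theorem cut_cons {P : Set X} {g : TA X} {x : X} (hx : x ∉ P) (u : List X) :
    cut P g (x :: u) = g (x :: u) := by
  have h3 : x :: u = [x] ++ u := rfl
  rw [h3, TA.append, TA.append, cut_sec_not_mem _ hx, letter_spec, cut_letter, letter_spec]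

/-- finitely many cut automorphisms -/
theorem cut_finite [Finite X] {ι : Type} (P : ι → Set X) (g : ι → TA X) {S : Set (TA X)}
    (hS : S.Finite) (h : ∀ i, ∀ x, x ∉ P i → TA.sec (g i) [x] ∈ S) :
    (Set.range fun i => cut (P i) (g i)).Finite := by
  classical
  have : Finite S := hS.to_subtype
  have hfin : (Set.univ : Set ((X → X) × (X → Option S))).Finite := Set.toFinite _
  refine Set.Finite.of_finite_image (f := fun c : TA X => (fun x => letter c x, fun x =>
    if h : TA.sec c [x] ∈ S then some (⟨_, h⟩ : S) else none)) (Set.toFinite _) ?_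
  rintro _ ⟨i, rfl⟩ _ ⟨k, rfl⟩ heq
  simp only [Prod.mk.injEq] at heq
  obtain ⟨h1, h2⟩ := heq
  apply eq_of_letters
  · intro x
    exact congrFun h1 x
  · intro x
    have h3 := congrFun h2 x
    -- the sections are in `S` or trivial
    have key : ∀ i, TA.sec (cut (P i) (g i)) [x] ∉ S → TA.sec (cut (P i) (g i)) [x] = 1 := by
      intro i hi
      by_cases hx : x ∈ P i
      · exact cut_sec_mem _ hx
      · exfalso
        apply hi
        rw [cut_sec_not_mem _ hx]
        exact h i x hx
    by_cases hi : TA.sec (cut (P i) (g i)) [x] ∈ S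
    · by_cases hk : TA.sec (cut (P k) (g k)) [x] ∈ S
      · rw [dif_pos hi, dif_pos hk] at h3
        simpa using h3
      · rw [dif_pos hi, dif_neg hk] at h3
        simp at h3
    · by_cases hk : TA.sec (cut (P k) (g k)) [x] ∈ S
      · rw [dif_neg hi, dif_pos hk] at h3
        simp at h3
      · rw [key i hi, key k hk]

end Pool.Agent.Lib.H8PA
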