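import Pool.Agent.Lib.H8PA.V1
import Pool.Agent.Lib.H76.Pump.KerAll

/-!
# H8PA endgame, V4: Baire category by hand
-/

namespace Pool.Agent.Lib.H8PA

open Pool.Agent.Lib.Helper67.BA TA

universe u

variable {X : Type} {E : Type u} [Group E]

/-- the orbit of a ray -/
def orbR (j : E →* TA X) (ξ : ℕ → X) : Set (ℕ → X) := {η | ∃ e, ray (j e) ξ = η}

/-- rays through bad words only -/
def BadR (j : E →* TA X) : Set (ℕ → X) := {ξ | ∀ n, ¬ VA j (pref ξ n)}

/-- the action on the rays -/
@[instance_reducible] noncomputable def rayAct (j : E →* TA X) : MulAction E (ℕ → X) where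
  smul e ξ := ray (j e) ξ
  one_smul ξ := by
    show ray (j 1) ξ = ξ
    rw [map_one, ray_one]
  mul_smul a b ξ := by
    show ray (j (a * b)) ξ = ray (j a) (ray (j b) ξ)
    rw [map_mul, ray_mul]

theorem E0_fix (j : E →* TA X) {ξ : ℕ → X} (hfin : (orbR j ξ).Finite) {m : ℕ}
    (hm : (orbR j ξ).ncard ≤ m) {a : E} (ha : a ∈ H76.Pump.E0 E m) : ray (j a) ξ = ξ := by
  let _ : MulAction E (ℕ → X) := rayAct j
  have h1 : MulAction.orbit E ξ = orbR j ξ := by
    ext η
    constructor
    · rintro ⟨e, rfl⟩; exact ⟨e, rfl⟩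
    · rintro ⟨e, rfl⟩; exact ⟨e, rfl⟩
  exact H76.Pump.E0_smul ha ξ (by rw [h1]; exact hfin) (by rw [h1]; exact hm)

theorem E0_anti {G : Type u} [Group G] {m n : ℕ} (h : m ≤ n) : H76.Pump.E0 G n ≤ H76.Pump.E0 G m := by
  intro g hg
  unfold H76.Pump.E0
  rw [Subgroup.mem_iInf]
  intro k
  rw [Subgroup.mem_iInf]
  intro ψ
  exact H76.Pump.E0_apply hg (by rw [Nat.card_fin]; omega) ψ

theorem exists_moved {g : TA X} {ξ : ℕ → X} (h : ray g ξ ≠ ξ) :
    ∃ n, g (pref ξ n) ≠ pref ξ n := by
  by_contra hcon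
  push Not at hcon
  exact h (ray_eq_iff.2 hcon)

/-- **Baire.** If all orbits of bad rays are finite, a subgroup of finite index fixes all bad rays
in some cylinder. -/
theorem baire [Finite X] [Nonempty X] (hfg : Group.FG E) (j : E →* TA X)
    (hne : (BadR j).Nonempty) (horb : ∀ ξ ∈ BadR j, (orbR j ξ).Finite) :
    ∃ (w : List X) (K : Subgroup E), K.FiniteIndex ∧ (∃ ξ ∈ BadR j, pref ξ w.length = w) ∧
      ∀ ξ ∈ BadR j, pref ξ w.length = w → ∀ a ∈ K, ray (j a) ξ = ξ := by
  classical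
  by_contra hcon
  push Not at hcon
  -- a longer word and a moving element
  have step : ∀ (n : ℕ) (w : List X), (∃ ξ ∈ BadR j, pref ξ w.length = w) →
      ∃ w' : List X, w <+: w' ∧ w.length < w'.length ∧ (∃ ξ ∈ BadR j, pref ξ w'.length = w') ∧
        ∃ a ∈ H76.Pump.E0 E n, j a w' ≠ w' := by
    intro n w hw
    obtain ⟨ξ, hξ, hξw, a, ha, hne⟩ := hcon w _ (H76.Pump.E0_finiteIndex hfg n) hw
    obtain ⟨k, hk⟩ := exists_moved hne
    refine ⟨pref ξ (w.length + 1 + k), ?_, ?_, ⟨ξ, hξ, by rw [length_pref]⟩, a, ha, ?_⟩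
    · rw [add_assoc, pref_add, hξw]
      exact List.prefix_append _ _
    · rw [length_pref]; omega
    · intro h
      apply hk
      have h1 : w.length + 1 + k = k + (w.length + 1) := by omega
      rw [h1, pref_add, TA.append] at h
      exact List.append_inj_left h (TA.length _ _)
  obtain ⟨ξ₀, hξ₀⟩ := hne
  let seq : ℕ → {w : List X // ∃ ξ ∈ BadR j, pref ξ w.length = w} := fun n =>
    Nat.rec ⟨[], ξ₀, hξ₀, rfl⟩ (fun n w => ⟨(step n w.1 w.2).choose,
      (step n w.1 w.2).choose_spec.2.2.1⟩) n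
  have hs : ∀ n, (seq n).1 <+: (seq (n + 1)).1 ∧ (seq n).1.length < (seq (n + 1)).1.length ∧
      ∃ a ∈ H76.Pump.E0 E n, j a (seq (n + 1)).1 ≠ (seq (n + 1)).1 := by
    intro n
    have h := (step n (seq n).1 (seq n).2).choose_spec
    exact ⟨h.1, h.2.1, h.2.2.2⟩
  have hlen : ∀ n, n ≤ (seq n).1.length := by
    intro n
    induction n with
    | zero => exact Nat.zero_le _
    | succ n ih =>
      have := (hs n).2.1
      omega
  have hpre : ∀ n k, (seq n).1 <+: (seq (n + k)).1 := by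
    intro n k
    induction k with
    | zero => exact List.prefix_rfl
    | succ k ih => exact ih.trans (hs (n + k)).1
  let η : ℕ → X := fun i => (seq (i + 1)).1[i]'(by have := hlen (i + 1); omega)
  have hη : ∀ n, pref η (seq n).1.length = (seq n).1 := by
    intro n
    apply List.ext_getElem
    · rw [length_pref]
    · intro i h1 h2
      rw [length_pref] at h1
      rw [pref_get _ _ _ h1]
      show (seq (i + 1)).1[i]'_ = _
      rcases le_total n (i + 1) with h3 | h3
      · have h4 : (seq n).1 <+: (seq (i + 1)).1 := by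
          have := hpre n (i + 1 - n)
          rwa [Nat.add_sub_cancel' h3] at this
        exact (List.IsPrefix.getElem h4 h2).symm
      · have h4 : (seq (i + 1)).1 <+: (seq n).1 := by
          have := hpre (i + 1) (n - (i + 1))
          rwa [Nat.add_sub_cancel' h3] at this
        exact List.IsPrefix.getElem h4 _
  have hηD : η ∈ BadR j := by
    intro n hn
    obtain ⟨ξ, hξ, hξw⟩ := (seq n).2
    apply hξ (seq n).1.length
    rw [hξw, ← hη n]
    obtain ⟨k, hk⟩ := Nat.exists_eq_add_of_le (hlen n)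
    rw [hk, pref_add]
    exact hn.down _
  obtain ⟨a, ha, hne⟩ := (hs (orbR j η).ncard).2.2
  apply hne
  have h1 := E0_fix j (horb η hηD) le_rfl ha
  have h2 := ray_eq_iff.1 h1 (seq ((orbR j η).ncard + 1)).1.length
  have h3 := hη ((orbR j η).ncard + 1)
  rw [h3] at h2
  exact h2

end Pool.Agent.Lib.H8PA
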