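import Pool.Agent.Lib.H8PA.V3
import Pool.Agent.Lib.H8PA.V4

/-!
# H8PA endgame, V5: Theorem C
-/

namespace Pool.Agent.Lib.H8PA

open Pool.Agent.Lib.Helper67.BA TA

universe u

variable {X : Type} {E : Type u} [Group E]

/-- the words `v` such that some bad ray passes through `w ++ v` -/
def TT (j : E →* TA X) (w : List X) : Set (List X) :=
  {v | ∃ ξ ∈ BadR j, pref ξ (w ++ v).length = w ++ v}

theorem TT_pc (j : E →* TA X) (w : List X) : PC (TT j w) := by
  rintro u v ⟨ξ, hξ, h⟩
  refine ⟨ξ, hξ, ?_⟩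
  rw [← List.append_assoc, List.length_append, pref_add] at h
  exact List.append_inj_left h (by simp)

theorem VA_of_not_mem [Finite X] [Nonempty X] {j : E →* TA X} {w v : List X}
    (h : v ∉ TT j w) : VA j (w ++ v) := by
  by_contra hcon
  obtain ⟨ξ, h1, h2⟩ := exists_ray_notVA hcon
  exact h ⟨ξ, h2, h1⟩

/-- `K` fixes all bad rays through `w` -/
def FixB (j : E →* TA X) (w : List X) (K : Subgroup E) : Prop :=
  ∀ ξ ∈ BadR j, pref ξ w.length = w → ∀ a ∈ K, ray (j a) ξ = ξ

theorem FixB.fix {j : E →* TA X} {w : List X} {K : Subgroup E} (hK : FixB j w K)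
    {v : List X} (hv : v ∈ TT j w) {a : E} (ha : a ∈ K) : j a (w ++ v) = w ++ v := by
  obtain ⟨ξ, hξ, h⟩ := hv
  have h1 : pref ξ w.length = w := by
    rw [List.length_append, pref_add] at h
    exact List.append_inj_left h (by simp)
  have h2 := ray_eq_iff.1 (hK ξ hξ h1 a ha) (w ++ v).length
  rwa [h] at h2

theorem FixB.letter {j : E →* TA X} {w : List X} {K : Subgroup E} (hK : FixB j w K)
    {v : List X} (hv : v ∈ TT j w) {x : X} (hx : v ++ [x] ∈ TT j w) {a : E} (ha : a ∈ K) :
    H8PA.letter (TA.sec (j a) (w ++ v)) x = x := by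
  have h1 := hK.fix hx ha
  rw [← List.append_assoc, TA.append, hK.fix hv ha, letter_spec] at h1
  have h2 := List.append_cancel_left h1
  simpa using h2

/-- the cut sections -/
noncomputable def theta (j : E →* TA X) (w : List X) (K : Subgroup E) (hK : FixB j w K)
    (v : TT j w) : K →* TA X where
  toFun a := cut {x | v.1 ++ [x] ∈ TT j w} (TA.sec (j a.1) (w ++ v.1))
  map_one' := by
    show cut _ (TA.sec (j 1) (w ++ v.1)) = 1
    rw [map_one, sec_one, cut_one]
  map_mul' a b := by
    show cut _ (TA.sec (j (a.1 * b.1)) (w ++ v.1)) = _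
    rw [map_mul, sec_mul, hK.fix v.2 b.2]
    exact cut_mul fun x hx => hK.letter v.2 hx b.2

theorem theta_apply (j : E →* TA X) (w : List X) (K : Subgroup E) (hK : FixB j w K)
    (v : TT j w) (a : K) : theta j w K hK v a =
      cut {x | v.1 ++ [x] ∈ TT j w} (TA.sec (j a.1) (w ++ v.1)) := rfl

theorem theta_virt [Finite X] [Nonempty X] (j : E →* TA X) (w : List X) (K : Subgroup E)
    (hK : FixB j w K) (v : TT j w) : ∃ A : Subgroup K, A.FiniteIndex ∧
      ∀ a ∈ A, ∀ b ∈ A, theta j w K hK v (a * b) = theta j w K hK v (b * a) := by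
  classical
  have h1 : ∀ x : X, ∃ L : Subgroup E, L.FiniteIndex ∧ (v.1 ++ [x] ∉ TT j w →
      (∀ a ∈ L, j a (w ++ (v.1 ++ [x])) = w ++ (v.1 ++ [x])) ∧
      ∀ a ∈ L, ∀ b ∈ L, TA.sec (j (a * b)) (w ++ (v.1 ++ [x])) =
        TA.sec (j (b * a)) (w ++ (v.1 ++ [x]))) := by
    intro x
    by_cases hx : v.1 ++ [x] ∈ TT j w
    · exact ⟨⊤, inferInstance, fun h => absurd hx h⟩
    · obtain ⟨L, h1, h2, h3⟩ := VA_of_not_mem hx
      exact ⟨L, h1, fun _ => ⟨h2, h3⟩⟩
  choose L hL1 hL2 using h1
  have hfi : (⨅ x, L x).FiniteIndex := Subgroup.finiteIndex_iInf hL1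
  refine ⟨(⨅ x, L x).subgroupOf K, inferInstance, fun a ha b hb => ?_⟩
  have haL : ∀ x, a.1 ∈ L x := fun x => Subgroup.mem_iInf.1 ha x
  have hbL : ∀ x, b.1 ∈ L x := fun x => Subgroup.mem_iInf.1 hb x
  have hfixl : ∀ c : K, (∀ x, c.1 ∈ L x) → ∀ x, H8PA.letter (TA.sec (j c.1) (w ++ v.1)) x = x := by
    intro c hc x
    by_cases hx : v.1 ++ [x] ∈ TT j w
    · exact hK.letter v.2 hx c.2
    · have h2 := (hL2 x hx).1 c.1 (hc x)
      rw [← List.append_assoc, TA.append, hK.fix v.2 c.2, letter_spec] at h2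
      have h3 := List.append_cancel_left h2
      simpa using h3
  rw [theta_apply, theta_apply]
  apply eq_of_letters
  · intro x
    rw [cut_letter, cut_letter, hfixl (a * b) (fun x => mul_mem (haL x) (hbL x)),
      hfixl (b * a) (fun x => mul_mem (hbL x) (haL x))]
  · intro x
    by_cases hx : v.1 ++ [x] ∈ TT j w
    · rw [cut_sec_mem _ (by exact hx), cut_sec_mem _ (by exact hx)]
    · rw [cut_sec_not_mem _ (by exact hx), cut_sec_not_mem _ (by exact hx), ← sec_append,
        ← sec_append, List.append_assoc]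
      exact (hL2 x hx).2 a.1 (haL x) b.1 (hbL x)

theorem theta_range_finite [Finite X] (hfg : Group.FG E) (j : E →* TA X)
    (hQ : ∀ e, QT (j e)) (w : List X) (K : Subgroup E) (hKf : K.FiniteIndex)
    (hK : FixB j w K) : (Set.range (theta j w K hK)).Finite := by
  classical
  have hKfg : Group.FG K := Subgroup.fg_of_index_ne_zero K
  obtain ⟨S, hS⟩ := Group.fg_def.1 hKfg
  -- each generator has finitely many values
  have h1 : ∀ s : K, (Set.range fun v : TT j w => theta j w K hK v s).Finite := by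
    intro s
    let T' : Set (List X) := {u | u <+: w ∨ ∃ v ∈ TT j w, u = w ++ v}
    have hT' : PC T' := by
      rintro u t (h | ⟨v, hv, h⟩)
      · exact Or.inl ((List.prefix_append u t).trans h)
      · rcases List.prefix_or_prefix_of_prefix (List.prefix_append u t)
          (h ▸ List.prefix_append w v) with h2 | ⟨r, hr⟩
        · exact Or.inl h2
        · right
          refine ⟨r, ?_, hr.symm⟩
          rw [← hr, List.append_assoc] at h
          have h3 := List.append_cancel_left h
          rw [← h3] at hv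
          exact TT_pc j w _ _ hv
    exact cut_finite (fun v : TT j w => {x | v.1 ++ [x] ∈ TT j w})
      (fun v => TA.sec (j s.1) (w ++ v.1)) (hQ s.1 T' hT') (by
        intro v x hx
        rw [← sec_append]
        refine ⟨w ++ v.1, Or.inr ⟨v.1, v.2, rfl⟩, x, ?_, rfl⟩
        rintro (h | ⟨v', hv', h⟩)
        · have := h.length_le
          simp at this
        · apply hx
          rw [List.append_assoc] at h
          show v.1 ++ [x] ∈ TT j w
          rw [List.append_cancel_left h]
          exact hv')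
  apply Set.Finite.of_finite_image (f := fun φ : K →* TA X => fun s : S => φ s.1)
  · apply (Set.Finite.pi' (ι := S) (fun s => h1 s.1)).subset
    rintro _ ⟨_, ⟨v, rfl⟩, rfl⟩ s
    exact ⟨v, rfl⟩
  · rintro φ _ ψ _ h
    apply MonoidHom.eq_of_eqOn_dense hS
    intro s hs
    exact congrFun h ⟨s, hs⟩

/-- **Theorem C.** -/
theorem theoremC [Finite X] [Nonempty X] (hfg : Group.FG E) (j : E →* TA X)
    (hQ : ∀ e, QT (j e)) (hinf : ∀ ξ, ¬ (orbR j ξ).Finite → ∃ n, VA j (pref ξ n)) :
    VA j [] := by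
  classical
  by_contra hcon
  obtain ⟨ξ₀, -, hξ₀⟩ := exists_ray_notVA hcon
  obtain ⟨w, K, hKf, hw, hK⟩ := baire hfg j ⟨ξ₀, hξ₀⟩ (fun ξ hξ => by
    by_contra h
    obtain ⟨n, hn⟩ := hinf ξ h
    exact hξ n hn)
  have hK' : FixB j w K := hK
  have hfin := theta_range_finite hfg j hQ w K hKf hK'
  have h1 : ∀ φ : K →* TA X, ∃ A : Subgroup K, A.FiniteIndex ∧ (φ ∈ Set.range (theta j w K hK') →
      ∀ a ∈ A, ∀ b ∈ A, φ (a * b) = φ (b * a)) := by
    intro φ
    by_cases hφ : φ ∈ Set.range (theta j w K hK')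
    · obtain ⟨v, rfl⟩ := hφ
      obtain ⟨A, hA, h⟩ := theta_virt j w K hK' v
      exact ⟨A, hA, fun _ => h⟩
    · exact ⟨⊤, inferInstance, fun h => absurd h hφ⟩
  choose A hA1 hA2 using h1
  have : Finite (Set.range (theta j w K hK')) := hfin.to_subtype
  let B : Subgroup K := ⨅ φ : Set.range (theta j w K hK'), A φ.1
  have hB : B.FiniteIndex := Subgroup.finiteIndex_iInf fun φ => hA1 φ.1
  have hBc : ∀ v : TT j w, ∀ a ∈ B, ∀ b ∈ B,
      theta j w K hK' v (a * b) = theta j w K hK' v (b * a) := by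
    intro v a ha b hb
    have h2 := Subgroup.mem_iInf.1 ha ⟨_, v, rfl⟩
    have h3 := Subgroup.mem_iInf.1 hb ⟨_, v, rfl⟩
    exact hA2 _ ⟨v, rfl⟩ a h2 b h3
  -- `w` is virtually abelian
  have hVA : VA j w := by
    refine ⟨B.map K.subtype, ?_, ?_, ?_⟩
    · constructor
      rw [Subgroup.index_map_subtype]
      exact mul_ne_zero hB.index_ne_zero hKf.index_ne_zero
    · rintro _ ⟨a, -, rfl⟩
      have h2 := hK'.fix (v := []) (by
        obtain ⟨ξ, h3, h4⟩ := hw
        exact ⟨ξ, h3, by rw [List.append_nil]; exact h4⟩) a.2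
      rw [List.append_nil] at h2
      exact h2
    · rintro _ ⟨a, ha, rfl⟩ _ ⟨b, hb, rfl⟩
      have hnil : [] ∈ TT j w := by
        obtain ⟨ξ, h3, h4⟩ := hw
        exact ⟨ξ, h3, by rw [List.append_nil]; exact h4⟩
      have hfixw : ∀ c : K, j c.1 w = w := by
        intro c
        have h2 := hK'.fix hnil c.2
        rwa [List.append_nil] at h2
      let c : K := a * b * (b * a)⁻¹
      have hθ : ∀ v : TT j w, theta j w K hK' v c = 1 := by
        intro v
        rw [map_mul, map_inv, mul_inv_eq_one]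
        exact hBc v a ha b hb
      have key : ∀ u v : List X, v ∈ TT j w → j c.1 (w ++ v ++ u) = w ++ v ++ u := by
        intro u
        induction u with
        | nil =>
          intro v hv
          rw [List.append_nil]
          exact hK'.fix hv c.2
        | cons x u ih =>
          intro v hv
          by_cases hx : v ++ [x] ∈ TT j w
          · have h2 := ih (v ++ [x]) hx
            simpa using h2
          · rw [TA.append, hK'.fix hv c.2]
            have h2 : cut {x | v ++ [x] ∈ TT j w} (TA.sec (j c.1) (w ++ v)) = 1 := hθ ⟨v, hv⟩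
            have h3 := cut_cons (P := {x | v ++ [x] ∈ TT j w}) (g := TA.sec (j c.1) (w ++ v))
              (x := x) hx u
            rw [h2, one_apply] at h3
            rw [← h3]
      have hsec : TA.sec (j c.1) w = 1 := by
        apply sec_unique
        intro u
        have h2 := key u [] hnil
        rw [List.append_nil] at h2
        rw [h2, hfixw, one_apply]
      have h4 : a.1 * b.1 = c.1 * (b.1 * a.1) := by
        show a.1 * b.1 = (a.1 * b.1 * (b.1 * a.1)⁻¹) * (b.1 * a.1)
        group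
      show TA.sec (j (a.1 * b.1)) w = TA.sec (j (b.1 * a.1)) w
      rw [h4, map_mul, sec_mul, show j (b.1 * a.1) w = w from hfixw (b * a), hsec, one_mul]
  obtain ⟨ξ, hξ, hξw⟩ := hw
  apply hξ w.length
  rw [hξw]
  exact hVA

/-- Theorem C without finite orbits -/
theorem theoremC' [Finite X] [Nonempty X] (j : E →* TA X)
    (hinf : ∀ ξ, ∃ n, VA j (pref ξ n)) : VA j [] := VA_nil hinf

/-- conclusion for the image -/
theorem VA.range {j : E →* TA X} (h : VA j []) :
    ∃ K : Subgroup E, K.FiniteIndex ∧ ∀ a ∈ K, ∀ b ∈ K, j (a * b) = j (b * a) := by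
  obtain ⟨K, h1, -, h2⟩ := h
  refine ⟨K, h1, fun a ha b hb => ?_⟩
  have := h2 a ha b hb
  rwa [sec_nil, sec_nil] at this

end Pool.Agent.Lib.H8PA
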