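import Pool.Agent.Lib.H8PA.V5

/-!
# H8PA endgame, V6: interface (Theorem C, the group of automorphisms with `Qp`)
-/

namespace Pool.Agent.Lib.H8PA

open Pool.Agent.Lib.Helper67.BA TA

universe u

variable {X : Type}

theorem pc_iff {T : Set (List X)} : PC T ↔ ∀ (v : List X) (x : X), v ++ [x] ∈ T → v ∈ T := by
  constructor
  · intro h v x hv
    exact h v [x] hv
  · intro h u w
    induction w using List.reverseRecOn with
    | nil => intro hw; rwa [List.append_nil] at hw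
    | append_singleton w x ih =>
      intro hw
      rw [← List.append_assoc] at hw
      exact ih (h _ _ hw)

theorem Qp_iff {g : TA X} : Qp g ↔ QT g := by
  constructor
  · intro h T hT
    apply (h T (pc_iff.1 hT)).subset
    rintro s ⟨v, hv, x, hx, rfl⟩
    exact ⟨v, x, hv, hx, rfl⟩
  · intro h T hT
    apply (h T (pc_iff.2 hT)).subset
    rintro s ⟨v, x, hv, hx, rfl⟩
    exact ⟨v, hv, x, hx, rfl⟩

theorem Qp.one : Qp (1 : TA X) := Qp_iff.2 QT.one

theorem Qp.mul {a b : TA X} (ha : Qp a) (hb : Qp b) : Qp (a * b) :=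
  Qp_iff.2 ((Qp_iff.1 ha).mul (Qp_iff.1 hb))

theorem Qp.inv {a : TA X} (ha : Qp a) : Qp a⁻¹ := Qp_iff.2 (Qp_iff.1 ha).inv

/-- finite-state automorphisms -/
theorem Qp_of_finiteState {g : TA X} (h : (Set.range (TA.sec g)).Finite) : Qp g :=
  Qp_iff.2 (QT_of_finite h)

/-- bounded automorphisms of bounded depth -/
theorem Qp_of_bdd [Finite X] [Nonempty X] {g : TA X} (hg : Bdd g) : Qp g :=
  Qp_iff.2 (QT_of_bdd hg)

variable {E : Type u} [Group E]

theorem infOrb_iff {j : E →* TA X} {ξ : ℕ → X} : InfOrb j ξ ↔ ¬ (orbR j ξ).Finite := by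
  have h : (Set.range fun e : E => ray (j e) ξ) = orbR j ξ := rfl
  unfold InfOrb
  rw [h]
  exact Iff.rfl

/-- **Theorem C.** -/
theorem thmC [Finite X] [Nonempty X] (hfg : Group.FG E) (j : E →* TA X)
    (hQ : ∀ e, Qp (j e)) (hinf : ∀ ξ, InfOrb j ξ → ∃ n, VA j (pref ξ n)) : VA j [] :=
  theoremC hfg j (fun e => Qp_iff.1 (hQ e)) fun ξ h => hinf ξ (infOrb_iff.2 h)

end Pool.Agent.Lib.H8PA
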