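import Pool.Agent.Lib.H8PA.Defs

/-!
# H8PA W1: accumulation sets of components
-/

namespace Pool.Agent.Lib.H8PA

open Pool.Agent.Lib.Helper67.BA

universe u

variable {X : Type} {E : Type u} [Group E]

/-- accumulation points -/
def W1_acc (K : Set (ℕ → X)) : Set (ℕ → X) := {ζ | ∀ n, ∃ y ∈ K, y ≠ ζ ∧ pref y n = pref ζ n}

theorem W1_le {ξ η : ℕ → X} {n N : ℕ} (hn : n ≤ N) (h : pref ξ N = pref η N) :
    pref ξ n = pref η n := by
  obtain ⟨k, rfl⟩ := Nat.exists_eq_add_of_le hn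
  rw [pref_add, pref_add] at h
  exact List.append_inj_left h (by simp)

theorem W1_move (g : TA X) {ξ η : ℕ → X} {n : ℕ} :
    pref (ray g ξ) n = pref (ray g η) n ↔ pref ξ n = pref η n := by
  rw [pref_ray, pref_ray]
  exact ⟨fun h => TA.inj g h, fun h => by rw [h]⟩

theorem W1_symm (j : E →* TA X) (A : Set (ℕ → X)) (B : Set E) (hB : ∀ b ∈ B, b⁻¹ ∈ B)
    {x y : ℕ → X} (hx : x ∈ A) (h : y ∈ Comp j A B x) : x ∈ Comp j A B y ∧ y ∈ A := by
  have h' : Relation.ReflTransGen (fun a b => b ∈ A ∧ ∃ e ∈ B, ray (j e) a = b) x y := h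
  induction h' with
  | refl => exact ⟨Relation.ReflTransGen.refl, hx⟩
  | tail h1 h2 ih =>
    rename_i b c
    obtain ⟨ih1, ih2⟩ := ih h1
    obtain ⟨hc, e, he, rfl⟩ := h2
    refine ⟨?_, hc⟩
    refine Relation.ReflTransGen.head ⟨ih2, e⁻¹, hB e he, ?_⟩ ih1
    rw [map_inv, ray_inv_ray]

/-- The components in the accumulation set of a component are infinite. -/
theorem W1_acc_comp (j : E →* TA X) (A : Set (ℕ → X)) (B : Set E) (hBf : B.Finite)
    (hB : ∀ b ∈ B, b⁻¹ ∈ B) {x₀ : ℕ → X} (hx₀ : x₀ ∈ A) {ζ : ℕ → X}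
    (hζ : ζ ∈ W1_acc (Comp j A B x₀)) :
    (Comp j (W1_acc (Comp j A B x₀)) B ζ).Infinite := by
  classical
  intro hC
  set K := Comp j A B x₀ with hK
  set C := Comp j (W1_acc K) B ζ with hCdef
  have hζC : ζ ∈ C := Relation.ReflTransGen.refl
  have e1 : ∀ᶠ n in Filter.atTop, ∀ c ∈ C, ∀ g ∈ B, ray (j g) c ∉ W1_acc K →
      ∀ y ∈ K, pref y n = pref (ray (j g) c) n → y = ray (j g) c := by
    rw [Filter.eventually_all_finite hC]
    intro c _
    rw [Filter.eventually_all_finite hBf]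
    intro g _
    by_cases hgc : ray (j g) c ∈ W1_acc K
    · exact Filter.Eventually.of_forall fun n h => absurd hgc h
    · have h2 : ∃ n, ∀ y ∈ K, pref y n = pref (ray (j g) c) n → y = ray (j g) c := by
        by_contra hcon
        push Not at hcon
        apply hgc
        intro n
        obtain ⟨y, hy, hy2, hy3⟩ := hcon n
        exact ⟨y, hy, hy3, hy2⟩
      obtain ⟨n0, hn0⟩ := h2
      filter_upwards [Filter.eventually_ge_atTop n0] with n hn _ y hy hag
      exact hn0 y hy (W1_le hn hag)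
  have e2 : ∀ᶠ n in Filter.atTop, ∀ c ∈ C, ∀ c' ∈ C, c ≠ c' → pref c n ≠ pref c' n := by
    rw [Filter.eventually_all_finite hC]
    intro c _
    rw [Filter.eventually_all_finite hC]
    intro c' _
    by_cases hcc : c = c'
    · exact Filter.Eventually.of_forall fun n h => absurd hcc h
    · have h2 : ∃ n, pref c n ≠ pref c' n := by
        by_contra h
        push Not at h
        exact hcc (ray_ext h)
      obtain ⟨n0, hn0⟩ := h2
      filter_upwards [Filter.eventually_ge_atTop n0] with n hn _ hag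
      exact hn0 (W1_le hn hag)
  obtain ⟨N, hN1, hN2⟩ := (e1.and e2).exists
  obtain ⟨x, hx, hxne, hxN⟩ := hζ N
  have hex : ∃ n, pref x n ≠ pref ζ n := by
    by_contra h
    push Not at h
    exact hxne (ray_ext h)
  have hf := Nat.find_spec hex
  have hlt : N < Nat.find hex := by
    by_contra h
    push Not at h
    exact hf (W1_le h hxN)
  obtain ⟨lam, hlam⟩ : ∃ lam, Nat.find hex = lam + 1 := ⟨Nat.find hex - 1, by omega⟩
  rw [hlam] at hf hlt
  have hNlam : N ≤ lam := by omega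
  have hlam1 : pref x lam = pref ζ lam := by
    have := Nat.find_min hex (m := lam) (by omega)
    exact not_not.1 this
  have hKA : ∀ y ∈ K, y ∈ A := fun y hy => (W1_symm j A B hB hx₀ hy).2
  have claim : ∀ y, Relation.ReflTransGen (fun a b => b ∈ A ∧ ∃ e ∈ B, ray (j e) a = b) x y →
      y ∈ K ∧ ∃ c ∈ C, pref y lam = pref c lam ∧ pref y (lam + 1) ≠ pref c (lam + 1) := by
    intro y hy
    induction hy with
    | refl => exact ⟨hx, ζ, hζC, hlam1, hf⟩
    | tail _ h2 ih =>
      rename_i b z _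
      obtain ⟨hbK, c, hc, hc1, hc2⟩ := ih
      obtain ⟨hzA, g, hg, rfl⟩ := h2
      have hgK : ray (j g) b ∈ K := Relation.ReflTransGen.tail hbK ⟨hzA, g, hg, rfl⟩
      have h3 : pref (ray (j g) b) lam = pref (ray (j g) c) lam := (W1_move _).2 hc1
      have h4 : pref (ray (j g) b) (lam + 1) ≠ pref (ray (j g) c) (lam + 1) :=
        fun h => hc2 ((W1_move _).1 h)
      have h6 : ray (j g) c ∈ W1_acc K := by
        by_contra h
        have h7 := hN1 c hc g hg h _ hgK (W1_le hNlam h3)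
        exact h4 (by rw [h7])
      exact ⟨hgK, _, Relation.ReflTransGen.tail hc ⟨h6, g, hg, rfl⟩, h3, h4⟩
  obtain ⟨y, hy, -, hyag⟩ := hζ (lam + 1)
  have hxy : Relation.ReflTransGen (fun a b => b ∈ A ∧ ∃ e ∈ B, ray (j e) a = b) x y :=
    Relation.ReflTransGen.trans (W1_symm j A B hB hx₀ hx).1 hy
  obtain ⟨-, c, hc, hc1, hc2⟩ := claim y hxy
  have hcζ : c ≠ ζ := by
    rintro rfl
    exact hc2 hyag
  have h8 : pref c lam = pref ζ lam := hc1.symm.trans (W1_le (Nat.le_succ _) hyag)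
  exact hN2 c hc ζ hζC hcζ (W1_le hNlam h8)

end Pool.Agent.Lib.H8PA
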