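import Pool.Agent.Lib.H8PA.W1

/-!
# H8PA W2: countable singular sets have finite components (HYP F)
-/

namespace Pool.Agent.Lib.H8PA

open Pool.Agent.Lib.Helper67.BA

universe u

variable {X : Type} {E : Type u} [Group E]

/-- closed sets of rays -/
def W2_cl (A : Set (ℕ → X)) : Prop := ∀ ξ, (∀ n, ∃ η ∈ A, pref η n = pref ξ n) → ξ ∈ A

theorem W2_nil (j : E →* TA X) {A : Set (ℕ → X)} {B : Set E} {x : ℕ → X} :
    x ∈ Comp j A B x := Relation.ReflTransGen.refl

theorem W2_pref_iff {ξ η : ℕ → X} {n : ℕ} : pref ξ n = pref η n ↔ ∀ i < n, ξ i = η i := by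
  constructor
  · intro h i hi
    rw [← pref_get ξ n i hi, ← pref_get η n i hi]
    congr 1
  · intro h
    apply List.ext_getElem
    · simp
    · intro i h1 h2
      rw [length_pref] at h1
      rw [pref_get _ _ _ h1, pref_get _ _ _ h1]
      exact h i h1

theorem W2_open [TopologicalSpace X] [DiscreteTopology X] (ξ : ℕ → X) (n : ℕ) :
    IsOpen {η : ℕ → X | pref η n = pref ξ n} := by
  have h : {η : ℕ → X | pref η n = pref ξ n} = ⋂ i ∈ Set.Iio n, {η | η i = ξ i} := by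
    ext η
    simp only [Set.mem_ofPred_eq, W2_pref_iff, Set.mem_iInter, Set.mem_Iio]
  rw [h]
  apply Set.Finite.isOpen_biInter (Set.finite_Iio n)
  intro i _
  exact (isOpen_discrete ({ξ i} : Set X)).preimage (continuous_apply (A := fun _ : ℕ => X) i)

theorem W2_cl_iff [TopologicalSpace X] [DiscreteTopology X] (A : Set (ℕ → X)) :
    W2_cl A ↔ IsClosed A := by
  constructor
  · intro h
    rw [← isOpen_compl_iff, isOpen_iff_mem_nhds]
    intro ξ hξ
    have h1 : ∃ n, ∀ η ∈ A, pref η n ≠ pref ξ n := by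
      by_contra hcon
      push Not at hcon
      exact hξ (h ξ hcon)
    obtain ⟨n, hn⟩ := h1
    filter_upwards [(W2_open ξ n).mem_nhds rfl] with η hη hηA
    exact hn η hηA hη
  · intro h ξ hξ
    have h1 : ξ ∈ closure A := by
      rw [mem_closure_iff_nhds]
      intro U hU
      rw [nhds_pi] at hU
      obtain ⟨I, hI, t, ht, htU⟩ := Filter.mem_pi.1 hU
      obtain ⟨N, hN⟩ := hI.bddAbove
      obtain ⟨η, hη, hηN⟩ := hξ (N + 1)
      refine ⟨η, htU ?_, hη⟩
      intro i hi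
      have h2 := (W2_pref_iff.1 hηN) i (Nat.lt_succ_of_le (hN hi))
      rw [h2]
      exact mem_of_mem_nhds (ht i)
    rwa [h.closure_eq] at h1

theorem W2_cl_Sg (g : TA X) : W2_cl (Sg g) := by
  intro ξ hξ n
  obtain ⟨η, hη, h⟩ := hξ n
  rw [← h]
  exact hη n

theorem W2_cl_acc (K : Set (ℕ → X)) : W2_cl (W1_acc K) := by
  intro ξ hξ n
  obtain ⟨ζ, hζ, h⟩ := hξ n
  by_cases h0 : ζ = ξ
  · obtain ⟨y, hy, hy1, hy2⟩ := hζ n
    exact ⟨y, hy, h0 ▸ hy1, hy2.trans h⟩
  · have h1 : ∃ k, pref ζ k ≠ pref ξ k := by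
      by_contra hcon
      push Not at hcon
      exact h0 (ray_ext hcon)
    obtain ⟨k, hk⟩ := h1
    obtain ⟨y, hy, hy1, hy2⟩ := hζ (max k n)
    refine ⟨y, hy, ?_, (W1_le (le_max_right _ _) hy2).trans h⟩
    rintro rfl
    exact hk (W1_le (le_max_left _ _) hy2).symm

theorem W2_acc_sub {A K : Set (ℕ → X)} (hA : W2_cl A) (h : K ⊆ A) : W1_acc K ⊆ A := by
  intro ζ hζ
  apply hA
  intro n
  obtain ⟨y, hy, -, hy2⟩ := hζ n
  exact ⟨y, h hy, hy2⟩

theorem W2_acc_nonempty [Finite X] {K : Set (ℕ → X)} (hK : K.Infinite) :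
    (W1_acc K).Nonempty := by
  let _ : TopologicalSpace X := ⊥
  have : DiscreteTopology X := ⟨rfl⟩
  obtain ⟨ζ, hζ⟩ := hK.exists_accPt_principal
  refine ⟨ζ, fun n => ?_⟩
  rw [accPt_iff_nhds] at hζ
  obtain ⟨y, ⟨hy1, hy2⟩, hne⟩ := hζ _ ((W2_open ζ n).mem_nhds rfl)
  exact ⟨y, hy2, hne, hy1⟩

theorem W2_comp_sub (j : E →* TA X) {A : Set (ℕ → X)} {B : Set E} {x : ℕ → X} (hx : x ∈ A) :
    Comp j A B x ⊆ A := by
  intro y hy
  have h' : Relation.ReflTransGen (fun a b => b ∈ A ∧ ∃ e ∈ B, ray (j e) a = b) x y := hy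
  induction h' with
  | refl => exact hx
  | tail _ h2 _ => exact h2.1

/-- isolated points of countable closed sets -/
theorem W2_isolated [Finite X] {A : Set (ℕ → X)} (hA : W2_cl A) (hc : A.Countable)
    (hne : A.Nonempty) : ∃ ξ ∈ A, ∃ n, ∀ η ∈ A, pref η n = pref ξ n → η = ξ := by
  let _ : TopologicalSpace X := ⊥
  have : DiscreteTopology X := ⟨rfl⟩
  have hcl : IsClosed A := (W2_cl_iff A).1 hA
  have : CompactSpace A := isCompact_iff_compactSpace.1 hcl.isCompact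
  have : Nonempty A := hne.to_subtype
  have : Countable A := hc.to_subtype
  obtain ⟨ξ, hξ⟩ := nonempty_interior_of_iUnion_of_closed (X := A)
    (f := fun a : A => ({a} : Set A)) (fun a => isClosed_singleton) (by ext a; simp)
  obtain ⟨a, ha⟩ := hξ
  have ha' : a ∈ ({ξ} : Set A) := interior_subset ha
  have ha'' : a = ξ := ha'
  subst ha''
  refine ⟨a.1, a.2, ?_⟩
  rw [mem_interior_iff_mem_nhds, nhds_subtype, Filter.mem_comap] at ha
  obtain ⟨U, hU, hUs⟩ := ha
  rw [nhds_pi] at hU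
  obtain ⟨I, hI, t, ht, htU⟩ := Filter.mem_pi.1 hU
  obtain ⟨N, hN⟩ := hI.bddAbove
  refine ⟨N + 1, fun η hη hηN => ?_⟩
  have h1 : (⟨η, hη⟩ : A) ∈ ({a} : Set A) := by
    apply hUs
    show η ∈ U
    apply htU
    intro i hi
    have h2 := (W2_pref_iff.1 hηN) i (Nat.lt_succ_of_le (hN hi))
    rw [h2]
    exact mem_of_mem_nhds (ht i)
  exact congrArg Subtype.val h1

/-- The intersection of a chain. -/
theorem W2_chain [Finite X] (j : E →* TA X) (B : Set E) (hBf : B.Finite)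
    (c : Set (Set (ℕ → X))) (hc : IsChain (· ⊆ ·) c) (hne : c.Nonempty)
    (h : ∀ A ∈ c, W2_cl A ∧ A.Nonempty ∧ ∀ x ∈ A, (Comp j A B x).Infinite) :
    W2_cl (⋂₀ c) ∧ (⋂₀ c).Nonempty ∧ ∀ x ∈ ⋂₀ c, (Comp j (⋂₀ c) B x).Infinite := by
  classical
  let _ : TopologicalSpace X := ⊥
  have : DiscreteTopology X := ⟨rfl⟩
  have : Nonempty c := hne.to_subtype
  have hdir : DirectedOn (· ⊇ ·) c := by
    intro A hA B hB
    rcases hc.total hA hB with h1 | h1
    · exact ⟨A, hA, subset_rfl, h1⟩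
    · exact ⟨B, hB, h1, subset_rfl⟩
  refine ⟨?_, ?_, ?_⟩
  · intro ξ hξ A hA
    apply (h A hA).1
    intro n
    obtain ⟨η, hη, h1⟩ := hξ n
    exact ⟨η, hη A hA, h1⟩
  · exact IsCompact.nonempty_sInter_of_directed_nonempty_isCompact_isClosed hdir
      (fun A hA => (h A hA).2.1) (fun A hA => ((W2_cl_iff A).1 (h A hA).1).isCompact)
      (fun A hA => (W2_cl_iff A).1 (h A hA).1)
  · intro x hx hfin
    set C := Comp j (⋂₀ c) B x with hC
    -- one member of the chain avoids all the neighbours outside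
    have h1 : ∀ (F : Set (ℕ → X)), F.Finite → (∀ y ∈ F, y ∉ ⋂₀ c) →
        ∃ A ∈ c, ∀ y ∈ F, y ∉ A := by
      intro F hF
      induction F, hF using Set.Finite.induction_on with
      | empty =>
        intro _
        obtain ⟨A, hA⟩ := hne
        exact ⟨A, hA, by simp⟩
      | @insert a s _ _ ih =>
        intro hh
        obtain ⟨A, hA, hA2⟩ := ih fun y hy => hh y (Set.mem_insert_of_mem _ hy)
        have h2 := hh a (Set.mem_insert _ _)
        simp only [Set.mem_sInter, not_forall] at h2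
        obtain ⟨A', hA', hA'2⟩ := h2
        rcases hc.total hA hA' with h3 | h3
        · refine ⟨A, hA, ?_⟩
          intro y hy
          rcases hy with rfl | hy
          · exact fun h4 => hA'2 (h3 h4)
          · exact hA2 y hy
        · refine ⟨A', hA', ?_⟩
          intro y hy
          rcases hy with rfl | hy
          · exact hA'2
          · exact fun h4 => hA2 y hy (h3 h4)
    obtain ⟨A, hA, hA2⟩ := h1
      ((Set.image2 (fun e y => ray (j e) y) B C) \ ⋂₀ c)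
      ((hBf.image2 _ hfin).subset Set.sdiff_subset) (fun y hy => hy.2)
    apply (h A hA).2.2 x (hx A hA)
    apply hfin.subset
    intro y hy
    have h' : Relation.ReflTransGen (fun a b => b ∈ A ∧ ∃ e ∈ B, ray (j e) a = b) x y := hy
    induction h' with
    | refl => exact W2_nil j
    | tail h3 h4 ih =>
      rename_i b z
      obtain ⟨hz, e, he, rfl⟩ := h4
      have h5 := ih h3
      have h6 : ray (j e) b ∈ ⋂₀ c := by
        by_contra hcon
        exact hA2 _ ⟨⟨e, he, _, h5, rfl⟩, hcon⟩ hz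
      exact Relation.ReflTransGen.tail h5 ⟨h6, e, he, rfl⟩

/-- **Lemma FC.** In a countable closed set of rays all components are finite. -/
theorem W2_comp_finite [Finite X] (j : E →* TA X) (B : Set E) (hBf : B.Finite)
    (hB : ∀ b ∈ B, b⁻¹ ∈ B) (A : Set (ℕ → X)) (hA : W2_cl A) (hc : A.Countable) :
    ∀ x ∈ A, (Comp j A B x).Finite := by
  classical
  intro x hx
  by_contra hinf
  let F : Set (Set (ℕ → X)) :=
    {D | D ⊆ A ∧ W2_cl D ∧ D.Nonempty ∧ ∀ y ∈ D, (Comp j D B y).Infinite}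
  have hacc : ∀ D, W2_cl D → D ⊆ A → ∀ y ∈ D, (Comp j D B y).Infinite →
      W1_acc (Comp j D B y) ∈ F := by
    intro D hD hDA y hy hinf
    refine ⟨(W2_acc_sub hD (W2_comp_sub j hy)).trans hDA, W2_cl_acc _,
      W2_acc_nonempty hinf, fun ζ hζ => W1_acc_comp j D B hBf hB hy hζ⟩
  have hF : W1_acc (Comp j A B x) ∈ F := hacc A hA subset_rfl x hx hinf
  obtain ⟨D, hDmin, -⟩ : ∃ D, Minimal (· ∈ F) D ∧ D ⊆ W1_acc (Comp j A B x) := by
    obtain ⟨m, hm, hm2⟩ := zorn_superset_nonempty F (by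
      intro c hcF hchain hne
      refine ⟨⋂₀ c, ?_, fun s hs => Set.sInter_subset_of_mem hs⟩
      obtain ⟨h1, h2, h3⟩ := W2_chain j B hBf c hchain hne fun D hD => (hcF hD).2
      obtain ⟨D, hD⟩ := hne
      exact ⟨(Set.sInter_subset_of_mem hD).trans (hcF hD).1, h1, h2, h3⟩) _ hF
    exact ⟨m, hm2, hm⟩
  obtain ⟨⟨hDA, hDcl, hDne, hDinf⟩, hmin⟩ := hDmin
  obtain ⟨ξ, hξ, n, hiso⟩ := W2_isolated hDcl (hc.mono hDA) hDne
  have h1 := hacc D hDcl hDA ξ hξ (hDinf ξ hξ)
  have h2 : W1_acc (Comp j D B ξ) ⊆ D := W2_acc_sub hDcl (W2_comp_sub j hξ)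
  have h3 : ξ ∈ W1_acc (Comp j D B ξ) := hmin h1 h2 hξ
  obtain ⟨y, hy, hne, hag⟩ := h3 n
  exact hne (hiso y (W2_comp_sub j hξ hy) hag)

theorem W2_comp_mono (j : E →* TA X) {A : Set (ℕ → X)} {B B' : Set E} (h : B ⊆ B')
    (x : ℕ → X) : Comp j A B x ⊆ Comp j A B' x := by
  intro y hy
  have h' : Relation.ReflTransGen (fun a b => b ∈ A ∧ ∃ e ∈ B, ray (j e) a = b) x y := hy
  have h0 : (fun a b => b ∈ A ∧ ∃ e ∈ B, ray (j e) a = b) ≤
      (fun a b => b ∈ A ∧ ∃ e ∈ B', ray (j e) a = b) := by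
    rintro a b ⟨h1, e, he, h2⟩
    exact ⟨h1, e, h he, h2⟩
  exact Relation.ReflTransGen.mono h0 _ _ h'

/-- Countable singular sets satisfy HYP F. -/
theorem hypF_of_countable [Finite X] (j : E →* TA X) (h : ∀ e, (Sg (j e)).Countable) :
    HypF j := by
  intro S B hS hB ξ hξ
  have h1 : (Sing j S) = ⋃ s ∈ S, Sg (j s) := by
    ext ζ
    simp [Sing]
  have h2 : (Sing j S).Countable := by
    rw [h1]
    exact hS.countable.biUnion fun s _ => h s
  have h3 : W2_cl (Sing j S) := by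
    let _ : TopologicalSpace X := ⊥
    have : DiscreteTopology X := ⟨rfl⟩
    rw [W2_cl_iff, h1]
    exact hS.isClosed_biUnion fun s _ => (W2_cl_iff _).1 (W2_cl_Sg _)
  have h4 := W2_comp_finite j (B ∪ B⁻¹) (hB.union hB.inv) (by
    rintro b (hb | hb)
    · right
      exact Set.inv_mem_inv.2 hb
    · left
      exact hb) _ h3 h2 ξ hξ
  exact h4.subset (W2_comp_mono j Set.subset_union_left ξ)

end Pool.Agent.Lib.H8PA
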