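import Pool.Agent.Lib.H8PA.W2
import Pool.Agent.Lib.Helper67.BA.NoFree

/-!
# H8PA W3: automorphisms with countable singular set have few nontrivial sections on an unbounded orbit
-/

namespace Pool.Agent.Lib.H8PA

open Pool.Agent.Lib.Helper67.BA TA

variable {X : Type} {F : Type} [Group F]

/-- orbit of the prefixes -/
def W3_M (ψ : F →* TA X) (ζ : ℕ → X) (n : ℕ) : Set (List X) := {w | ∃ u, w = ψ u (pref ζ n)}

theorem W3_len {ψ : F →* TA X} {ζ : ℕ → X} {n : ℕ} {w : List X} (h : w ∈ W3_M ψ ζ n) :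
    w.length = n := by
  obtain ⟨u, rfl⟩ := h
  rw [TA.length, length_pref]

theorem W3_fin [Finite X] (ψ : F →* TA X) (ζ : ℕ → X) (n : ℕ) : (W3_M ψ ζ n).Finite :=
  (finite_words n).subset fun _ h => W3_len h

theorem W3_take (g : TA X) (w : List X) {l : ℕ} (h : l ≤ w.length) :
    (g w).take l = g (w.take l) := by
  have h1 := TA.append g (w.take l) (w.drop l)
  rw [List.take_append_drop] at h1
  rw [h1, List.take_append_of_le_length (by rw [TA.length, List.length_take]; omega)]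
  rw [List.take_of_length_le]
  rw [TA.length, List.length_take]
  omega

theorem W3_pref_take (ζ : ℕ → X) {l n : ℕ} (h : l ≤ n) : (pref ζ n).take l = pref ζ l := by
  obtain ⟨k, rfl⟩ := Nat.exists_eq_add_of_le h
  rw [pref_add, List.take_append_of_le_length (by simp), List.take_of_length_le (by simp)]

theorem W3_mem_take {ψ : F →* TA X} {ζ : ℕ → X} {l n : ℕ} (h : l ≤ n) {w : List X}
    (hw : w ∈ W3_M ψ ζ n) : w.take l ∈ W3_M ψ ζ l := by
  obtain ⟨u, rfl⟩ := hw
  refine ⟨u, ?_⟩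
  rw [W3_take _ _ (by rw [length_pref]; exact h), W3_pref_take ζ h]

/-- transitivity -/
theorem W3_fiber [Finite X] (ψ : F →* TA X) (ζ : ℕ → X) {l n : ℕ} (h : l ≤ n) (v : List X) :
    (W3_M ψ ζ l).ncard * {w | w ∈ W3_M ψ ζ n ∧ w.take l = v}.ncard ≤ (W3_M ψ ζ n).ncard := by
  classical
  by_cases hv : v ∈ W3_M ψ ζ l
  · -- transport
    have h1 : ∀ v', ∃ u : F, v' ∈ W3_M ψ ζ l → v' = ψ u v := by
      intro v'
      by_cases hv' : v' ∈ W3_M ψ ζ l
      · obtain ⟨a, ha⟩ := hv
        obtain ⟨b, hb⟩ := hv'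
        refine ⟨b * a⁻¹, fun _ => ?_⟩
        rw [ha, hb, map_mul, TA.mul_apply, map_inv, TA.inv_apply_self]
      · exact ⟨1, fun h => absurd h hv'⟩
    choose t ht using h1
    rw [← Set.ncard_prod]
    refine Set.ncard_le_ncard_of_injOn (fun p : List X × List X => ψ (t p.1) p.2) ?_ ?_
      (W3_fin ψ ζ n)
    · rintro ⟨a, w⟩ ⟨-, ⟨u, hu⟩, -⟩
      refine ⟨t a * u, ?_⟩
      show ψ (t a) w = _
      rw [map_mul, TA.mul_apply]
      simp only at hu
      rw [hu]
    · rintro ⟨a, w⟩ ⟨ha, hw, hwv⟩ ⟨a', w'⟩ ⟨ha', hw', hwv'⟩ heq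
      simp only at ha hw hwv ha' hw' hwv' heq
      have e1 : (ψ (t a) w).take l = a := by
        rw [W3_take _ _ (by rw [W3_len hw]; exact h), hwv, ← ht a ha]
      have e2 : (ψ (t a') w').take l = a' := by
        rw [W3_take _ _ (by rw [W3_len hw']; exact h), hwv', ← ht a' ha']
      have e3 : a = a' := by rw [← e1, ← e2, heq]
      subst e3
      rw [TA.inj _ heq]
  · have h1 : {w | w ∈ W3_M ψ ζ n ∧ w.take l = v} = ∅ := by
      ext w
      simp only [Set.mem_ofPred_eq, Set.mem_empty_iff_false, iff_false]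
      rintro ⟨hw, hw2⟩
      apply hv
      rw [← hw2]
      exact W3_mem_take h hw
    rw [h1, Set.ncard_empty, mul_zero]
    exact Nat.zero_le _

theorem W3_mono [Finite X] (ψ : F →* TA X) (ζ : ℕ → X) {l n : ℕ} (h : l ≤ n) :
    (W3_M ψ ζ l).ncard ≤ (W3_M ψ ζ n).ncard := by
  have h1 : W3_M ψ ζ l ⊆ (List.take l) '' (W3_M ψ ζ n) := by
    rintro w ⟨u, rfl⟩
    refine ⟨ψ u (pref ζ n), ⟨u, rfl⟩, ?_⟩
    rw [W3_take _ _ (by rw [length_pref]; exact h), W3_pref_take ζ h]
  exact (Set.ncard_le_ncard h1 ((W3_fin ψ ζ n).image _)).trans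
    (Set.ncard_image_le (W3_fin ψ ζ n))

theorem W3_sum (K M : ℕ) (c : ℕ → ℕ) (h : ∀ i, K * 2 ^ (i + 1) * c i ≤ M) (n : ℕ) :
    K * ∑ i ∈ Finset.range n, c i ≤ M := by
  have key : ∀ n, 2 ^ n * (K * ∑ i ∈ Finset.range n, c i) + M ≤ 2 ^ n * M := by
    intro n
    induction n with
    | zero => simp
    | succ n ih =>
      rw [Finset.sum_range_succ, mul_add, mul_add]
      have h1 : 2 ^ (n + 1) * (K * ∑ i ∈ Finset.range n, c i) + 2 * M ≤ 2 ^ (n + 1) * M := by
        calc _ = 2 * (2 ^ n * (K * ∑ i ∈ Finset.range n, c i) + M) := by ring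
          _ ≤ 2 * (2 ^ n * M) := Nat.mul_le_mul_left _ ih
          _ = _ := by ring
      have h2 : 2 ^ (n + 1) * (K * c n) ≤ M := by
        calc _ = K * 2 ^ (n + 1) * c n := by ring
          _ ≤ M := h n
      omega
  have h1 := key n
  have h2 : 2 ^ n * (K * ∑ i ∈ Finset.range n, c i) ≤ 2 ^ n * M := by omega
  exact Nat.le_of_mul_le_mul_left h2 (by positivity)

/-- **Density.** -/
theorem W3_sparse [Finite X] [Nonempty X] (ψ : F →* TA X) (ζ : ℕ → X)
    (hinf : ∀ C, ∃ n, C ≤ (W3_M ψ ζ n).ncard) {g : TA X} (hg : (Sg g).Countable) (K : ℕ) :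
    ∃ n₀, ∀ n, n₀ ≤ n →
      K * {w | w ∈ W3_M ψ ζ n ∧ sec g w ≠ 1}.ncard ≤ (W3_M ψ ζ n).ncard := by
  classical
  obtain ⟨z, hz⟩ := Set.countable_iff_exists_subset_range.1 hg
  -- levels
  have hl : ∀ i, ∃ l, i ≤ l ∧ K * 2 ^ (i + 1) ≤ (W3_M ψ ζ l).ncard := by
    intro i
    obtain ⟨n, hn⟩ := hinf (K * 2 ^ (i + 1))
    exact ⟨max i n, le_max_left _ _, hn.trans (W3_mono ψ ζ (le_max_right _ _))⟩
  choose l hl1 hl2 using hl
  -- the tree of the remaining words is finite
  let T : Set (List X) := {w | sec g w ≠ 1 ∧ ∀ i, l i ≤ w.length → w.take (l i) ≠ pref (z i) (l i)}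
  have hTpre : ∀ v w : List X, v ++ w ∈ T → v ∈ T := by
    rintro v w ⟨h1, h2⟩
    refine ⟨fun h => h1 (by rw [sec_append, h, sec_one]), fun i hi hcon => ?_⟩
    apply h2 i (by rw [List.length_append]; omega)
    rw [List.take_append_of_le_length hi, hcon]
  have hT : ∃ n₀, ∀ w ∈ T, w.length < n₀ := by
    by_contra hcon
    push Not at hcon
    let Q : List X → Prop := fun v => ∀ k, ∃ w : List X, w.length = k ∧ v ++ w ∈ T
    have h0 : Q [] := by
      intro k
      obtain ⟨w, hw, hk⟩ := hcon k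
      refine ⟨w.take k, by rw [List.length_take]; omega, ?_⟩
      rw [List.nil_append]
      apply hTpre _ (w.drop k)
      rw [List.take_append_drop]
      exact hw
    obtain ⟨η, hη⟩ := exists_ray Q h0 (by
      intro v hv
      by_contra hno
      push Not at hno
      simp only [Q] at hno
      push Not at hno
      choose k hk using hno
      obtain ⟨K, hK⟩ := (Set.finite_range k).bddAbove
      obtain ⟨w, hw, hw2⟩ := hv (K + 1)
      rcases w with _ | ⟨x, w⟩
      · simp at hw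
      · have h1 : k x ≤ K := hK ⟨x, rfl⟩
        apply hk x (w.take (k x)) (by
          rw [List.length_take]
          simp at hw
          omega)
        apply hTpre _ (w.drop (k x))
        rw [List.append_assoc, List.append_assoc, List.take_append_drop]
        exact hw2)
    have hηT : ∀ n, pref η n ∈ T := by
      intro n
      obtain ⟨w, hw, hw2⟩ := hη n 0
      rw [List.length_eq_zero_iff] at hw
      rwa [hw, List.append_nil] at hw2
    have hηS : η ∈ Sg g := fun n => (hηT n).1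
    obtain ⟨i, hi⟩ := hz hηS
    apply (hηT (l i)).2 i (by rw [length_pref])
    rw [List.take_of_length_le (by rw [length_pref]), hi]
  obtain ⟨n₀, hn₀⟩ := hT
  refine ⟨n₀, fun n hn => ?_⟩
  let c : ℕ → ℕ := fun i =>
    if l i ≤ n then {w | w ∈ W3_M ψ ζ n ∧ w.take (l i) = pref (z i) (l i)}.ncard else 0
  have h1 : {w | w ∈ W3_M ψ ζ n ∧ sec g w ≠ 1}.ncard ≤ ∑ i ∈ Finset.range (n + 1), c i := by
    have h2 : {w | w ∈ W3_M ψ ζ n ∧ sec g w ≠ 1} ⊆
        ⋃ i ∈ (Finset.range (n + 1)).filter (fun i => l i ≤ n),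
          {w | w ∈ W3_M ψ ζ n ∧ w.take (l i) = pref (z i) (l i)} := by
      rintro w ⟨hw, hw2⟩
      have h3 : w ∉ T := by
        intro hwT
        have := hn₀ w hwT
        rw [W3_len hw] at this
        omega
      have h4 : ∃ i, l i ≤ w.length ∧ w.take (l i) = pref (z i) (l i) := by
        by_contra hcon
        push Not at hcon
        exact h3 ⟨hw2, hcon⟩
      obtain ⟨i, hi, hi2⟩ := h4
      rw [W3_len hw] at hi
      refine Set.mem_biUnion (x := i) ?_ ⟨hw, hi2⟩
      simp only [Finset.coe_filter, Finset.mem_range, Set.mem_ofPred_eq]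
      exact ⟨by have := hl1 i; omega, hi⟩
    refine (Set.ncard_le_ncard h2 ?_).trans ?_
    · apply Set.Finite.biUnion (Finset.finite_toSet _)
      intro i _
      exact (W3_fin ψ ζ n).subset fun w hw => hw.1
    · refine (Finset.set_ncard_biUnion_le _ _).trans ?_
      rw [Finset.sum_filter]
  refine (Nat.mul_le_mul_left K h1).trans (W3_sum K _ c ?_ _)
  intro i
  by_cases hi : l i ≤ n
  · simp only [c, hi, if_true]
    exact (Nat.mul_le_mul_right _ (hl2 i)).trans (W3_fiber ψ ζ hi _)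
  · simp only [c, hi, if_false, mul_zero]
    exact Nat.zero_le _

end Pool.Agent.Lib.H8PA
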