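import Pool.Agent.Lib.H8PA.W3
import Pool.Agent.Lib.H67P.N1
import Pool.Agent.Lib.H67P.N5
import Pool.Agent.Lib.H67P.D1

/-!
# H8PA W4: no free groups (countable singular sets, finitely many sections off every ray)
-/

namespace Pool.Agent.Lib.H8PA

open Pool.Agent.Lib.Helper67.BA TA
open Pool.Agent.Lib.H67P (offs offHom BBs forest exists_bad N5_konig offHom_finite offHom_f
  offHom_f' offHom_p)

variable {X : Type}

/-- rays with faithful germs -/
def W4_D (ψ : FreeGroup Bool →* TA X) : Set (ℕ → X) :=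
  {ζ | ∀ n u, u ≠ 1 → ψ u (pref ζ n) = pref ζ n → sec (ψ u) (pref ζ n) ≠ 1}

theorem W4_cl (ψ : FreeGroup Bool →* TA X) : W2_cl (W4_D ψ) := by
  intro ξ hξ n
  obtain ⟨η, hη, h⟩ := hξ n
  rw [← h]
  exact hη n

theorem W4_bdd [Finite X] [Nonempty X] (ψ : FreeGroup Bool →* TA X)
    (hc : ∀ u, (Sg (ψ u)).Countable) {ζ : ℕ → X} (hζ : ζ ∈ W4_D ψ) :
    ∃ C, ∀ n, (W3_M ψ ζ n).ncard ≤ C := by
  classical
  by_contra hcon
  push Not at hcon
  have hinf : ∀ C, ∃ n, C ≤ (W3_M ψ ζ n).ncard := fun C => by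
    obtain ⟨n, hn⟩ := hcon C
    exact ⟨n, hn.le⟩
  choose n₀ hn₀ using fun x : Bool × Bool => W3_sparse ψ ζ hinf (hc (gen x)) 16
  obtain ⟨n, hn⟩ : ∃ n, ∀ x, n₀ x ≤ n := ⟨Finset.univ.sup n₀, fun x =>
    Finset.le_sup (Finset.mem_univ x)⟩
  have h1 := forest ψ (pref ζ n) (fun u hu h => hζ n u hu h)
  have h2 : ∀ x : Bool × Bool,
      16 * {w | (∃ u, w = ψ u (pref ζ n)) ∧ sec (ψ (gen x)) w ≠ 1}.ncard ≤
        {w | ∃ u, w = ψ u (pref ζ n)}.ncard := fun x => hn₀ x n (hn x)
  have h3 : 16 * ∑ x : Bool × Bool,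
      {w | (∃ u, w = ψ u (pref ζ n)) ∧ sec (ψ (gen x)) w ≠ 1}.ncard ≤
        4 * {w | ∃ u, w = ψ u (pref ζ n)}.ncard := by
    rw [Finset.mul_sum]
    refine (Finset.sum_le_sum fun x _ => h2 x).trans ?_
    rw [Finset.sum_const, smul_eq_mul]
    exact le_refl _
  have h4 : 0 < {w | ∃ u, w = ψ u (pref ζ n)}.ncard :=
    (Set.ncard_pos (W3_fin ψ ζ n)).2 ⟨_, 1, rfl⟩
  omega

theorem W4_sep {T : Set (ℕ → X)} (hT : T.Finite) : ∃ n, ∀ ξ ∈ T, ∀ η ∈ T,
    pref ξ n = pref η n → ξ = η := by
  have e2 : ∀ᶠ n in Filter.atTop, ∀ c ∈ T, ∀ c' ∈ T, pref c n = pref c' n → c = c' := by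
    rw [Filter.eventually_all_finite hT]
    intro c _
    rw [Filter.eventually_all_finite hT]
    intro c' _
    by_cases hcc : c = c'
    · exact Filter.Eventually.of_forall fun n _ => hcc
    · have h2 : ∃ n, pref c n ≠ pref c' n := by
        by_contra h
        push Not at h
        exact hcc (ray_ext h)
      obtain ⟨n0, hn0⟩ := h2
      filter_upwards [Filter.eventually_ge_atTop n0] with n hn hag
      exact absurd (W1_le hn hag) hn0
  exact e2.exists

/-- the stabilizer of a ray -/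
def W4_L {F : Type} [Group F] (ψ : F →* TA X) (ζ : ℕ → X) : Subgroup F where
  carrier := {u | ray (ψ u) ζ = ζ}
  mul_mem' := by
    intro a b ha hb
    show ray (ψ (a * b)) ζ = ζ
    have ha' : ray (ψ a) ζ = ζ := ha
    have hb' : ray (ψ b) ζ = ζ := hb
    rw [map_mul, ray_mul, hb', ha']
  one_mem' := by
    show ray (ψ 1) ζ = ζ
    rw [map_one, ray_one]
  inv_mem' := by
    intro a ha
    show ray (ψ a⁻¹) ζ = ζ
    have ha' : ray (ψ a) ζ = ζ := ha
    conv_lhs => rw [← ha']
    rw [map_inv, ray_inv_ray]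

theorem W4_stab [Finite X] {F : Type} [Group F] (ψ : F →* TA X) (ζ : ℕ → X) (C : ℕ)
    (h : ∀ n, (W3_M ψ ζ n).ncard ≤ C) : (W4_L ψ ζ).FiniteIndex := by
  classical
  have h1 : (Set.range fun u => ray (ψ u) ζ).Finite := by
    by_contra hinf
    obtain ⟨T, hT, hTc⟩ := Set.Infinite.exists_subset_card_eq hinf (C + 1)
    obtain ⟨n, hn⟩ := W4_sep (T := (T : Set (ℕ → X))) T.finite_toSet
    have h2 : T.card ≤ (W3_M ψ ζ n).ncard := by
      rw [← Set.ncard_coe_finset]
      refine Set.ncard_le_ncard_of_injOn (fun η => pref η n) ?_ ?_ (W3_fin ψ ζ n)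
      · intro η hη
        obtain ⟨u, rfl⟩ := hT hη
        exact ⟨u, pref_ray _ _ _⟩
      · intro ξ hξ η hη heq
        exact hn ξ hξ η hη heq
    have := h n
    omega
  have h2 : Finite (F ⧸ W4_L ψ ζ) := by
    have h3 : Finite (Set.range fun u => ray (ψ u) ζ) := h1.to_subtype
    let f : F ⧸ W4_L ψ ζ → Set.range (fun u => ray (ψ u) ζ) :=
      Quotient.lift (fun u => ⟨ray (ψ u) ζ, u, rfl⟩) (by
        intro a b hab
        apply Subtype.ext
        have h4 : a⁻¹ * b ∈ W4_L ψ ζ := QuotientGroup.leftRel_apply.1 hab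
        have h5 : ray (ψ (a⁻¹ * b)) ζ = ζ := h4
        show ray (ψ a) ζ = ray (ψ b) ζ
        conv_lhs => rw [← h5]
        rw [← ray_mul, ← map_mul, mul_inv_cancel_left])
    apply Finite.of_injective f
    intro a b hab
    induction a using QuotientGroup.induction_on with
    | H a =>
      induction b using QuotientGroup.induction_on with
      | H b =>
        apply QuotientGroup.eq.2
        show ray (ψ (a⁻¹ * b)) ζ = ζ
        have h5 : ray (ψ a) ζ = ray (ψ b) ζ := congrArg Subtype.val hab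
        rw [map_mul, ray_mul, ← h5, map_inv, ray_inv_ray]
  exact Subgroup.finiteIndex_of_finite_quotient

/-- powers in a subgroup of finite index -/
theorem W4_pow {F : Type} [Group F] (L : Subgroup F) [hL : L.FiniteIndex] :
    ∃ c, c ≠ 0 ∧ ∀ u : F, u ^ c ∈ L := by
  refine ⟨L.normalCore.index, Subgroup.FiniteIndex.index_ne_zero, fun u => ?_⟩
  exact L.normalCore_le (Subgroup.pow_index_mem _ _)

theorem W4_noncomm (L : Subgroup (FreeGroup Bool)) [L.FiniteIndex] :
    ∃ x ∈ L, ∃ y ∈ L, x * y ≠ y * x := by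
  obtain ⟨c, hcard, hpow⟩ := W4_pow L
  refine ⟨_, hpow (FreeGroup.of true), _, hpow (FreeGroup.of false), fun h => ?_⟩
  have h1 : Commute (FreeGroup.of true) ((FreeGroup.of false) ^ c) := by
    apply commute_of_zpow (k := (c : ℤ)) (by exact_mod_cast hcard)
    rw [zpow_natCast]
    exact h
  have h2 : Commute (FreeGroup.of false) (FreeGroup.of true) := by
    apply commute_of_zpow (k := (c : ℤ)) (by exact_mod_cast hcard)
    rw [zpow_natCast]
    exact h1.symm
  have h3 := h2.eq
  have h4 := congrArg FreeGroup.toWord h3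
  revert h4
  decide

theorem W4_pow_ne {u : FreeGroup Bool} (hu : u ≠ 1) {c : ℕ} (hc : c ≠ 0) : u ^ c ≠ 1 := by
  intro h
  apply hu
  have h4 : u ^ c = 1 ^ c := by rw [h, one_pow]
  exact pow_left_injective hc h4

theorem W4_countable [Finite X] [Nonempty X] (ψ : FreeGroup Bool →* TA X)
    (hc : ∀ u, (Sg (ψ u)).Countable) : (W4_D ψ).Countable := by
  have h1 : W4_D ψ ⊆ ⋃ u : FreeGroup Bool, Sg (ψ u) := by
    intro ζ hζ
    obtain ⟨C, hC⟩ := W4_bdd ψ hc hζ
    have h2 := W4_stab ψ ζ C hC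
    obtain ⟨c, hc0, hpow⟩ := W4_pow (W4_L ψ ζ)
    have h3 : (FreeGroup.of true : FreeGroup Bool) ^ c ≠ 1 :=
      W4_pow_ne (by decide) hc0
    refine Set.mem_iUnion.2 ⟨_, fun n => hζ n _ h3 ?_⟩
    have h4 : ray (ψ (FreeGroup.of true ^ c)) ζ = ζ := hpow _
    exact ray_eq_iff.1 h4 n
  exact (Set.countable_iUnion hc).mono h1

/-- near an isolated point: a nontrivial element of a given subgroup of finite index which has trivial sections at finitely many
words outside -/
theorem W4_kill [Finite X] [Nonempty X] (ψ : FreeGroup Bool →* TA X)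
    (L : Subgroup (FreeGroup Bool)) [L.FiniteIndex] (S : Set (List X)) (hS : S.Finite)
    (hout : ∀ w ∈ S, ∀ η ∈ W4_D ψ, pref η w.length ≠ w) :
    ∃ u ∈ L, u ≠ 1 ∧ ∀ w ∈ S, ψ u w = w ∧ sec (ψ u) w = 1 := by
  classical
  -- a level below every word of `S`
  have h1 : ∀ w ∈ S, ∃ n, ∀ v : List X, v.length = n →
      ∃ u, u ≠ 1 ∧ ψ u (w ++ v) = w ++ v ∧ sec (ψ u) (w ++ v) = 1 := by
    intro w hw
    by_contra hcon
    push Not at hcon
    obtain ⟨ζ, hζ⟩ := N5_konig ψ w hcon
    let η : ℕ → X := fun i => if h : i < w.length then w[i] else ζ (i - w.length)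
    have e1 : ∀ k, pref η (w.length + k) = w ++ pref ζ k := by
      intro k
      apply List.ext_getElem
      · simp
      · intro i h2 h3
        rw [length_pref] at h2
        rw [pref_get _ _ _ h2, List.getElem_append]
        by_cases h4 : i < w.length
        · simp [η, h4]
        · simp only [η, h4, dif_neg, not_false_eq_true]
          rw [pref_get _ _ _ (by omega)]
    have e2 : η ∈ W4_D ψ := by
      intro n u hu h2 h3
      by_cases hn : w.length ≤ n
      · obtain ⟨k, rfl⟩ := Nat.exists_eq_add_of_le hn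
        rw [e1] at h2 h3
        exact hζ k u hu h2 h3
      · -- shorter prefixes
        push Not at hn
        have e3 : w ++ pref ζ 0 = pref η n ++ w.drop n := by
          have e4 := e1 0
          rw [← e4, add_zero]
          obtain ⟨k, hk⟩ := Nat.exists_eq_add_of_le hn.le
          have e5 : pref η w.length = w := by
            have := e1 0
            rw [add_zero, pref_zero, List.append_nil] at this
            exact this
          have e6 : pref η n = w.take n := by
            rw [← e5, W3_pref_take η hn.le]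
          rw [e5, e6, List.take_append_drop]
        apply hζ 0 u hu
        · rw [e3, TA.append, h2, h3, one_apply]
        · rw [e3, sec_append, h3, sec_one]
    apply hout w hw η e2
    have := e1 0
    rw [add_zero, pref_zero, List.append_nil] at this
    exact this
  -- one finite set of words
  have h2 : ∀ w, ∃ n, w ∈ S → ∀ v : List X, v.length = n →
      ∃ u, u ≠ 1 ∧ ψ u (w ++ v) = w ++ v ∧ sec (ψ u) (w ++ v) = 1 := by
    intro w
    by_cases hw : w ∈ S
    · obtain ⟨n, hn⟩ := h1 w hw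
      exact ⟨n, fun _ => hn⟩
    · exact ⟨0, fun h => absurd h hw⟩
  choose n hn using h2
  let R : Set (List X) := ⋃ w ∈ S, (fun v => w ++ v) '' {v | v.length = n w}
  have hR : R.Finite := hS.biUnion fun w _ => (finite_words _).image _
  have hRbad : ∀ r ∈ R, ∃ u, u ≠ 1 ∧ ψ u r = r ∧ sec (ψ u) r = 1 := by
    intro r hr
    obtain ⟨w, hw, v, hv, rfl⟩ := Set.mem_iUnion₂.1 hr
    exact hn w hw v hv
  obtain ⟨N, hN⟩ := (hR.image List.length).bddAbove
  -- the subgroup fixing all words up to length `N`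
  let κ : FreeGroup Bool →* Equiv.Perm (List.Vector X N) := (rootY N).comp ψ
  have hκ : κ.ker.FiniteIndex := by
    have : Finite κ.range := inferInstance
    infer_instance
  let L' : Subgroup (FreeGroup Bool) := L ⊓ κ.ker
  have hL' : L'.FiniteIndex := inferInstance
  have hfix : ∀ u ∈ L', ∀ v : List X, v.length ≤ N → ψ u v = v := by
    intro u hu v hv
    obtain ⟨x⟩ := ‹Nonempty X›
    have h3 : κ u = 1 := hu.2
    have h4 := congrArg (fun p : Equiv.Perm (List.Vector X N) =>
      (p ⟨v ++ List.replicate (N - v.length) x, by simp; omega⟩).1) h3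
    have h5 : ψ u (v ++ List.replicate (N - v.length) x) =
      v ++ List.replicate (N - v.length) x := h4
    rw [TA.append] at h5
    exact List.append_inj_left h5 (TA.length _ _)
  let Rf := hR.toFinset
  let σ : List X → (L' →* TA X) := fun r =>
    if hr : r ∈ R then
    { toFun := fun u => sec (ψ u.1) r
      map_one' := by simp
      map_mul' := by
        intro a b
        show sec (ψ (a.1 * b.1)) r = _
        rw [map_mul, sec_mul, hfix b.1 b.2 r (hN ⟨r, hr, rfl⟩)] }
    else 1
  obtain ⟨c, hc, hpow⟩ := W4_pow L'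
  obtain ⟨u, hu1, hu2⟩ := iInf_ne_bot (W4_noncomm L') Rf (fun r => (σ r).ker)
    (fun r => inferInstance) (by
      intro r hr
      have hr' : r ∈ R := hR.mem_toFinset.1 hr
      obtain ⟨u, hu, h3, h4⟩ := hRbad r hr'
      rw [Subgroup.ne_bot_iff_exists_ne_one]
      refine ⟨⟨⟨u ^ c, hpow u⟩, ?_⟩, ?_⟩
      · show σ r ⟨u ^ c, hpow u⟩ = 1
        simp only [σ, hr', dif_pos]
        show sec (ψ (u ^ c)) r = 1
        rw [map_pow, (sec_pow_of_fixed h3 c).2, h4, one_pow]
      · intro h
        exact W4_pow_ne hu hc (congrArg (fun z => ((z.1 : L') : FreeGroup Bool)) h))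
  have hsec : ∀ r ∈ R, sec (ψ u.1) r = 1 := by
    intro r hr
    have h3 : σ r u = 1 := hu2 r (hR.mem_toFinset.2 hr)
    simp only [σ, hr, dif_pos] at h3
    exact h3
  refine ⟨u.1, u.2.1, fun h => hu1 (Subtype.ext h), fun w hw => ?_⟩
  have hmem : ∀ v : List X, v.length = n w → w ++ v ∈ R := fun v hv =>
    Set.mem_iUnion₂.2 ⟨w, hw, v, hv, rfl⟩
  have hlenw : w.length ≤ N := by
    obtain ⟨x⟩ := ‹Nonempty X›
    have := hN ⟨_, hmem (List.replicate (n w) x) (by simp), rfl⟩
    rw [List.length_append] at this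
    omega
  have hw1 : ψ u.1 w = w := hfix u.1 u.2 w hlenw
  refine ⟨hw1, ?_⟩
  apply eq_one_of _ (n w)
  intro v hv
  have h3 := hmem v hv
  have h4 : ψ u.1 (w ++ v) = w ++ v := hfix u.1 u.2 _ (hN ⟨_, h3, rfl⟩)
  constructor
  · rw [TA.append, hw1] at h4
    exact List.append_cancel_left h4
  · rw [← sec_append]
    exact hsec _ h3

/-- **No free groups of rank two.** -/
theorem W4_no_free [Finite X] [Nonempty X] (ψ : FreeGroup Bool →* TA X)
    (hψ : Function.Injective ψ) (hc : ∀ u, (Sg (ψ u)).Countable)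
    (hq : ∀ u (ξ : ℕ → X), (offs (ψ u) ξ).Finite) : False := by
  classical
  have hne : (W4_D ψ).Nonempty := exists_bad ψ hψ
  obtain ⟨ζ, hζ, n₀, hiso⟩ := W2_isolated (W4_cl ψ) (W4_countable ψ hc) hne
  obtain ⟨C, hC⟩ := W4_bdd ψ hc hζ
  have hfi := W4_stab ψ ζ C hC
  set L := W4_L ψ ζ with hL
  have hLfg : Group.FG L := Subgroup.fg_of_index_ne_zero L
  have hLfix : ∀ u ∈ L, ray (ψ u) ζ = ζ := fun u hu => hu
  -- the homomorphisms to the off-ray data
  let j : L →* BBs (⊤ : Subgroup (TA X)) ζ :=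
    { toFun := fun u => ⟨ψ u.1, hLfix u.1 u.2, hq _ _, fun _ _ => trivial⟩
      map_one' := Subtype.ext (map_one ψ)
      map_mul' := fun a b => Subtype.ext (map_mul ψ a.1 b.1) }
  let θ : ℕ → (L →* Wr (TA X) (List.Vector X 1)) := fun k => (offHom ⊤ ζ k).comp j
  have hθfin : (Set.range θ).Finite := by
    obtain ⟨S, hS, hSfin⟩ := Group.fg_iff.1 hLfg
    have h1 : (Set.pi S (fun s => Set.range fun k => θ k s)).Finite ∨ True := Or.inr trivial
    have h2 : Finite S := hSfin.to_subtype
    have h3 : ∀ s : S, (Set.range fun k => θ k s).Finite := fun s => offHom_finite (j s)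
    have h4 : (Set.pi Set.univ (fun s : S => Set.range fun k => θ k s)).Finite :=
      Set.Finite.pi' h3 |>.subset (fun f hf s => hf s trivial)
    apply Set.Finite.of_finite_image (f := fun (φ : L →* Wr (TA X) (List.Vector X 1)) (s : S) =>
      φ s)
    · apply h4.subset
      rintro _ ⟨_, ⟨k, rfl⟩, rfl⟩ s -
      exact ⟨k, rfl⟩
    · intro φ _ φ' _ heq
      apply MonoidHom.eq_of_eqOn_dense hS
      intro s hs
      exact congrFun heq ⟨s, hs⟩
  -- kernels beyond level `n₀` are nontrivial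
  have hker : ∀ k, n₀ ≤ k → (θ k).ker ≠ ⊥ := by
    intro k hk
    obtain ⟨u, huL, hu1, hu2⟩ := W4_kill ψ L
      ((fun x => pref ζ k ++ [x]) '' {x | x ≠ ζ k}) ((Set.toFinite _).image _) (by
        rintro _ ⟨x, hx, rfl⟩ η hη heq
        have h1 : pref η (k + 1) = pref ζ k ++ [x] := by
          rw [List.length_append, length_pref] at heq
          exact heq
        have h2 : pref η n₀ = pref ζ n₀ := by
          apply W1_le hk
          have h3 : pref η (k + 1) = pref η k ++ [η k] := by rw [pref_add]; rfl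
          rw [h3] at h1
          exact List.append_inj_left h1 (by simp)
        have h3 := hiso η hη h2
        rw [h3] at h1
        have h4 : pref ζ (k + 1) = pref ζ k ++ [ζ k] := by rw [pref_add]; rfl
        rw [h4] at h1
        have h5 := List.append_cancel_left h1
        apply hx
        simpa using h5.symm)
    rw [Subgroup.ne_bot_iff_exists_ne_one]
    refine ⟨⟨⟨u, huL⟩, ?_⟩, fun h => hu1 (congrArg (fun z => ((z.1 : L) : FreeGroup Bool)) h)⟩
    show θ k ⟨u, huL⟩ = 1
    have hpk : ψ u (pref ζ k) = pref ζ k := ray_eq_iff.1 (hLfix u huL) k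
    refine Wr.ext (funext fun y => ?_) ?_
    · by_cases h : y.1 = [ζ k]
      · exact offHom_f' k _ y h
      · obtain ⟨x, hx⟩ := List.length_eq_one_iff.1 y.2
        show (offHom ⊤ ζ k (j ⟨u, huL⟩)).f y = 1
        rw [offHom_f k _ y h, hx]
        have hx' : x ≠ ζ k := by
          rintro rfl
          exact h hx
        exact (hu2 _ ⟨x, hx', rfl⟩).2
    · show (offHom ⊤ ζ k (j ⟨u, huL⟩)).p = 1
      rw [offHom_p]
      apply Equiv.ext
      intro y
      apply Subtype.ext
      show sec (ψ u) (pref ζ k) y.1 = y.1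
      obtain ⟨x, hx⟩ := List.length_eq_one_iff.1 y.2
      rw [hx]
      by_cases hx' : x = ζ k
      · have h1 := ray_eq_iff.1 (hLfix u huL) (k + 1)
        have h4 : pref ζ (k + 1) = pref ζ k ++ [ζ k] := by rw [pref_add]; rfl
        rw [h4, TA.append, hpk] at h1
        rw [hx']
        exact List.append_cancel_left h1
      · have h1 := (hu2 _ ⟨x, hx', rfl⟩).1
        rw [TA.append, hpk] at h1
        exact List.append_cancel_left h1
  -- common kernel
  let θs : Set (L →* Wr (TA X) (List.Vector X 1)) := θ '' {k | n₀ ≤ k}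
  have hθs : θs.Finite := hθfin.subset (Set.image_subset_range _ _)
  obtain ⟨u, hu1, hu2⟩ := iInf_ne_bot (W4_noncomm L) (Finset.univ : Finset (Fin hθs.toFinset.card))
    (fun i => ((hθs.toFinset.equivFin.symm i).1).ker) (fun i => inferInstance) (by
      intro i _
      obtain ⟨k, hk, hk2⟩ := hθs.mem_toFinset.1 (hθs.toFinset.equivFin.symm i).2
      rw [← hk2]
      exact hker k hk)
  have hu3 : ∀ k, n₀ ≤ k → θ k u = 1 := by
    intro k hk
    have h1 : θ k ∈ hθs.toFinset := hθs.mem_toFinset.2 ⟨k, hk, rfl⟩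
    have h2 := hu2 (hθs.toFinset.equivFin ⟨θ k, h1⟩) (Finset.mem_univ _)
    rw [Equiv.symm_apply_apply] at h2
    exact h2
  -- the section at `pref ζ n₀` is trivial
  have hfix : ∀ n, ψ u.1 (pref ζ n) = pref ζ n := fun n => ray_eq_iff.1 (hLfix u.1 u.2) n
  have key : ∀ k n, n₀ ≤ n → ∀ w : List X, w.length = k → sec (ψ u.1) (pref ζ n) w = w := by
    intro k
    induction k with
    | zero =>
      intro n _ w hw
      rw [List.length_eq_zero_iff] at hw
      rw [hw, TA.map_nil]
    | succ k ih =>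
      intro n hn w hw
      obtain ⟨x, w, rfl⟩ : ∃ x w', w = x :: w' := by
        cases w with
        | nil => simp at hw
        | cons x w => exact ⟨x, w, rfl⟩
      have hw' : w.length = k := by simpa using hw
      have e : x :: w = [x] ++ w := rfl
      have h3 := hu3 n hn
      have h1 : sec (ψ u.1) (pref ζ n) [x] = [x] :=
        congrArg (fun a : Wr (TA X) (List.Vector X 1) => (a.p ⟨[x], rfl⟩).1) h3
      rw [e, TA.append, h1]
      congr 1
      have h4 : pref ζ (n + 1) = pref ζ n ++ [ζ n] := by rw [pref_add]; rfl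
      by_cases hx : x = ζ n
      · rw [hx, ← sec_append, ← h4]
        exact ih _ (by omega) _ hw'
      · have h2 : (⟨[x], rfl⟩ : List.Vector X 1).1 ≠ [ζ n] := by
          intro h3
          apply hx
          simpa using h3
        have h5 := congrArg (fun a : Wr (TA X) (List.Vector X 1) => a.f ⟨[x], rfl⟩) h3
        have h6 : (offHom ⊤ ζ n (j u)).f ⟨[x], rfl⟩ = 1 := h5
        rw [offHom_f n _ _ h2] at h6
        have h7 : sec (ψ u.1) (pref ζ n ++ [x]) = 1 := h6
        rw [← sec_append, h7, one_apply]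
  apply hζ n₀ u.1 (fun h => hu1 (Subtype.ext h)) (hfix n₀)
  ext1 w
  exact key _ n₀ le_rfl w rfl

end Pool.Agent.Lib.H8PA
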