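import Pool.Agent.Lib.H8PA.W3
import Pool.Agent.Lib.H67P.A2
import Pool.Agent.Lib.H67P.A4
import Pool.Agent.Lib.H67P.A5

/-!
# H8PA W5: the singular sets of automorphisms of the classes `PP j` are countable
-/

namespace Pool.Agent.Lib.H8PA

open Pool.Agent.Lib.Helper67.BA TA
open Pool.Agent.Lib.H67P (PP stepS Sat sat_PP bad_ray fs_mem bdd_mem)

variable {X : Type}

theorem W5_PP [Finite X] (j : ℕ) : ∀ g ∈ PP X j, (Sg g).Countable := by
  induction j with
  | zero =>
    rintro g ⟨k, hk⟩
    have h1 : Sg g = ∅ := by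
      ext ξ
      simp only [Set.mem_empty_iff_false, iff_false]
      intro h
      exact h k (hk _ (length_pref _ _))
    rw [h1]
    exact Set.countable_empty
  | succ j ih =>
    intro g hg
    have hg' : g ∈ stepS (PP X j) := hg
    obtain ⟨n₀, hn₀⟩ := bad_ray (sat_PP j) hg'
    have hcX : Countable X := Finite.to_countable
    have h1 : Sg g ⊆ {ζ | ∀ n, sec g (pref ζ n) ∉ PP X j} ∪
        ⋃ w : {w : List X // sec g w ∈ PP X j},
          {ζ | pref ζ w.1.length = w.1 ∧ shift w.1.length ζ ∈ Sg (sec g w.1)} := by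
      intro ζ hζ
      by_cases h : ∀ n, sec g (pref ζ n) ∉ PP X j
      · exact Or.inl h
      · right
        push Not at h
        obtain ⟨n, hn⟩ := h
        refine Set.mem_iUnion.2 ⟨⟨pref ζ n, hn⟩, ?_, ?_⟩
        · simp
        · intro k
          simp only [length_pref]
          rw [← sec_append, ← pref_add]
          exact hζ _
    refine (Set.Countable.union ?_ (Set.countable_iUnion ?_)).mono h1
    · apply Set.countable_of_injective_of_countable_image (f := fun ζ => pref ζ n₀) ?_
        (Set.to_countable _)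
      intro ζ hζ ζ' hζ' heq
      simp only at heq
      obtain ⟨ξ, hξ⟩ := hn₀ (pref ζ n₀) (by rw [length_pref]) (hζ n₀)
      have h2 : ∀ η : ℕ → X, (∀ n, sec g (pref η n) ∉ PP X j) → pref η n₀ = pref ζ n₀ →
          shift n₀ η = ξ := by
        intro η hη h3
        apply ray_ext
        intro n
        have h4 := (hξ (pref (shift n₀ η) n)).1 (by
          rw [← h3, ← pref_add]
          exact hη _)
        rw [length_pref] at h4
        exact h4
      exact ray_split heq ((h2 ζ hζ rfl).trans (h2 ζ' hζ' heq.symm).symm)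
    · rintro ⟨w, hw⟩
      apply Set.countable_of_injective_of_countable_image
        (f := fun ζ => shift w.length ζ)
      · rintro ζ ⟨h2, -⟩ ζ' ⟨h3, -⟩ heq
        exact ray_split (h2.trans h3.symm) heq
      · apply (ih _ hw).mono
        rintro _ ⟨ζ, ⟨-, h2⟩, rfl⟩
        exact h2

/-- finite-state automorphisms of polynomial activity -/
theorem W5_fs [Finite X] {g : TA X} (hfs : (Set.range (sec g)).Finite) {C d : ℕ}
    (hpa : ∀ n, {w : List X | w.length = n ∧ sec g w ≠ 1}.ncard ≤ C * (n + 1) ^ d) :
    (Sg g).Countable := by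
  obtain ⟨j, hj⟩ := fs_mem hfs hpa
  exact W5_PP j g hj

theorem W5_bdd [Finite X] [Nonempty X] {g : TA X} (hg : Bdd g) : (Sg g).Countable :=
  W5_PP 1 g (bdd_mem hg)

end Pool.Agent.Lib.H8PA
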