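import Pool.Agent.Lib.H8PA.W4
import Pool.Agent.Lib.H8PA.W5
import Pool.Agent.Lib.H8PA.V6

/-!
# H8PA W6: the group of automorphisms with countable singular set and few sections off subtrees
-/

namespace Pool.Agent.Lib.H8PA

open Pool.Agent.Lib.Helper67.BA TA
open Pool.Agent.Lib.H67P (offs)

universe u

variable {X : Type}

theorem W6_mul (g h : TA X) : Sg (g * h) ⊆ Sg h ∪ {ξ | ray h ξ ∈ Sg g} := by
  intro ξ hξ
  by_contra hcon
  simp only [Set.mem_union, Set.mem_ofPred_eq, not_or] at hcon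
  obtain ⟨h1, h2⟩ := hcon
  simp only [Sg, Set.mem_ofPred_eq, not_forall, not_not] at h1 h2
  obtain ⟨n, hn⟩ := h1
  obtain ⟨m, hm⟩ := h2
  apply hξ (n + m)
  have e1 : sec h (pref ξ (n + m)) = 1 := by rw [pref_add, sec_append, hn, sec_one]
  have e2 : sec g (pref (ray h ξ) (n + m)) = 1 := by
    rw [add_comm, pref_add, sec_append, hm, sec_one]
  rw [sec_mul, e1, ← pref_ray, e2, mul_one]

theorem W6_inv (g : TA X) : Sg g⁻¹ ⊆ {ξ | ray g⁻¹ ξ ∈ Sg g} := by
  intro ξ hξ n hn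
  apply hξ n
  rw [sec_inv, ← pref_ray, hn, inv_one]

theorem W6_pre {A : Set (ℕ → X)} (hA : A.Countable) (g : TA X) :
    {ξ | ray g ξ ∈ A}.Countable := by
  apply Set.countable_of_injective_of_countable_image (f := fun ξ => ray g ξ)
  · intro ξ _ η _ h
    exact ray_inj h
  · apply hA.mono
    rintro _ ⟨ξ, hξ, rfl⟩
    exact hξ

variable (X) in
/-- countable singular set, few sections off subtrees -/
def CQ : Subgroup (TA X) where
  carrier := {g | (Sg g).Countable ∧ Qp g}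
  mul_mem' := by
    rintro a b ⟨ha, ha2⟩ ⟨hb, hb2⟩
    exact ⟨(hb.union (W6_pre ha b)).mono (W6_mul a b), ha2.mul hb2⟩
  one_mem' := by
    refine ⟨?_, Qp.one⟩
    have h1 : Sg (1 : TA X) = ∅ := by
      ext ξ
      simp only [Set.mem_empty_iff_false, iff_false]
      intro h
      exact h 0 (sec_one _)
    rw [h1]
    exact Set.countable_empty
  inv_mem' := by
    rintro a ⟨ha, ha2⟩
    exact ⟨(W6_pre ha a⁻¹).mono (W6_inv a), ha2.inv⟩

theorem W6_offs {g : TA X} (hg : Qp g) (ξ : ℕ → X) : (offs g ξ).Finite := by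
  have hsucc : ∀ k, pref ξ (k + 1) = pref ξ k ++ [ξ k] := fun k => by rw [pref_add]; rfl
  have h1 := hg {w | ∃ k, w = pref ξ k} (by
    rintro v x ⟨k, hk⟩
    rcases k with _ | k
    · simp at hk
    · rw [hsucc] at hk
      exact ⟨k, List.append_inj_left' hk rfl⟩)
  apply h1.subset
  rintro s ⟨k, x, hx, rfl⟩
  refine ⟨pref ξ k, x, ⟨k, rfl⟩, ?_, rfl⟩
  rintro ⟨l, hl⟩
  have h2 : l = k + 1 := by
    have := congrArg List.length hl
    simpa using this.symm
  rw [h2, hsucc] at hl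
  have h3 := List.append_cancel_left hl
  apply hx
  simpa using h3

/-- no free groups of rank two -/
theorem W6_no_free [Finite X] [Nonempty X] (ψ : FreeGroup Bool →* TA X)
    (hψ : Function.Injective ψ) (h : ∀ u, ψ u ∈ CQ X) : False :=
  W4_no_free ψ hψ (fun u => (h u).1) (fun u ξ => W6_offs (h u).2 ξ)

theorem W6_fs [Finite X] {g : TA X} (hfs : (Set.range (sec g)).Finite) {C d : ℕ}
    (hpa : ∀ n, {w : List X | w.length = n ∧ sec g w ≠ 1}.ncard ≤ C * (n + 1) ^ d) :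
    g ∈ CQ X := ⟨W5_fs hfs hpa, Qp_of_finiteState hfs⟩

theorem W6_bdd [Finite X] [Nonempty X] {g : TA X} (hg : Bdd g) : g ∈ CQ X :=
  ⟨W5_bdd hg, Qp_of_bdd hg⟩

end Pool.Agent.Lib.H8PA
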