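import Pool.Agent.Lib.H8PA.W6
import Pool.Agent.Lib.Helper67.BA.VirtAb

/-!
# H8PA W7: assembly on the level of `TA X`
-/

namespace Pool.Agent.Lib.H8PA

open Pool.Agent.Lib.Helper67.BA TA

universe u

variable {X : Type} {E : Type u} [Group E]

/-- `E` is large -/
def LargeG (E : Type u) [Group E] : Prop :=
  ∃ H : Subgroup E, H.FiniteIndex ∧ ∃ f : H →* FreeGroup Bool, Function.Surjective f

theorem W7_VA_nil {j : E →* TA X} (h : VA j []) :
    ∃ K : Subgroup E, K.FiniteIndex ∧ ∀ a ∈ K, ∀ b ∈ K, j (a * b) = j (b * a) := by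
  obtain ⟨K, hK, -, h1⟩ := h
  refine ⟨K, hK, fun a ha b hb => ?_⟩
  have := h1 a ha b hb
  rwa [sec_nil, sec_nil] at this

/-- a large group contains a free group as a retract of a subgroup of finite index -/
theorem W7_large_free (h : LargeG E) :
    ∃ ψ : FreeGroup Bool →* E, Function.Injective ψ := by
  obtain ⟨H, -, f, hf⟩ := h
  choose s hs using hf
  let ψ : FreeGroup Bool →* H := FreeGroup.lift fun c => s (FreeGroup.of c)
  have hψ : ∀ u, f (ψ u) = u := by
    intro u
    have h1 : f.comp ψ = MonoidHom.id _ := by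
      ext c
      simp [ψ, hs]
    exact DFunLike.congr_fun h1 u
  refine ⟨H.subtype.comp ψ, (Subgroup.subtype_injective H).comp ?_⟩
  intro u v huv
  rw [← hψ u, ← hψ v, huv]

theorem W7_rf [Finite X] (j : E →* TA X) (hj : Function.Injective j) : RF E := by
  intro e he
  have h1 : j e ≠ 1 := fun h => he (hj (by rw [h, map_one]))
  have h2 : ∃ w, j e w ≠ w := by
    by_contra hcon
    push Not at hcon
    exact h1 (TA.ext hcon)
  obtain ⟨w, hw⟩ := h2
  refine ⟨((rootY w.length).comp j).ker, inferInstance, ?_, ?_⟩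
  · have : Finite ((rootY w.length).comp j).range := inferInstance
    infer_instance
  · intro h
    have h3 : rootY w.length (j e) = 1 := h
    exact hw (congrArg (fun p : Equiv.Perm (List.Vector X w.length) => (p ⟨w, rfl⟩).1) h3)

/-- the main theorem from Theorem B -/
theorem W7_main [Finite X] [Nonempty X] (hfg : Group.FG E) (j : E →* TA X)
    (hB : ∀ ξ, InfOrb j ξ → ∃ n, VA j (pref ξ n))
    (h : (∀ e, Qp (j e)) ∨ ∀ ξ, InfOrb j ξ) : VA j [] := by
  rcases h with h | h
  · exact thmC hfg j h hB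
  · exact VA_nil fun ξ => hB ξ (h ξ)

end Pool.Agent.Lib.H8PA
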